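import Pool.Agent.H633.CY.Stm

set_option autoImplicit false

/-! # The algebraic main theorem -/

namespace Pool.Agent.H633.CY

open Finset

/-- ALG. -/
theorem t_alg (h1 : S_ALG1) (hD : S_DIM) (hE : S_ELL) : S_ALG := by
  intro F _ _ _ S G _ _ hgood C hC hdim
  classical
  obtain ⟨H, _, _, D, P, hcard, ⟨j, hP⟩, hcop, hDtr, hfin, hwt⟩ := hE F G C hC
  obtain ⟨n0, hl, hn0⟩ := FiniteField.card F (ringChar F)
  have hPpos : 0 < P := by rw [hP]; exact pow_pos hl.pos _
  have hHpos : 0 < Fintype.card H := Fintype.card_pos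
  have hpP : ∀ p ∈ S, p.Coprime P := by
    intro p hp
    obtain ⟨hpp, -, -, hpq, -⟩ := hgood p hp
    rw [hP]
    apply Nat.Coprime.pow_right
    rw [Nat.coprime_primes hpp hl]
    intro h
    apply hpq
    rw [hn0, h]
    exact Dvd.dvd.mul_right (dvd_pow_self _ n0.ne_zero) _
  have hpH : ∀ p ∈ S, p ∣ Fintype.card H := by
    intro p hp
    obtain ⟨-, hpn, -⟩ := hgood p hp
    rw [hcard] at hpn
    exact (hpP p hp).dvd_of_dvd_mul_left hpn
  have hgoodH : ∀ p ∈ S, GoodP (Fintype.card F) (Fintype.card H) p := by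
    intro p hp
    obtain ⟨hpp, hpn, hp2, hpq, s, hs1, hs2⟩ := hgood p hp
    refine ⟨hpp, hpH p hp, fun h => hp2 (by rw [hcard]; exact Dvd.dvd.mul_left h P), hpq, s, hs1, ?_⟩
    intro m hm hmq
    refine hs2 m ?_ hmq
    rw [hcard, Nat.mul_div_assoc _ (hpH p hp)]
    exact Dvd.dvd.mul_left hm P
  have hdimH : ∑ p ∈ S, Fintype.card H / p < Module.finrank F D := by
    have e1 : ∑ p ∈ S, Fintype.card G / p = P * ∑ p ∈ S, Fintype.card H / p := by
      rw [mul_sum]
      apply sum_congr rfl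
      intro p hp
      rw [hcard, Nat.mul_div_assoc _ (hpH p hp)]
    rw [e1] at hdim
    exact lt_of_mul_lt_mul_left (hdim.trans_le hfin) (Nat.zero_le P)
  have hnle : ¬ D ≤ ⨆ p ∈ S, Inv F H p := by
    intro h
    have e1 := hD F H S (fun p hp => ⟨(hgoodH p hp).1, hpH p hp⟩)
    have e2 := Submodule.finrank_mono h
    omega
  obtain ⟨d, hd, hd0, hdw⟩ := h1 F S H hcop hgoodH D hDtr hnle
  obtain ⟨c, hc, hc0, hcw⟩ := hwt d hd hd0
  refine ⟨c, hc, hc0, ?_⟩
  rw [hcw, hcard]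
  calc (Fintype.card F + 1) ^ S.card * (P * hammingNorm d)
      = P * ((Fintype.card F + 1) ^ S.card * hammingNorm d) := by ring
    _ ≤ P * (Fintype.card F ^ S.card * Fintype.card H) := Nat.mul_le_mul_left P hdw
    _ = Fintype.card F ^ S.card * (P * Fintype.card H) := by ring

end Pool.Agent.H633.CY
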