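import Pool.Agent.H633.CY.Stm

set_option autoImplicit false

/-! # The coprime case of the algebraic main theorem -/

namespace Pool.Agent.H633.CY

open Finset

section prod
variable {F : Type} [Field F] {G A B : Type} [AddCommGroup G] [AddCommGroup A] [AddCommGroup B]

/-- functions on `A × B`, curried, as functions on `G` -/
def Phi (F : Type) [Field F] (φ : (A × B) ≃+ G) : (A → B → F) →ₗ[F] (G → F) where
  toFun c := fun g => c (φ.symm g).1 (φ.symm g).2
  map_add' _ _ := rfl
  map_smul' _ _ := rfl

lemma Phi_apply (φ : (A × B) ≃+ G) (c : A → B → F) (g : G) :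
    Phi F φ c g = c (φ.symm g).1 (φ.symm g).2 := rfl

lemma Phi_curry (φ : (A × B) ≃+ G) (c : G → F) : Phi F φ (fun a b => c (φ (a, b))) = c := by
  funext g
  rw [Phi_apply]
  simp

lemma Phi_add (φ : (A × B) ≃+ G) (c : A → B → F) (x g : G) :
    Phi F φ c (x + g) = c ((φ.symm x).1 + (φ.symm g).1) ((φ.symm x).2 + (φ.symm g).2) := by
  rw [Phi_apply, map_add]
  rfl

lemma hamming_Phi [Fintype G] [Fintype A] [Fintype B] [DecidableEq F] (φ : (A × B) ≃+ G)
    (f : A → F) (h : B → F) :
    hammingNorm (Phi F φ (fun x => f x • h)) = hammingNorm f * hammingNorm h := by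
  classical
  unfold hammingNorm
  rw [← card_product]
  refine card_bij (fun g _ => φ.symm g) ?_ ?_ ?_
  · intro g hg
    simp only [mem_filter, mem_univ, true_and, mem_product] at hg ⊢
    rw [Phi_apply] at hg
    simpa [Pi.smul_apply, smul_eq_mul, mul_eq_zero, not_or] using hg
  · intro a _ b _ hab
    exact φ.symm.injective hab
  · intro x hx
    refine ⟨φ x, ?_, by simp⟩
    simp only [mem_filter, mem_univ, true_and, mem_product] at hx ⊢
    rw [Phi_apply]
    simpa [Pi.smul_apply, smul_eq_mul, mul_eq_zero, not_or] using hx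

end prod

lemma goodP_div {q p m p' : ℕ} (hp : p.Prime) (hne : p' ≠ p) (h : GoodP q (p * m) p') :
    GoodP q m p' := by
  obtain ⟨h1, h2, h3, h4, s, h5, h6⟩ := h
  have hcop : p'.Coprime p := (Nat.coprime_primes h1 hp).2 hne
  have h7 : p' ∣ m := hcop.dvd_of_dvd_mul_left h2
  refine ⟨h1, h7, fun h => h3 (Dvd.dvd.mul_left h p), h4, s, h5, ?_⟩
  intro m' hm' hq
  refine h6 m' ?_ hq
  rw [Nat.mul_div_assoc _ h7]
  exact Dvd.dvd.mul_left hm' p

lemma nsmul_eq_of_modEq {A : Type} [AddCommGroup A] [Fintype A] {a b : ℕ}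
    (h : a ≡ b [MOD Fintype.card A]) (x : A) : a • x = b • x := by
  have h1 : ∀ m : ℕ, m • x = (m % Fintype.card A) • x := by
    intro m
    conv_lhs => rw [← Nat.div_add_mod m (Fintype.card A)]
    rw [add_nsmul, mul_comm, mul_nsmul', card_nsmul_eq_zero, nsmul_zero, zero_add]
  rw [h1 a, h1 b, h]

lemma eq_zero_of_coprime {A : Type} [AddCommGroup A] [Fintype A] {p : ℕ}
    (h : p.Coprime (Fintype.card A)) (x : A) (hx : p • x = 0) : x = 0 := by
  have h1 : addOrderOf x ∣ p := addOrderOf_dvd_of_nsmul_eq_zero hx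
  have h2 : addOrderOf x ∣ Fintype.card A := addOrderOf_dvd_card
  have h3 : addOrderOf x ∣ 1 := by
    have := Nat.dvd_gcd h1 h2
    rwa [h] at this
  rw [← AddMonoid.addOrderOf_eq_one_iff]
  exact Nat.dvd_one.1 h3

/-- ALG1. -/
theorem t_alg1 (hO : S_ONE) (hF : S_FROB) (hD : S_DEC) : S_ALG1 := by
  intro F _ _ _ S
  induction S using Finset.induction_on with
  | empty =>
    intro G _ _ hcop _ C hC hne
    have h1 : ∃ c ∈ C, c ≠ 0 := by
      by_contra h
      push Not at h
      apply hne
      intro c hc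
      rw [h c hc]
      exact Submodule.zero_mem _
    obtain ⟨c, hc, hc0⟩ := h1
    refine ⟨c, hc, hc0, ?_⟩
    simpa using hammingNorm_le_card_fintype (x := c)
  | insert p S hpS ih =>
    intro G _ _ hcop hgood C hC hne
    classical
    obtain ⟨q, hq⟩ : ∃ q, q = Fintype.card F := ⟨_, rfl⟩
    rw [← hq] at hgood ⊢
    obtain ⟨hpp, hpn, hp2, hpq, s, hs1, hs2⟩ := hgood p (mem_insert_self p S)
    obtain ⟨m, hm⟩ := hpn
    have hpm : ¬ p ∣ m := by
      intro h
      apply hp2
      rw [hm, pow_two]
      exact mul_dvd_mul_left p h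
    obtain ⟨A, B, _, _, _, _, φ, hA, hB⟩ := hD G p m hpp hm hpm
    have hdiv : Fintype.card G / p = m := by
      rw [hm]
      exact Nat.mul_div_cancel_left m hpp.pos
    have hcopB : (Fintype.card B).Coprime (Fintype.card F) := by
      rw [hB]
      rw [hm] at hcop
      exact Nat.Coprime.coprime_dvd_left (Dvd.intro_left p rfl) hcop
    have hcopAB : p.Coprime (Fintype.card B) := by
      rw [hB]
      exact (Nat.Prime.coprime_iff_not_dvd hpp).2 hpm
    -- the code on `A × B`
    obtain ⟨C1, hC1⟩ : ∃ C1 : Submodule F (A → B → F), C1 = C.comap (Phi F φ) := ⟨_, rfl⟩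
    have mem1 : ∀ c : A → B → F, c ∈ C1 ↔ Phi F φ c ∈ C := by
      intro c
      rw [hC1, Submodule.mem_comap]
    have htr : ∀ a : A, ∀ c ∈ C1, (fun x => c (x + a)) ∈ C1 := by
      intro a c hc
      rw [mem1] at hc ⊢
      have h1 : Phi F φ (fun x => c (x + a)) = fun g => Phi F φ c (g + φ (a, 0)) := by
        funext g
        rw [Phi_add, Phi_apply]
        simp
      rw [h1]
      exact hC _ _ hc
    have hqs : ∀ c ∈ C1, (fun x => c (Fintype.card F • x)) ∈ C1 := by
      intro c hc
      rw [mem1] at hc ⊢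
      have h1 : Phi F φ (fun x => c (Fintype.card F • x)) =
          fun g => Phi F φ c (Fintype.card F ^ s • g) := by
        funext g
        rw [Phi_apply, Phi_apply, map_nsmul]
        have h2 : Fintype.card F ^ s • (φ.symm g).1 = Fintype.card F • (φ.symm g).1 := by
          apply nsmul_eq_of_modEq
          rw [hA, ← hq]
          exact hs1
        have h3 : Fintype.card F ^ s • (φ.symm g).2 = (φ.symm g).2 := by
          conv_rhs => rw [← one_nsmul (φ.symm g).2]
          apply nsmul_eq_of_modEq
          rw [hB, ← hq]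
          refine hs2 m (by rw [hdiv]) ?_
          rw [hB, ← hq] at hcopB
          exact hcopB
        rw [Prod.smul_fst, Prod.smul_snd, h2, h3]
      rw [h1]
      exact hF F G hcop C hC _ hc s
    -- a word which is not in the sum of the invariant spaces
    obtain ⟨W, hW⟩ : ∃ W : Submodule F (G → F), W = ⨆ p' ∈ insert p S, Inv F G p' := ⟨_, rfl⟩
    obtain ⟨V, hV⟩ : ∃ V : Submodule F (B → F), V = ⨆ p' ∈ S, Inv F B p' := ⟨_, rfl⟩
    rw [← hW] at hne
    obtain ⟨c0, hc0, hc0W⟩ := SetLike.not_le_iff_exists.1 hne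
    obtain ⟨c, hcdef⟩ : ∃ c : A → B → F, c = fun a b => c0 (φ (a, b)) := ⟨_, rfl⟩
    have hPc : Phi F φ c = c0 := by rw [hcdef]; exact Phi_curry φ c0
    have hc1 : c ∈ C1 := by rw [mem1, hPc]; exact hc0
    have hInvW : ∀ p' ∈ insert p S, Inv F G p' ≤ W := by
      intro p' hp'
      rw [hW]
      exact le_iSup₂_of_le p' hp' le_rfl
    have hslice : ∀ a : A, V ≤ W.comap ((Phi F φ).comp (LinearMap.single F (fun _ : A => B → F) a)) := by
      intro a
      rw [hV]
      refine iSup₂_le ?_
      intro p' hp' v hv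
      rw [Submodule.mem_comap]
      refine hInvW p' (mem_insert_of_mem hp') ?_
      obtain ⟨h1, -⟩ := hgood p' (mem_insert_of_mem hp')
      have hne' : p' ≠ p := fun h => hpS (h ▸ hp')
      have hcA : p'.Coprime (Fintype.card A) := by
        rw [hA]
        exact (Nat.coprime_primes h1 hpp).2 hne'
      intro g hg x
      have hg' : p' • φ.symm g = 0 := by rw [← map_nsmul, hg, map_zero]
      have hg1 : (φ.symm g).1 = 0 := by
        apply eq_zero_of_coprime hcA
        rw [← Prod.smul_fst, hg']
        rfl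
      have hg2 : p' • (φ.symm g).2 = 0 := by
        rw [← Prod.smul_snd, hg']
        rfl
      rw [LinearMap.comp_apply, Phi_add, Phi_apply, hg1, add_zero]
      by_cases ha : (φ.symm x).1 = a
      · rw [ha]
        simp only [LinearMap.single_apply, Pi.single_eq_same]
        exact hv _ hg2 _
      · simp only [LinearMap.single_apply, Pi.single_eq_of_ne ha]
        rfl
    obtain ⟨a, a', haa⟩ : ∃ a a' : A, c a - c a' ∉ V := by
      by_contra h
      push Not at h
      apply hc0W
      have h1 : c0 = Phi F φ (fun _ => c 0) +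
          ∑ a : A, (Phi F φ).comp (LinearMap.single F (fun _ : A => B → F) a) (c a - c 0) := by
        have h2 : c = (fun _ => c 0) + ∑ a : A, LinearMap.single F (fun _ : A => B → F) a (c a - c 0) := by
          funext a
          rw [Pi.add_apply, Finset.sum_apply]
          simp only [LinearMap.single_apply]
          rw [sum_eq_single a]
          · rw [Pi.single_eq_same]
            abel
          · intro b _ hb
            exact Pi.single_eq_of_ne hb.symm _
          · simp
        conv_lhs => rw [← hPc, h2, map_add, map_sum]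
        rfl
      rw [h1]
      refine W.add_mem ?_ (W.sum_mem fun a _ => ?_)
      · refine hInvW p (mem_insert_self _ _) ?_
        intro g hg x
        have hg' : p • φ.symm g = 0 := by rw [← map_nsmul, hg, map_zero]
        have hg2 : (φ.symm g).2 = 0 := by
          apply eq_zero_of_coprime hcopAB
          rw [← Prod.smul_snd, hg']
          rfl
        rw [Phi_add, Phi_apply, hg2, add_zero]
      · exact hslice a (h a 0)
    obtain ⟨l, hl1, hl2⟩ := Submodule.exists_le_ker_of_notMem haa
    obtain ⟨f, hf0, hfw, m0, hm0, hfm⟩ := hO F A (B → F) p hpp hA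
      (by rw [← hq]; exact hpq) C1 htr hqs l c hc1
      ⟨a, a', fun h => hl1 (by rw [map_sub, h, sub_self])⟩
    rw [← hq] at hfw
    -- the code on `B`
    obtain ⟨J, hJ⟩ : ∃ J : Submodule F (B → F), ∀ m1 : B → F, m1 ∈ J ↔ (fun x => f x • m1) ∈ C1 := by
      refine ⟨C1.comap (LinearMap.pi fun x : A => f x • LinearMap.id), ?_⟩
      intro m1
      rw [Submodule.mem_comap]
      rfl
    have hJtr : TransInv J := by
      intro b m1 hm1
      rw [hJ, mem1] at hm1 ⊢
      have h1 : Phi F φ (fun x => f x • fun y => m1 (y + b)) =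
          fun g => Phi F φ (fun x => f x • m1) (g + φ (0, b)) := by
        funext g
        rw [Phi_add, Phi_apply]
        simp
      rw [h1]
      exact hC _ _ hm1
    have hJV : ¬ J ≤ ⨆ p' ∈ S, Inv F B p' := by
      rw [← hV]
      intro h
      have h1 : m0 ∈ V := h ((hJ m0).2 hfm)
      exact hm0 (LinearMap.mem_ker.1 (hl2 h1))
    obtain ⟨h, hhJ, hh0, hhw⟩ := ih B hcopB (by
      intro p' hp'
      rw [← hq, hB]
      have hne' : p' ≠ p := fun h => hpS (h ▸ hp')
      have := hgood p' (mem_insert_of_mem hp')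
      rw [hm] at this
      exact goodP_div hpp hne' this) J hJtr hJV
    rw [← hq] at hhw
    refine ⟨Phi F φ (fun x => f x • h), (mem1 _).1 ((hJ h).1 hhJ), ?_, ?_⟩
    · intro h0
      have h1 : hammingNorm f * hammingNorm h = 0 := by
        rw [← hamming_Phi φ f h, h0]
        exact hammingNorm_zero
      rcases mul_eq_zero.1 h1 with h2 | h2
      · exact hf0 (hammingNorm_eq_zero.1 h2)
      · exact hh0 (hammingNorm_eq_zero.1 h2)
    · rw [hamming_Phi, card_insert_of_notMem hpS, hm]
      rw [hB] at hhw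
      calc (q + 1) ^ (S.card + 1) * (hammingNorm f * hammingNorm h)
          = ((q + 1) * hammingNorm f) * ((q + 1) ^ S.card * hammingNorm h) := by ring
        _ ≤ (q * p) * (q ^ S.card * m) := Nat.mul_le_mul hfw hhw
        _ = q ^ (S.card + 1) * (p * m) := by ring

end Pool.Agent.H633.CY
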