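import Pool.Agent.H633.CY.Stm

set_option autoImplicit false

/-! # Group algebras of finite abelian groups over finite fields: basic facts -/

namespace Pool.Agent.H633.CY

open Finset

section
variable {F : Type} [Field F] {A : Type} [AddCommGroup A]

lemma coeff_mul_sub [Fintype A] (x y : AddMonoidAlgebra F A) (g : A) :
    (x * y).coeff g = ∑ u : A, x.coeff u * y.coeff (g - u) := by
  classical
  have hinj : Function.Injective (fun u : A => ((u, g - u) : A × A)) := by
    intro a b h
    exact (Prod.mk.inj h).1
  rw [AddMonoidAlgebra.coeff_mul_antidiag x y g ((univ : Finset A).map ⟨_, hinj⟩) ?_]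
  · rw [sum_map]
    rfl
  · intro p
    simp only [mem_map, mem_univ, true_and, Function.Embedding.coeFn_mk]
    constructor
    · rintro ⟨a, rfl⟩
      simp
    · intro h
      refine ⟨p.1, ?_⟩
      rw [← h]
      ext <;> simp

lemma eq_sum_single [Fintype A] (z : AddMonoidAlgebra F A) :
    z = ∑ u : A, AddMonoidAlgebra.single u (z.coeff u) := by
  classical
  ext g
  rw [AddMonoidAlgebra.coeff_sum, Finsupp.finsetSum_apply]
  simp [AddMonoidAlgebra.coeff_single, Finsupp.single_apply]

lemma pow_card_eq [Fintype F] [Fintype A] (z : AddMonoidAlgebra F A) (i : ℕ) :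
    z ^ (Fintype.card F ^ i) =
      ∑ u : A, AddMonoidAlgebra.single (Fintype.card F ^ i • u) (z.coeff u) := by
  classical
  obtain ⟨n, hp, hn⟩ := FiniteField.card F (ringChar F)
  haveI : Fact (ringChar F).Prime := ⟨hp⟩
  haveI hch : CharP (AddMonoidAlgebra F A) (ringChar F) :=
    charP_of_injective_algebraMap (FaithfulSMul.algebraMap_injective F (AddMonoidAlgebra F A)) (ringChar F)
  haveI : ExpChar (AddMonoidAlgebra F A) (ringChar F) := ExpChar.prime hp
  have hq : Fintype.card F ^ i = ringChar F ^ ((n : ℕ) * i) := by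
    rw [hn, ← pow_mul]
  conv_lhs => rw [eq_sum_single z]
  rw [hq, sum_pow_char_pow]
  apply sum_congr rfl
  intro u _
  rw [AddMonoidAlgebra.single_pow, ← hq]
  congr 1
  exact FiniteField.pow_card_pow i (z.coeff u)

lemma coeff_pow_card [Fintype F] [Fintype A] (z : AddMonoidAlgebra F A) (i : ℕ)
    (hinj : Function.Injective (fun u : A => Fintype.card F ^ i • u)) (g : A) :
    (z ^ (Fintype.card F ^ i)).coeff (Fintype.card F ^ i • g) = z.coeff g := by
  classical
  rw [pow_card_eq, AddMonoidAlgebra.coeff_sum, Finsupp.finsetSum_apply]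
  rw [sum_eq_single g]
  · simp
  · intro b _ hb
    rw [AddMonoidAlgebra.coeff_single, Finsupp.single_apply, if_neg]
    intro h
    exact hb (hinj h)
  · simp

end

end Pool.Agent.H633.CY
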