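import Pool.Agent.H633.CY.Dens

set_option autoImplicit false

/-! # Abelian codes of rich lengths -/

namespace Pool.Agent.H633.CY

open Finset Filter Topology

/-- Abelian codes of rich lengths contain words of small weight. -/
theorem codes (hA : S_ALG2) (c : ℝ) (hc : 0 < c) (F : Type) [Field F] [Fintype F] [DecidableEq F] :
    ∃ n0 : ℕ, ∀ n : ℕ, n0 ≤ n → Rich c n → ∀ (G : Type) [AddCommGroup G] [Fintype G],
      Fintype.card G = n → ∀ C : Submodule F (G → F), TransInv C →
      (n : ℝ) / Real.log (Real.log n) ≤ Module.finrank F C →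
      ∃ w ∈ C, w ≠ 0 ∧ (hammingNorm w : ℝ) ≤ n * Real.exp (-(c / (Fintype.card F ^ 2 + 1) *
        (Real.log (Real.log n) / Real.log (Real.log (Real.log n))))) := by
  have hlog3 : Tendsto (fun N : ℕ => Real.log (Real.log (Real.log N))) atTop atTop :=
    Real.tendsto_log_atTop.comp tendsto_loglog
  obtain ⟨n0, hn0⟩ := ((eventually_ge_atTop 1).and ((hlog3.eventually_ge_atTop (2 * c + 1)).and
    (tendsto_loglog.eventually_ge_atTop ((Fintype.card F : ℝ) + 2)))).exists_forall_of_atTop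
  refine ⟨n0, ?_⟩
  intro n hn hR G _ _ hG C hC hdim
  obtain ⟨e1, e2, e3⟩ := hn0 n hn
  obtain ⟨v, hv⟩ : ∃ v, v = Real.log (Real.log n) := ⟨_, rfl⟩
  rw [← hv] at e2 e3 hdim ⊢
  obtain ⟨q, hq⟩ : ∃ q, q = Fintype.card F := ⟨_, rfl⟩
  rw [← hq] at e3 ⊢
  have hq2 : 2 ≤ q := by rw [hq]; exact Fintype.one_lt_card
  have hq2r : (2 : ℝ) ≤ q := by exact_mod_cast hq2
  have hv4 : 4 ≤ v := by linarith
  have hlv : 1 ≤ Real.log v := by linarith
  have hn : (0 : ℝ) < n := by exact_mod_cast e1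
  obtain ⟨S, hS, hcard⟩ := hR
  rw [← hv] at hS hcard
  obtain ⟨k, hk⟩ : ∃ k, k = ⌈c * (v / Real.log v)⌉₊ := ⟨_, rfl⟩
  have hkS : k ≤ S.card := by
    rw [hk]
    exact Nat.ceil_le.2 hcard
  obtain ⟨T, hTS, hTk⟩ := Finset.exists_subset_card_eq hkS
  have hk1 : c * (v / Real.log v) ≤ k := by rw [hk]; exact Nat.le_ceil _
  have hkpos : 0 < k := by
    rw [hk, Nat.ceil_pos]
    positivity
  have hkv : (k : ℝ) ≤ v := by
    have h1 : (k : ℝ) < c * (v / Real.log v) + 1 := by
      rw [hk]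
      exact Nat.ceil_lt_add_one (by positivity)
    have h2 : c * (v / Real.log v) ≤ v / 2 := by
      rw [mul_div_assoc', div_le_div_iff₀ (by linarith) (by norm_num)]
      nlinarith
    linarith
  have hsum : ∑ p ∈ T, Fintype.card G / p < Module.finrank F C := by
    have h1 : ((∑ p ∈ T, Fintype.card G / p : ℕ) : ℝ) < Module.finrank F C := by
      refine lt_of_lt_of_le ?_ hdim
      push_cast
      have hne : T.Nonempty := by
        rw [← card_pos, hTk]
        exact hkpos
      have h2 : ∑ p ∈ T, ((Fintype.card G / p : ℕ) : ℝ) < ∑ p ∈ T, (n : ℝ) / v ^ 2 := by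
        apply sum_lt_sum_of_nonempty hne
        intro p hp
        have h3 := (hS p (hTS hp)).2
        have h4 : ((Fintype.card G / p : ℕ) : ℝ) ≤ (n : ℝ) / p := by
          rw [hG]
          exact Nat.cast_div_le
        refine h4.trans_lt ?_
        exact div_lt_div_of_pos_left hn (by positivity) h3
      refine h2.trans_le ?_
      rw [sum_const, hTk, nsmul_eq_mul, mul_div_assoc', div_le_div_iff₀ (by positivity) (by linarith)]
      nlinarith [mul_nonneg hn.le (mul_nonneg (sub_nonneg.2 hkv) (by linarith : (0 : ℝ) ≤ v))]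
    exact_mod_cast h1
  obtain ⟨w, hw, hw0, hww⟩ := hA F T G (by
    intro p hp
    obtain ⟨h1, h2⟩ := hS p (hTS hp)
    rw [hG]
    refine ⟨h1, ?_⟩
    rw [← hq]
    have h3 : ((q + 1 : ℕ) : ℝ) < p := by
      push_cast
      nlinarith
    exact_mod_cast h3) C hC hsum
  refine ⟨w, hw, hw0, ?_⟩
  rw [← hq, hTk, hG] at hww
  have hww' : ((q : ℝ) ^ 2 + 1) ^ k * (hammingNorm w : ℝ) ≤ ((q : ℝ) ^ 2) ^ k * n := by
    exact_mod_cast hww
  have h5 : (hammingNorm w : ℝ) ≤ n * (((q : ℝ) ^ 2) / ((q : ℝ) ^ 2 + 1)) ^ k := by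
    rw [div_pow, mul_div_assoc', le_div_iff₀ (by positivity)]
    linarith
  refine h5.trans (mul_le_mul_of_nonneg_left ?_ hn.le)
  have h6 : ((q : ℝ) ^ 2) / ((q : ℝ) ^ 2 + 1) ≤ Real.exp (-(1 / ((q : ℝ) ^ 2 + 1))) := by
    have h7 := Real.add_one_le_exp (-(1 / ((q : ℝ) ^ 2 + 1)))
    refine le_trans (le_of_eq ?_) h7
    field_simp
    ring
  calc (((q : ℝ) ^ 2) / ((q : ℝ) ^ 2 + 1)) ^ k ≤ Real.exp (-(1 / ((q : ℝ) ^ 2 + 1))) ^ k :=
        pow_le_pow_left₀ (by positivity) h6 k
    _ = Real.exp (-(k / ((q : ℝ) ^ 2 + 1))) := by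
        rw [← Real.exp_nat_mul]
        congr 1
        ring
    _ ≤ Real.exp (-(c / ((q : ℝ) ^ 2 + 1) * (v / Real.log v))) := by
        rw [Real.exp_le_exp, neg_le_neg_iff]
        rw [div_mul_eq_mul_div]
        exact div_le_div_of_nonneg_right hk1 (by positivity)

/-- invariance under the cyclic shift -/
lemma cyclic_trans {F : Type} [Field F] {m : ℕ} (C : Submodule F (Fin (m + 1) → F))
    (hC : ∀ c ∈ C, (fun j => c (finRotate (m + 1) j)) ∈ C) : TransInv C := by
  have hone : ∀ c ∈ C, (fun x => c (x + 1)) ∈ C := by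
    intro c hc
    have h2 := hC c hc
    simpa only [finRotate_apply] using h2
  have h1 : ∀ g : Fin (m + 1), ∀ c ∈ C, (fun x => c (x + g)) ∈ C := by
    intro g
    induction g using Fin.induction with
    | zero =>
      intro c hc
      simpa using hc
    | succ i ih =>
      intro c hc
      have h3 : (fun x : Fin (m + 1) => c (x + i.succ)) =
          fun x => c ((x + i.castSucc) + 1) := by
        funext x
        rw [add_assoc, Fin.coeSucc_eq_succ]
      rw [h3]
      exact ih _ (hone c hc)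
  exact h1

end Pool.Agent.H633.CY
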