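import Pool.Agent.H633.CY.Dens3
import Pool.Agent.H633.CY.Codes

set_option autoImplicit false

/-! # Abelian codes of almost all lengths -/

namespace Pool.Agent.H633.CY

open Finset Filter Topology

lemma factor_le (q : ℝ) (hq : 0 < q) (k : ℕ) :
    ((q ^ 2) / (q ^ 2 + 1)) ^ k ≤ Real.exp (-(k / (q ^ 2 + 1))) := by
  have h6 : (q ^ 2) / (q ^ 2 + 1) ≤ Real.exp (-(1 / (q ^ 2 + 1))) := by
    have h7 := Real.add_one_le_exp (-(1 / (q ^ 2 + 1)))
    refine le_trans (le_of_eq ?_) h7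
    field_simp
    ring
  calc ((q ^ 2) / (q ^ 2 + 1)) ^ k ≤ Real.exp (-(1 / (q ^ 2 + 1))) ^ k :=
        pow_le_pow_left₀ (by positivity) h6 k
    _ = Real.exp (-(k / (q ^ 2 + 1))) := by
        rw [← Real.exp_nat_mul]
        congr 1
        ring

lemma weight_le {q k n w : ℕ} (h : (q ^ 2 + 1) ^ k * w ≤ (q ^ 2) ^ k * n) :
    (w : ℝ) ≤ n * (((q : ℝ) ^ 2) / ((q : ℝ) ^ 2 + 1)) ^ k := by
  have hww' : ((q : ℝ) ^ 2 + 1) ^ k * (w : ℝ) ≤ ((q : ℝ) ^ 2) ^ k * n := by
    exact_mod_cast h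
  rw [div_pow, mul_div_assoc', le_div_iff₀ (by positivity)]
  linarith

/-- Abelian codes of non-exceptional lengths, even of tiny rate, contain words of small weight. -/
theorem codes3 (hA : S_ALG2) (θ c : ℝ) (hc : 0 < c) (F : Type) [Field F]
    [Fintype F] [DecidableEq F] :
    ∃ n0 : ℕ, ∀ n : ℕ, n0 ≤ n → n ∉ Exc θ c → ∀ (G : Type) [AddCommGroup G] [Fintype G],
      Fintype.card G = n → ∀ C : Submodule F (G → F), TransInv C →
      (n : ℝ) * Real.exp (-(Real.log n ^ θ)) ≤ Module.finrank F C →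
      ∃ w ∈ C, w ≠ 0 ∧ (hammingNorm w : ℝ) ≤ n * Real.exp (-(c / (Fintype.card F ^ 2 + 1) *
        (Real.log (Real.log n) / Real.log (Real.log (Real.log n))))) := by
  have hlog3 : Tendsto (fun N : ℕ => Real.log (Real.log (Real.log N))) atTop atTop :=
    Real.tendsto_log_atTop.comp tendsto_loglog
  obtain ⟨n0, hn0⟩ := ((eventually_ge_atTop 1).and ((hlog3.eventually_ge_atTop (2 * c + 1)).and
    (tendsto_loglog.eventually_ge_atTop ((Fintype.card F : ℝ) + 2)))).exists_forall_of_atTop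
  refine ⟨n0, ?_⟩
  intro n hn hR G _ _ hG C hC hdim
  obtain ⟨e1, e2, e3⟩ := hn0 n hn
  unfold Exc at hR
  rw [Set.mem_ofPred_eq, not_lt] at hR
  have hmem : ∀ p ∈ bigGood θ n, Good n p ∧
      Real.log (Real.log n) * Real.exp (Real.log n ^ θ) < p := fun p hp =>
    (mem_bigGood (by omega)).1 hp
  have hln0 : 0 ≤ Real.log n := Real.log_nonneg (by exact_mod_cast e1)
  obtain ⟨ρ, hρ⟩ : ∃ ρ, ρ = Real.log n ^ θ := ⟨_, rfl⟩
  have hρ0 : 0 ≤ ρ := by rw [hρ]; exact Real.rpow_nonneg hln0 θ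
  obtain ⟨v, hv⟩ : ∃ v, v = Real.log (Real.log n) := ⟨_, rfl⟩
  rw [← hv] at e2 e3 hmem hR ⊢
  rw [← hρ] at hdim hmem
  obtain ⟨q, hq⟩ : ∃ q, q = Fintype.card F := ⟨_, rfl⟩
  rw [← hq] at e3 ⊢
  have hq2 : 2 ≤ q := by rw [hq]; exact Fintype.one_lt_card
  have hq2r : (2 : ℝ) ≤ q := by exact_mod_cast hq2
  have hv4 : 4 ≤ v := by linarith
  have hlv : 1 ≤ Real.log v := by linarith
  have hn : (0 : ℝ) < n := by exact_mod_cast e1
  have hexp : 1 ≤ Real.exp ρ := Real.one_le_exp hρ0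
  obtain ⟨k, hk⟩ : ∃ k, k = ⌈c * (v / Real.log v)⌉₊ := ⟨_, rfl⟩
  have hkS : k ≤ (bigGood θ n).card := by
    rw [hk]
    exact Nat.ceil_le.2 hR
  obtain ⟨T, hTS, hTk⟩ := Finset.exists_subset_card_eq hkS
  have hk1 : c * (v / Real.log v) ≤ k := by rw [hk]; exact Nat.le_ceil _
  have hkpos : 0 < k := by
    rw [hk, Nat.ceil_pos]
    positivity
  have hkv : (k : ℝ) ≤ v := by
    have h1 : (k : ℝ) < c * (v / Real.log v) + 1 := by
      rw [hk]
      exact Nat.ceil_lt_add_one (by positivity)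
    have h2 : c * (v / Real.log v) ≤ v / 2 := by
      rw [mul_div_assoc', div_le_div_iff₀ (by linarith) (by norm_num)]
      nlinarith
    linarith
  have hsum : ∑ p ∈ T, Fintype.card G / p < Module.finrank F C := by
    have h1 : ((∑ p ∈ T, Fintype.card G / p : ℕ) : ℝ) < Module.finrank F C := by
      refine lt_of_lt_of_le ?_ hdim
      push_cast
      have hne : T.Nonempty := by
        rw [← card_pos, hTk]
        exact hkpos
      have h2 : ∑ p ∈ T, ((Fintype.card G / p : ℕ) : ℝ) <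
          ∑ p ∈ T, (n : ℝ) / (v * Real.exp ρ) := by
        apply sum_lt_sum_of_nonempty hne
        intro p hp
        have h3 := (hmem p (hTS hp)).2
        have h4 : ((Fintype.card G / p : ℕ) : ℝ) ≤ (n : ℝ) / p := by
          rw [hG]
          exact Nat.cast_div_le
        refine h4.trans_lt ?_
        exact div_lt_div_of_pos_left hn (by positivity) h3
      refine h2.trans_le ?_
      rw [sum_const, hTk, nsmul_eq_mul, Real.exp_neg]
      have h5 : (k : ℝ) * ((n : ℝ) / (v * Real.exp ρ)) = (k / v) * (n * (Real.exp ρ)⁻¹) := by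
        field_simp
      rw [h5]
      have h6 : (k : ℝ) / v ≤ 1 := (div_le_one (by linarith)).2 hkv
      have h7 : 0 ≤ (n : ℝ) * (Real.exp ρ)⁻¹ := by positivity
      nlinarith
    exact_mod_cast h1
  obtain ⟨w, hw, hw0, hww⟩ := hA F T G (by
    intro p hp
    obtain ⟨h1, h2⟩ := hmem p (hTS hp)
    rw [hG]
    refine ⟨h1, ?_⟩
    rw [← hq]
    have h3 : ((q + 1 : ℕ) : ℝ) < p := by
      push_cast
      nlinarith
    exact_mod_cast h3) C hC hsum
  refine ⟨w, hw, hw0, ?_⟩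
  rw [← hq, hTk, hG] at hww
  refine (weight_le hww).trans (mul_le_mul_of_nonneg_left ?_ hn.le)
  refine (factor_le q (by linarith) k).trans ?_
  rw [Real.exp_le_exp, neg_le_neg_iff]
  rw [div_mul_eq_mul_div]
  exact div_le_div_of_nonneg_right hk1 (by positivity)

/-- All good prime factors of `n`. -/
def goodPrimes (n : ℕ) : Finset ℕ :=
  n.primeFactors.filter (fun p : ℕ => ¬ p ^ 2 ∣ n ∧ ((p - 1) / 2).Coprime (n / p).totient)

lemma mem_goodPrimes {n p : ℕ} (hn : 0 < n) : p ∈ goodPrimes n ↔ Good n p := by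
  unfold goodPrimes Good
  rw [mem_filter, Nat.mem_primeFactors]
  constructor
  · rintro ⟨⟨h1, h2, -⟩, h3, h4⟩
    exact ⟨h1, h2, h3, h4⟩
  · rintro ⟨h1, h2, h3, h4⟩
    exact ⟨⟨h1, h2, hn.ne'⟩, h3, h4⟩

/-- **Good abelian codes have boundedly many good prime factors of the length.** -/
theorem bounded (hA : S_ALG2) (F : Type) [Field F] [Fintype F] [DecidableEq F] (R δ : ℝ)
    (hR : 0 < R) (hδ : 0 < δ) :
    ∃ B : ℕ, ∀ (G : Type) [AddCommGroup G] [Fintype G] (C : Submodule F (G → F)), TransInv C →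
      R * Fintype.card G ≤ Module.finrank F C →
      (∀ w ∈ C, w ≠ 0 → δ * Fintype.card G ≤ hammingNorm w) →
      (goodPrimes (Fintype.card G)).card ≤ B := by
  obtain ⟨q, hq⟩ : ∃ q, q = Fintype.card F := ⟨_, rfl⟩
  have hq2 : 2 ≤ q := by rw [hq]; exact Fintype.one_lt_card
  have hq2r : (2 : ℝ) ≤ q := by exact_mod_cast hq2
  have hlt : ((q : ℝ) ^ 2) / ((q : ℝ) ^ 2 + 1) < 1 := by
    rw [div_lt_one (by positivity)]
    linarith
  obtain ⟨k0, hk0⟩ := exists_pow_lt_of_lt_one hδ hlt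
  obtain ⟨k, hk⟩ : ∃ k, k = k0 + 1 := ⟨_, rfl⟩
  have hkδ : (((q : ℝ) ^ 2) / ((q : ℝ) ^ 2 + 1)) ^ k < δ := by
    rw [hk, pow_succ]
    have h1 : 0 ≤ (((q : ℝ) ^ 2) / ((q : ℝ) ^ 2 + 1)) ^ k0 := by positivity
    nlinarith
  obtain ⟨M, hM⟩ : ∃ M, M = ⌈(k : ℝ) / R⌉₊ + q + 1 := ⟨_, rfl⟩
  refine ⟨k + M, ?_⟩
  intro G _ _ C hC hdim hdist
  by_contra hcon
  rw [not_le] at hcon
  obtain ⟨n, hn⟩ : ∃ n, n = Fintype.card G := ⟨_, rfl⟩
  rw [← hn] at hcon hdim hdist
  have hnpos : 0 < n := by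
    rw [hn]
    exact Fintype.card_pos
  have hnr : (0 : ℝ) < n := by exact_mod_cast hnpos
  obtain ⟨A, hA'⟩ : ∃ A, A = (goodPrimes n).filter (fun p => M < p) := ⟨_, rfl⟩
  have hcardA : k ≤ A.card := by
    have h1 : (goodPrimes n).card ≤ A.card + M := by
      rw [hA', ← card_filter_add_card_filter_not (s := goodPrimes n) (fun p => M < p)]
      apply Nat.add_le_add_left
      calc ((goodPrimes n).filter (fun p => ¬ M < p)).card ≤ (Icc 1 M).card := by
            apply card_le_card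
            intro p hp
            rw [mem_filter] at hp
            rw [mem_Icc]
            exact ⟨((mem_goodPrimes hnpos).1 hp.1).1.one_lt.le, not_lt.1 hp.2⟩
        _ = M := by simp
    omega
  obtain ⟨T, hTA, hTk⟩ := Finset.exists_subset_card_eq hcardA
  have hT : ∀ p ∈ T, Good n p ∧ M < p := by
    intro p hp
    have h1 := hTA hp
    rw [hA', mem_filter] at h1
    exact ⟨(mem_goodPrimes hnpos).1 h1.1, h1.2⟩
  have hkpos : (0 : ℝ) < k := by exact_mod_cast (by omega : 0 < k)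
  have hMR : (k : ℝ) / R < M := by
    have h1 := Nat.le_ceil ((k : ℝ) / R)
    rw [hM]
    push_cast
    linarith
  have hMpos : (0 : ℝ) < M := lt_trans (by positivity) hMR
  have hsum : ∑ p ∈ T, Fintype.card G / p < Module.finrank F C := by
    have h1 : ((∑ p ∈ T, Fintype.card G / p : ℕ) : ℝ) < Module.finrank F C := by
      refine lt_of_lt_of_le ?_ hdim
      push_cast
      have h2 : ∑ p ∈ T, ((Fintype.card G / p : ℕ) : ℝ) ≤ ∑ p ∈ T, (n : ℝ) / M := by
        apply sum_le_sum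
        intro p hp
        have h3 : (M : ℝ) < p := by exact_mod_cast (hT p hp).2
        rw [← hn]
        refine Nat.cast_div_le.trans ?_
        exact div_le_div_of_nonneg_left hnr.le hMpos h3.le
      refine h2.trans_lt ?_
      rw [sum_const, hTk, nsmul_eq_mul, mul_div_assoc', div_lt_iff₀ hMpos]
      rw [div_lt_iff₀ hR] at hMR
      nlinarith
    exact_mod_cast h1
  obtain ⟨w, hw, hw0, hww⟩ := hA F T G (by
    intro p hp
    obtain ⟨h1, h2⟩ := hT p hp
    rw [← hn, ← hq]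
    exact ⟨h1, by omega⟩) C hC hsum
  rw [← hq, hTk, ← hn] at hww
  have h1 := weight_le hww
  have h2 := hdist w hw hw0
  nlinarith

end Pool.Agent.H633.CY
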