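import Pool.Agent.H633.CY.Stm2

set_option autoImplicit false

/-! # Almost all numbers have many good prime factors -/

namespace Pool.Agent.H633.CY

open Finset Filter Topology

/-- `n` has at least `c log log n / log log log n` good prime factors, all larger than
`(log log n) ^ 2`. -/
def Rich (c : ℝ) (n : ℕ) : Prop := ∃ S : Finset ℕ,
  (∀ p ∈ S, Good n p ∧ Real.log (Real.log n) ^ 2 < p) ∧
  c * (Real.log (Real.log n) / Real.log (Real.log (Real.log n))) ≤ S.card

/-- `x / log x` is increasing beyond `e`. -/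
lemma div_log_mono {x y : ℝ} (hx : Real.exp 1 ≤ x) (hxy : x ≤ y) :
    x / Real.log x ≤ y / Real.log y := by
  have hx0 : 0 < x := (Real.exp_pos 1).trans_le hx
  have hy0 : 0 < y := hx0.trans_le hxy
  have hlx : 1 ≤ Real.log x := by
    rw [Real.le_log_iff_exp_le hx0]
    exact hx
  have hly : 1 ≤ Real.log y := by
    rw [Real.le_log_iff_exp_le hy0]
    exact hx.trans hxy
  rw [div_le_div_iff₀ (by linarith) (by linarith)]
  have h := Real.log_div_self_antitoneOn (Set.mem_ofPred.2 hx) (Set.mem_ofPred.2 (hx.trans hxy)) hxy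
  simp only at h
  rw [div_le_div_iff₀ hy0 hx0] at h
  linarith

lemma tendsto_loglog : Tendsto (fun N : ℕ => Real.log (Real.log N)) atTop atTop :=
  Real.tendsto_log_atTop.comp (Real.tendsto_log_atTop.comp tendsto_natCast_atTop_atTop)

open Classical in
/-- the counting inequality for one large `N` -/
lemma count (hT : S_TUR) (hG : S_GOOD2) (C c0 : ℝ) (hC : 0 < C) (hc0 : 0 < c0)
    (hCol : ∀ N : ℕ, 16 ≤ N → ∀ y : ℝ, 1 ≤ y →
      ((((Icc 1 N).filter (fun n => Coll y n)).card : ℕ) : ℝ) ≤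
        C * (N * Real.log (Real.log N) ^ 2 / y))
    (N : ℕ) (hN : 16 ≤ N) (hu : Real.exp 2 ≤ Real.log (Real.log N))
    (hlow : c0 * (Real.log (Real.log N) / Real.log (Real.log (Real.log N))) ≤
      ∑ p ∈ PP 2 N, (1 : ℝ) / p) :
    (((range N).filter (fun n => ¬ Rich (c0 / 2) n)).card : ℝ) / N ≤
      2 / Real.sqrt N + 12 / c0 * (Real.log (Real.log (Real.log N)) / Real.log (Real.log N)) +
        C * Real.log (Real.log N) ^ (-(1 / 5) : ℝ) := by
  obtain ⟨u, hudef⟩ : ∃ u, u = Real.log (Real.log N) := ⟨_, rfl⟩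
  rw [← hudef] at hu hlow ⊢
  have hN0 : (0 : ℝ) < N := by exact_mod_cast (by omega : 0 < N)
  have he2 : (2 : ℝ) ^ 2 < Real.exp 2 := by
    have h1 : Real.exp 2 = Real.exp 1 ^ 2 := by
      rw [← Real.exp_nat_mul]; norm_num
    rw [h1]
    have := Real.exp_one_gt_d9
    exact pow_lt_pow_left₀ (by linarith) (by norm_num) (by norm_num)
  have hu4 : 4 < u := by linarith
  have hu0 : 0 < u := by linarith
  have hlu : 2 ≤ Real.log u := by
    rw [Real.le_log_iff_exp_le hu0]
    exact hu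
  obtain ⟨y, hy⟩ : ∃ y : ℝ, y = u ^ (11 / 5 : ℝ) := ⟨_, rfl⟩
  have hyu : u ^ 2 ≤ y := by
    rw [hy, ← Real.rpow_natCast]
    exact Real.rpow_le_rpow_of_exponent_le (by linarith) (by norm_num)
  have hy2 : 2 ≤ y := by nlinarith
  obtain ⟨E, hE⟩ : ∃ E : ℝ, E = ∑ p ∈ PP 2 N, (1 : ℝ) / p := ⟨_, rfl⟩
  rw [← hE] at hlow
  have hE0 : 0 < E := lt_of_lt_of_le (by positivity) hlow
  have hPP : ∀ p ∈ PP 2 N, p.Prime ∧ 1 ≤ p ∧ p ≤ ⌊Real.sqrt N⌋₊ ∧ 8 ∣ p + 1 ∧
      ∀ r : ℕ, r.Prime → 3 ≤ r → (r : ℝ) ≤ y → ¬ r ∣ p - 1 := by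
    intro p hp
    unfold PP at hp
    rw [mem_filter, mem_Icc, ← hudef, ← hy] at hp
    exact ⟨hp.2.1, hp.1.1, hp.1.2, hp.2.2.1, hp.2.2.2⟩
  have hsqrtN : Real.sqrt N ≤ N := by
    rw [Real.sqrt_le_iff]
    have : (1 : ℝ) ≤ N := by exact_mod_cast (by omega : 1 ≤ N)
    exact ⟨hN0.le, by nlinarith⟩
  have hcard : (PP 2 N).card ≤ N := by
    have h1 : PP 2 N ⊆ Icc 1 ⌊Real.sqrt N⌋₊ := by
      intro p hp
      obtain ⟨-, h2, h3, -⟩ := hPP p hp
      exact mem_Icc.2 ⟨h2, h3⟩
    refine (card_le_card h1).trans ?_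
    rw [Nat.card_Icc]
    have h2 : ⌊Real.sqrt N⌋₊ ≤ N := by
      have := Nat.floor_mono hsqrtN
      rwa [Nat.floor_natCast] at this
    omega
  have hTu := hT N (PP 2 N) (fun p hp => (hPP p hp).1) hcard
  rw [← hE] at hTu
  have hCo := hCol N hN y (by linarith)
  rw [← hudef] at hCo
  -- the inclusion
  have hsub : (range N).filter (fun n => ¬ Rich (c0 / 2) n) ⊆
      range (⌊Real.sqrt N⌋₊ + 1) ∪
        ((Icc 1 N).filter (fun n => ((((PP 2 N).filter (fun p => p ∣ n)).card : ℕ) : ℝ) < E / 2) ∪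
          (Icc 1 N).filter (fun n => Coll y n)) := by
    intro n hn
    rw [mem_filter, mem_range] at hn
    obtain ⟨hnN, hnr⟩ := hn
    rw [mem_union, mem_union, mem_range, mem_filter, mem_filter, mem_Icc]
    by_contra hcon
    push Not at hcon
    obtain ⟨h1, h2, h3⟩ := hcon
    have hnpos : 1 ≤ n := by omega
    have h2' := h2 ⟨hnpos, hnN.le⟩
    have h3' := h3 ⟨hnpos, hnN.le⟩
    apply hnr
    have hns : Real.sqrt N ≤ n := by
      have h4 := Nat.lt_floor_add_one (Real.sqrt N)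
      have h5 : ((⌊Real.sqrt N⌋₊ : ℕ) : ℝ) + 1 ≤ n := by exact_mod_cast h1
      linarith
    have hn0 : (0 : ℝ) < n := by exact_mod_cast hnpos
    have hnN' : (n : ℝ) ≤ N := by exact_mod_cast hnN.le
    have hlN : Real.log N = Real.exp u := by
      rw [hudef, Real.exp_log]
      exact Real.log_pos (by exact_mod_cast (by omega : 1 < N))
    have hln1 : Real.log N / 2 ≤ Real.log n := by
      rw [← Real.log_sqrt hN0.le]
      exact Real.log_le_log (Real.sqrt_pos.2 hN0) hns
    have hln2 : Real.log n ≤ Real.log N := Real.log_le_log hn0 hnN'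
    have hln0 : 0 < Real.log n := by
      refine lt_of_lt_of_le ?_ hln1
      rw [hlN]
      positivity
    have hv1 : Real.log (Real.log n) ≤ u := by
      rw [hudef]
      exact Real.log_le_log hln0 hln2
    have hv2 : u - 1 ≤ Real.log (Real.log n) := by
      have h6 := Real.log_le_log (by rw [hlN]; positivity) hln1
      rw [Real.log_div (by rw [hlN]; exact (Real.exp_pos _).ne') (by norm_num), ← hudef] at h6
      have := Real.log_two_lt_d9
      linarith
    obtain ⟨v, hv⟩ : ∃ v, v = Real.log (Real.log n) := ⟨_, rfl⟩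
    refine ⟨(PP 2 N).filter (fun p => p ∣ n), ?_, ?_⟩
    · intro p hp
      rw [mem_filter] at hp
      obtain ⟨hp1, hpn⟩ := hp
      obtain ⟨hpp, -, -, hp8, hpf⟩ := hPP p hp1
      obtain ⟨hg1, hg2⟩ := hG n p y hy2 hnpos hpp hpn
        ((by norm_num : (4 : ℕ) ∣ 8).trans hp8) (by
          have := Nat.le_of_dvd (Nat.succ_pos p) hp8
          omega) hpf h3'
      refine ⟨hg1, ?_⟩
      rw [← hv] at hv1 hv2 ⊢
      have hv0 : 0 ≤ v := by linarith
      nlinarith
    · refine le_trans ?_ h2'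
      have h7 : v / Real.log v ≤ u / Real.log u := by
        apply div_log_mono
        · have := Real.exp_one_lt_d9
          rw [← hv] at hv2
          linarith
        · rw [hv]; exact hv1
      rw [← hv]
      have h8 : c0 / 2 * (v / Real.log v) ≤ c0 / 2 * (u / Real.log u) :=
        mul_le_mul_of_nonneg_left h7 (by positivity)
      linarith
  -- the count
  have hcnt : (((range N).filter (fun n => ¬ Rich (c0 / 2) n)).card : ℝ) ≤
      (Real.sqrt N + 1) + (12 * N / E + C * (N * u ^ 2 / y)) := by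
    have h1 := (card_le_card hsub).trans ((card_union_le _ _).trans
      (Nat.add_le_add_left (card_union_le _ _) _))
    have h2 : (((range N).filter (fun n => ¬ Rich (c0 / 2) n)).card : ℝ) ≤
        ((range (⌊Real.sqrt N⌋₊ + 1)).card : ℝ) +
        ((((Icc 1 N).filter (fun n => ((((PP 2 N).filter (fun p => p ∣ n)).card : ℕ) : ℝ) < E / 2)).card : ℝ) +
          (((Icc 1 N).filter (fun n => Coll y n)).card : ℝ)) := by exact_mod_cast h1
    have h3 : ((range (⌊Real.sqrt N⌋₊ + 1)).card : ℝ) ≤ Real.sqrt N + 1 := by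
      rw [card_range]
      push_cast
      have := Nat.floor_le (Real.sqrt_nonneg N)
      linarith
    have h4 : (((Icc 1 N).filter (fun n => ((((PP 2 N).filter (fun p => p ∣ n)).card : ℕ) : ℝ) < E / 2)).card : ℝ) ≤
        12 * N / E := by
      rw [le_div_iff₀ hE0]
      exact hTu
    linarith
  have h5 : (((range N).filter (fun n => ¬ Rich (c0 / 2) n)).card : ℝ) / N ≤
      ((Real.sqrt N + 1) + (12 * N / E + C * (N * u ^ 2 / y))) / N :=
    div_le_div_of_nonneg_right hcnt hN0.le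
  refine h5.trans ?_
  have h6 : ((Real.sqrt N + 1) + (12 * N / E + C * (N * u ^ 2 / y))) / N =
      (Real.sqrt N + 1) / N + (12 / E + C * (u ^ 2 / y)) := by
    field_simp
  rw [h6]
  have h7 : (Real.sqrt N + 1) / N ≤ 2 / Real.sqrt N := by
    have hs1 : 1 ≤ Real.sqrt N := by
      rw [Real.one_le_sqrt]
      exact_mod_cast (by omega : 1 ≤ N)
    have hs2 : Real.sqrt N * Real.sqrt N = N := Real.mul_self_sqrt hN0.le
    rw [div_le_div_iff₀ hN0 (by linarith)]
    nlinarith
  have h8 : 12 / E ≤ 12 / c0 * (Real.log u / u) := by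
    have h9 : 12 / E ≤ 12 / (c0 * (u / Real.log u)) :=
      div_le_div_of_nonneg_left (by norm_num) (by positivity) hlow
    refine h9.trans (le_of_eq ?_)
    field_simp
  have h10 : u ^ 2 / y = u ^ (-(1 / 5) : ℝ) := by
    rw [hy, ← Real.rpow_natCast, ← Real.rpow_sub hu0]
    norm_num
  rw [h10]
  linarith

open Classical in
/-- **Almost all numbers are rich.** -/
theorem dens (hL : S_LOW1) (hT : S_TUR) (hCo : S_COL) (hG : S_GOOD2) : ∃ c : ℝ, 0 < c ∧
    Tendsto (fun N : ℕ => (((range N).filter (fun n => ¬ Rich c n)).card : ℝ) / N) atTop (𝓝 0) := by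
  obtain ⟨c0, hc0, N0, hN0⟩ := hL 2 Nat.prime_two
  obtain ⟨C, hC, hCol⟩ := hCo
  refine ⟨c0 / 2, by positivity, ?_⟩
  have t1 : Tendsto (fun N : ℕ => 2 / Real.sqrt N) atTop (𝓝 0) := by
    have h1 : Tendsto (fun N : ℕ => Real.sqrt N) atTop atTop :=
      Real.tendsto_sqrt_atTop.comp tendsto_natCast_atTop_atTop
    exact h1.const_div_atTop 2
  have t2 : Tendsto (fun N : ℕ => 12 / c0 *
      (Real.log (Real.log (Real.log N)) / Real.log (Real.log N))) atTop (𝓝 0) := by
    have h1 : Tendsto (fun x : ℝ => Real.log x / x) atTop (𝓝 0) := by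
      have := Real.isLittleO_log_id_atTop.tendsto_div_nhds_zero
      simpa using this
    have h2 := (h1.comp tendsto_loglog).const_mul (12 / c0)
    simpa using h2
  have t3 : Tendsto (fun N : ℕ => C * Real.log (Real.log N) ^ (-(1 / 5) : ℝ)) atTop (𝓝 0) := by
    have h1 := ((tendsto_rpow_neg_atTop (show (0 : ℝ) < 1 / 5 by norm_num)).comp
      tendsto_loglog).const_mul C
    simpa using h1
  have t := (t1.add t2).add t3
  simp only [add_zero] at t
  refine squeeze_zero' (Eventually.of_forall fun N => by positivity) ?_ t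
  filter_upwards [eventually_ge_atTop N0, eventually_ge_atTop 16,
    tendsto_loglog.eventually_ge_atTop (Real.exp 2)] with N h1 h2 h3
  exact count hT hG C c0 hC hc0 hCol N h2 h3 (hN0 N h1)

end Pool.Agent.H633.CY
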