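import Pool.Agent.H633.CY.P_LOW1

set_option autoImplicit false

/-!
# Lower bound for the sum of `1 / p` over the large good primes

Adapted from the part LOW by helper707.
-/

namespace Pool.Agent.H633.CY

open Finset Filter
open LOW1

/-- The primes of `PP 2 N` larger than `log log N * exp ((log N) ^ θ)`. -/
noncomputable def PT (θ : ℝ) (N : ℕ) : Finset ℕ :=
  (PP 2 N).filter (fun p : ℕ =>
    Real.log (Real.log N) * Real.exp (Real.log N ^ θ) < (p : ℝ))

/-- LOW with large primes. -/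
def S_LOW3 : Prop := ∀ θ : ℝ, 1 / 2 ≤ θ → θ < 1 → ∃ c : ℝ, 0 < c ∧ ∃ N0 : ℕ, ∀ N : ℕ, N0 ≤ N →
  c * (Real.log (Real.log N) / Real.log (Real.log (Real.log N))) ≤ ∑ p ∈ PT θ N, (1 : ℝ) / p

lemma log_bound3 {u θ : ℝ} (hu : 12 ≤ u) (hθ : 1 / 2 ≤ θ) (hθu : 6 ≤ (1 - θ) * u) {J1 J2 : ℕ}
    (h1 : J1 = ⌈2 * Real.exp (θ * u)⌉₊) (h2 : J2 = ⌊Real.exp u / 2⌋₊) :
    1 ≤ J1 ∧ J1 ≤ J2 ∧ (1 - θ) * u / 2 ≤ Real.log J2 - Real.log J1 := by
  have he : 0 < Real.exp (θ * u) := Real.exp_pos _
  have he1 : 1 ≤ Real.exp (θ * u) := Real.one_le_exp (by nlinarith)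
  have hee : Real.exp u = Real.exp (θ * u) * Real.exp ((1 - θ) * u) := by
    rw [← Real.exp_add]
    congr 1
    ring
  have hJ1 : (J1 : ℝ) ≤ 3 * Real.exp (θ * u) := by
    have := Nat.ceil_lt_add_one (show 0 ≤ 2 * Real.exp (θ * u) by positivity)
    rw [← h1] at this
    linarith
  have hJ1' : 1 ≤ J1 := by
    rw [h1]
    exact Nat.one_le_ceil_iff.2 (by positivity)
  have h4 : (4 : ℝ) ≤ Real.exp u := by
    have h5 : Real.exp 2 ≤ Real.exp u := Real.exp_le_exp.2 (by linarith)
    have h6 : Real.exp 2 = Real.exp 1 ^ 2 := by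
      rw [← Real.exp_nat_mul]
      norm_num
    have h7 := Real.exp_one_gt_d9
    have h8 : (2 : ℝ) ^ 2 ≤ Real.exp 1 ^ 2 := pow_le_pow_left₀ (by norm_num) (by linarith) 2
    linarith
  have hJ2 : Real.exp u / 4 ≤ J2 := by
    have := Nat.lt_floor_add_one (Real.exp u / 2)
    rw [← h2] at this
    linarith
  have hJ1pos : (0 : ℝ) < J1 := by exact_mod_cast hJ1'
  have h3 : (12 : ℝ) ≤ Real.exp ((1 - θ) * u / 2) := by
    have h5 : Real.exp 3 ≤ Real.exp ((1 - θ) * u / 2) := Real.exp_le_exp.2 (by linarith)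
    have h6 : Real.exp 3 = Real.exp 1 ^ 3 := by
      rw [← Real.exp_nat_mul]
      norm_num
    have h7 := Real.exp_one_gt_d9
    have h8 : (2.7 : ℝ) ^ 3 ≤ Real.exp 1 ^ 3 := pow_le_pow_left₀ (by norm_num) (by linarith) 3
    norm_num at h8
    linarith
  have h9 : (J1 : ℝ) * Real.exp ((1 - θ) * u / 2) ≤ J2 := by
    have h10 : Real.exp ((1 - θ) * u) = Real.exp ((1 - θ) * u / 2) * Real.exp ((1 - θ) * u / 2) := by
      rw [← Real.exp_add]
      congr 1
      ring
    have h11 : (J1 : ℝ) * Real.exp ((1 - θ) * u / 2) ≤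
        3 * Real.exp (θ * u) * Real.exp ((1 - θ) * u / 2) :=
      mul_le_mul_of_nonneg_right hJ1 (Real.exp_pos _).le
    refine h11.trans (le_trans ?_ hJ2)
    rw [hee, h10]
    have h12 : 0 < Real.exp (θ * u) * Real.exp ((1 - θ) * u / 2) := by positivity
    nlinarith
  refine ⟨hJ1', ?_, ?_⟩
  · have : (J1 : ℝ) ≤ J2 := by nlinarith
    exact_mod_cast this
  · have h11 : Real.log (J1 * Real.exp ((1 - θ) * u / 2)) ≤ Real.log J2 :=
      Real.log_le_log (by positivity) h9
    rw [Real.log_mul hJ1pos.ne' (Real.exp_pos _).ne', Real.log_exp] at h11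
    linarith

theorem t_low3 (h : S_DYA1) : S_LOW3 := by
  intro θ hθ hθ1
  obtain ⟨c, v0, hc, hD⟩ := h 2 Nat.prime_two
  refine ⟨c * (1 - θ) / 4, by nlinarith, ?_⟩
  have hD' : ∀ (v : ℝ) (U : ℕ), v0 ≤ v → v ≤ 3 * Real.log (Real.log U) →
      c * (U / (Real.log U * Real.log v ^ 1)) ≤ ((GG 2 v U).card : ℝ) := hD
  have hlogN : Tendsto (fun N : ℕ => Real.log N) atTop atTop :=
    Real.tendsto_log_atTop.comp tendsto_natCast_atTop_atTop
  have hlog2N : Tendsto (fun N : ℕ => Real.log (Real.log N)) atTop atTop :=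
    Real.tendsto_log_atTop.comp hlogN
  have hev : ∀ᶠ N : ℕ in atTop,
      c * (1 - θ) / 4 * (Real.log (Real.log N) / Real.log (Real.log (Real.log N))) ≤
        ∑ p ∈ PT θ N, (1 : ℝ) / p := by
    filter_upwards [hlog2N.eventually (eventually_ge_atTop v0),
      hlog2N.eventually (eventually_ge_atTop 12),
      hlog2N.eventually (eventually_ge_atTop (6 / (1 - θ))),
      hlogN.eventually (eventually_gt_atTop 1),
      eventually_ge_atTop 1] with N h2 h3 h3' h4 h5
    have h1θ : 0 < 1 - θ := by linarith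
    set u : ℝ := Real.log (Real.log N) with hu
    have h3'' : 6 ≤ (1 - θ) * u := by
      rw [div_le_iff₀ h1θ] at h3'
      linarith
    have hN0 : (0 : ℝ) < N := by exact_mod_cast h5
    have heu : Real.exp u = Real.log N := Real.exp_log (by linarith)
    have hlu : 0 < Real.log u := Real.log_pos (by linarith)
    have hlogθ : Real.log N ^ θ = Real.exp (θ * u) := by
      rw [← heu, ← Real.exp_mul, mul_comm]
    obtain ⟨hJ1, hJ12, hlog⟩ := log_bound3 h3 hθ h3'' (J1 := ⌈2 * Real.exp (θ * u)⌉₊)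
      (J2 := ⌊Real.exp u / 2⌋₊) rfl rfl
    set J1 : ℕ := ⌈2 * Real.exp (θ * u)⌉₊ with hJ1d
    set J2 : ℕ := ⌊Real.exp u / 2⌋₊ with hJ2d
    have heθ : Real.exp (u / 2) ≤ Real.exp (θ * u) := Real.exp_le_exp.2 (by nlinarith)
    have hequad : u ^ 2 / 8 ≤ Real.exp (u / 2) := by
      have := Real.quadratic_le_exp_of_nonneg (show 0 ≤ u / 2 by linarith)
      nlinarith
    -- the inclusion
    have hsub : ∀ j ∈ Ico J1 J2, GG 2 u (2 ^ j) ⊆ PT θ N := by
      intro j hj p hp
      rw [mem_Ico] at hj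
      obtain ⟨⟨p1, p2⟩, p3⟩ := mem_GG.1 hp
      unfold PT
      rw [mem_filter]
      refine ⟨mem_PP.2 ⟨⟨by omega, ?_⟩, p3⟩, ?_⟩
      · refine p2.trans (Nat.le_floor ?_)
        have h6 : ((j + 1 : ℕ) : ℝ) ≤ Real.exp u / 2 :=
          (Nat.cast_le.2 (by omega : j + 1 ≤ J2)).trans (Nat.floor_le (by positivity))
        have h7 : Real.log ((2 * 2 ^ j : ℕ) : ℝ) ≤ Real.log (Real.sqrt N) := by
          rw [Real.log_sqrt hN0.le, ← heu]
          have h8 : ((2 * 2 ^ j : ℕ) : ℝ) = 2 ^ (j + 1) := by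
            push_cast
            ring
          rw [h8, Real.log_pow]
          have h9 : Real.log 2 ≤ 1 := by
            have := Real.log_two_lt_d9
            linarith
          have h10 : (0 : ℝ) ≤ ((j + 1 : ℕ) : ℝ) := Nat.cast_nonneg _
          nlinarith
        exact (Real.log_le_log_iff (by positivity) (Real.sqrt_pos.2 hN0)).1 h7
      · rw [← hu, hlogθ]
        have h6 : ((2 ^ j : ℕ) : ℝ) < p := by exact_mod_cast p1
        refine lt_of_le_of_lt ?_ h6
        have h7 : ((2 ^ j : ℕ) : ℝ) = Real.exp (j * Real.log 2) := by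
          push_cast
          rw [← Real.log_pow, Real.exp_log (by positivity)]
        have h8 : u * Real.exp (Real.exp (θ * u)) =
            Real.exp (Real.log u + Real.exp (θ * u)) := by
          rw [Real.exp_add, Real.exp_log (by linarith)]
        rw [h7, h8, Real.exp_le_exp]
        have h9 : 2 * Real.exp (θ * u) ≤ j := (Nat.le_ceil _).trans (Nat.cast_le.2 hj.1)
        have h10 := Real.log_two_gt_d9
        have h11 : Real.log u ≤ u / 2 := by
          have k1 : Real.log (u / 4) ≤ u / 4 - 1 := Real.log_le_sub_one_of_pos (by linarith)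
          have k2 : Real.log 4 = 2 * Real.log 2 := by
            rw [show (4 : ℝ) = 2 ^ 2 by norm_num, Real.log_pow]
            norm_num
          have k3 := Real.log_two_lt_d9
          rw [Real.log_div (by linarith) (by norm_num), k2] at k1
          linarith
        have h12 : 2 * Real.exp (θ * u) * Real.log 2 ≤ j * Real.log 2 :=
          mul_le_mul_of_nonneg_right h9 (by linarith)
        have h13 : 3 / 2 * u ≤ Real.exp (θ * u) := by
          refine le_trans ?_ (hequad.trans heθ)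
          nlinarith
        have h14 : (27 / 20 : ℝ) * Real.exp (θ * u) ≤ 2 * Real.exp (θ * u) * Real.log 2 := by
          have := Real.exp_pos (θ * u)
          nlinarith
        linarith
    have hdisj : ∀ i ∈ Ico J1 J2, ∀ j ∈ Ico J1 J2, i ≠ j →
        Disjoint (GG 2 u (2 ^ i)) (GG 2 u (2 ^ j)) := by
      have key : ∀ i j : ℕ, i < j → Disjoint (GG 2 u (2 ^ i)) (GG 2 u (2 ^ j)) := by
        intro i j hij
        rw [Finset.disjoint_left]
        intro p hp hp'
        obtain ⟨⟨-, p2⟩, -⟩ := mem_GG.1 hp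
        obtain ⟨⟨p1, -⟩, -⟩ := mem_GG.1 hp'
        have h6 : 2 ^ (i + 1) ≤ 2 ^ j := Nat.pow_le_pow_right (by norm_num) hij
        rw [pow_succ] at h6
        omega
      intro i _ j _ hij
      rcases lt_or_gt_of_ne hij with h' | h'
      · exact key i j h'
      · exact (key j i h').symm
    have hsum : ∑ j ∈ Ico J1 J2, ∑ p ∈ GG 2 u (2 ^ j), (1 : ℝ) / p ≤
        ∑ p ∈ PT θ N, (1 : ℝ) / p := by
      classical
      rw [← sum_biUnion hdisj]
      exact sum_le_sum_of_subset_of_nonneg (biUnion_subset.2 hsub) fun p _ _ => by positivity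
    -- the terms
    have hterm : ∀ j ∈ Ico J1 J2, c / (2 * Real.log u ^ 1) * (1 / j) ≤
        ∑ p ∈ GG 2 u (2 ^ j), (1 : ℝ) / p := by
      intro j hj
      rw [mem_Ico] at hj
      have hj0 : (0 : ℝ) < j := by exact_mod_cast (by omega : 0 < j)
      have hlt : 0 < Real.log 2 := Real.log_pos (by norm_num)
      have hl2 : Real.log ((2 ^ j : ℕ) : ℝ) = j * Real.log 2 := by
        push_cast
        rw [Real.log_pow]
      have h6 : u ≤ 3 * Real.log (Real.log ((2 ^ j : ℕ) : ℝ)) := by
        rw [hl2]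
        have h7 : Real.exp (u / 3) ≤ j * Real.log 2 := by
          have h8 : 2 * Real.exp (θ * u) ≤ j := (Nat.le_ceil _).trans (Nat.cast_le.2 hj.1)
          have h12 : 1 / 2 < Real.log 2 := by
            have := Real.log_two_gt_d9
            linarith
          have h13 : Real.exp (u / 3) ≤ Real.exp (θ * u) := Real.exp_le_exp.2 (by nlinarith)
          have h14 := Real.exp_pos (u / 3)
          nlinarith
        have h15 := (Real.le_log_iff_exp_le (by positivity)).2 h7
        linarith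
      have h7 := hD' u (2 ^ j) h2 h6
      rw [hl2] at h7
      refine le_trans ?_ (sum_GG 2 u (2 ^ j) (Nat.one_le_two_pow))
      rw [le_div_iff₀ (by positivity)]
      refine le_trans ?_ h7
      have h8 : ((2 ^ j : ℕ) : ℝ) = 2 ^ j := by push_cast; rfl
      rw [h8]
      have h9 : Real.log 2 ≤ 1 := by
        have := Real.log_two_lt_d9
        linarith
      have e1 : c / (2 * Real.log u ^ 1) * (1 / j) * (2 * 2 ^ j) =
          c * (2 ^ j / (j * 1 * Real.log u ^ 1)) := by
        field_simp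
      rw [e1]
      refine mul_le_mul_of_nonneg_left ?_ hc.le
      refine div_le_div_of_nonneg_left (by positivity) (by positivity) ?_
      gcongr
    have hfin : c / (2 * Real.log u ^ 1) * ((1 - θ) * u / 2) ≤ ∑ p ∈ PT θ N, (1 : ℝ) / p := by
      refine le_trans ?_ hsum
      refine le_trans ?_ (sum_le_sum hterm)
      rw [← mul_sum]
      refine mul_le_mul_of_nonneg_left ?_ (by positivity)
      exact hlog.trans (log_sub_le J1 hJ1 J2 hJ12)
    refine le_trans ?_ hfin
    have e2 : c / (2 * Real.log u ^ 1) * ((1 - θ) * u / 2) = c * (1 - θ) / 4 * (u / Real.log u) := by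
      field_simp
      ring
    rw [e2]
  obtain ⟨N0, hN0⟩ := eventually_atTop.1 hev
  exact ⟨N0, hN0⟩

end Pool.Agent.H633.CY
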