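import Pool.Agent.H633.CY.Dens
import Pool.Agent.H633.CY.Low3

set_option autoImplicit false

/-! # Almost all numbers have many good prime factors -/

namespace Pool.Agent.H633.CY

open Finset Filter Topology

/-- The good prime factors of `n` larger than `log log n * exp ((log n) ^ θ)`: the prime factors `p`
with `p ^ 2 ∤ n` and `(p - 1) / 2` prime to `φ (n / p)`. -/
noncomputable def bigGood (θ : ℝ) (n : ℕ) : Finset ℕ :=
  n.primeFactors.filter (fun p : ℕ => ¬ p ^ 2 ∣ n ∧ ((p - 1) / 2).Coprime (n / p).totient ∧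
    Real.log (Real.log n) * Real.exp (Real.log n ^ θ) < p)

/-- The exceptional lengths: fewer than `c log log n / log log log n` big good prime factors. -/
def Exc (θ c : ℝ) : Set ℕ :=
  {n | ((bigGood θ n).card : ℝ) < c * (Real.log (Real.log n) / Real.log (Real.log (Real.log n)))}

lemma mem_bigGood {θ : ℝ} {n p : ℕ} (hn : 0 < n) : p ∈ bigGood θ n ↔
    Good n p ∧ Real.log (Real.log n) * Real.exp (Real.log n ^ θ) < p := by
  unfold bigGood Good
  rw [mem_filter, Nat.mem_primeFactors]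
  constructor
  · rintro ⟨⟨h1, h2, -⟩, h3, h4, h5⟩
    exact ⟨⟨h1, h2, h3, h4⟩, h5⟩
  · rintro ⟨⟨h1, h2, h3, h4⟩, h5⟩
    exact ⟨⟨h1, h2, hn.ne'⟩, h3, h4, h5⟩

open Classical in
/-- the counting inequality for one large `N` -/
lemma count3 (hT : S_TUR) (hG : S_GOOD2) (θ : ℝ) (hθ : 0 ≤ θ) (C c0 : ℝ) (hC : 0 < C) (hc0 : 0 < c0)
    (hCol : ∀ N : ℕ, 16 ≤ N → ∀ y : ℝ, 1 ≤ y →
      ((((Icc 1 N).filter (fun n => Coll y n)).card : ℕ) : ℝ) ≤
        C * (N * Real.log (Real.log N) ^ 2 / y))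
    (N : ℕ) (hN : 16 ≤ N) (hu : Real.exp 2 ≤ Real.log (Real.log N))
    (hlow : c0 * (Real.log (Real.log N) / Real.log (Real.log (Real.log N))) ≤
      ∑ p ∈ PT θ N, (1 : ℝ) / p) :
    (((range N).filter (fun n => n ∈ Exc θ (c0 / 2))).card : ℝ) / N ≤
      2 / Real.sqrt N + 12 / c0 * (Real.log (Real.log (Real.log N)) / Real.log (Real.log N)) +
        C * Real.log (Real.log N) ^ (-(1 / 5) : ℝ) := by
  obtain ⟨u, hudef⟩ : ∃ u, u = Real.log (Real.log N) := ⟨_, rfl⟩
  rw [← hudef] at hu hlow ⊢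
  have hN0 : (0 : ℝ) < N := by exact_mod_cast (by omega : 0 < N)
  have he2 : (2 : ℝ) ^ 2 < Real.exp 2 := by
    have h1 : Real.exp 2 = Real.exp 1 ^ 2 := by
      rw [← Real.exp_nat_mul]; norm_num
    rw [h1]
    have := Real.exp_one_gt_d9
    exact pow_lt_pow_left₀ (by linarith) (by norm_num) (by norm_num)
  have hu4 : 4 < u := by linarith
  have hu0 : 0 < u := by linarith
  have hlu : 2 ≤ Real.log u := by
    rw [Real.le_log_iff_exp_le hu0]
    exact hu
  obtain ⟨y, hy⟩ : ∃ y : ℝ, y = u ^ (11 / 5 : ℝ) := ⟨_, rfl⟩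
  have hyu : u ^ 2 ≤ y := by
    rw [hy, ← Real.rpow_natCast]
    exact Real.rpow_le_rpow_of_exponent_le (by linarith) (by norm_num)
  have hy2 : 2 ≤ y := by nlinarith
  obtain ⟨E, hE⟩ : ∃ E : ℝ, E = ∑ p ∈ PT θ N, (1 : ℝ) / p := ⟨_, rfl⟩
  rw [← hE] at hlow
  have hE0 : 0 < E := lt_of_lt_of_le (by positivity) hlow
  have hPP : ∀ p ∈ PT θ N, p.Prime ∧ 1 ≤ p ∧ p ≤ ⌊Real.sqrt N⌋₊ ∧ 8 ∣ p + 1 ∧
      (∀ r : ℕ, r.Prime → 3 ≤ r → (r : ℝ) ≤ y → ¬ r ∣ p - 1) ∧
      u * Real.exp (Real.log N ^ θ) < (p : ℝ) := by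
    intro p hp
    unfold PT PP at hp
    rw [mem_filter, mem_filter, mem_Icc, ← hudef, ← hy] at hp
    exact ⟨hp.1.2.1, hp.1.1.1, hp.1.1.2, hp.1.2.2.1, hp.1.2.2.2, hp.2⟩
  have hsqrtN : Real.sqrt N ≤ N := by
    rw [Real.sqrt_le_iff]
    have : (1 : ℝ) ≤ N := by exact_mod_cast (by omega : 1 ≤ N)
    exact ⟨hN0.le, by nlinarith⟩
  have hcard : (PT θ N).card ≤ N := by
    have h1 : PT θ N ⊆ Icc 1 ⌊Real.sqrt N⌋₊ := by
      intro p hp
      obtain ⟨-, h2, h3, -⟩ := hPP p hp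
      exact mem_Icc.2 ⟨h2, h3⟩
    refine (card_le_card h1).trans ?_
    rw [Nat.card_Icc]
    have h2 : ⌊Real.sqrt N⌋₊ ≤ N := by
      have := Nat.floor_mono hsqrtN
      rwa [Nat.floor_natCast] at this
    omega
  have hTu := hT N (PT θ N) (fun p hp => (hPP p hp).1) hcard
  rw [← hE] at hTu
  have hCo := hCol N hN y (by linarith)
  rw [← hudef] at hCo
  -- the inclusion
  have hsub : (range N).filter (fun n => n ∈ Exc θ (c0 / 2)) ⊆
      range (⌊Real.sqrt N⌋₊ + 1) ∪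
        ((Icc 1 N).filter (fun n => ((((PT θ N).filter (fun p => p ∣ n)).card : ℕ) : ℝ) < E / 2) ∪
          (Icc 1 N).filter (fun n => Coll y n)) := by
    intro n hn
    rw [mem_filter, mem_range] at hn
    obtain ⟨hnN, hnr⟩ := hn
    rw [mem_union, mem_union, mem_range, mem_filter, mem_filter, mem_Icc]
    by_contra hcon
    push Not at hcon
    obtain ⟨h1, h2, h3⟩ := hcon
    have hnpos : 1 ≤ n := by omega
    have h2' := h2 ⟨hnpos, hnN.le⟩
    have h3' := h3 ⟨hnpos, hnN.le⟩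
    have hnr' := hnr
    unfold Exc at hnr'
    rw [Set.mem_ofPred_eq] at hnr'
    apply absurd hnr'
    rw [not_lt]
    have hns : Real.sqrt N ≤ n := by
      have h4 := Nat.lt_floor_add_one (Real.sqrt N)
      have h5 : ((⌊Real.sqrt N⌋₊ : ℕ) : ℝ) + 1 ≤ n := by exact_mod_cast h1
      linarith
    have hn0 : (0 : ℝ) < n := by exact_mod_cast hnpos
    have hnN' : (n : ℝ) ≤ N := by exact_mod_cast hnN.le
    have hlN : Real.log N = Real.exp u := by
      rw [hudef, Real.exp_log]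
      exact Real.log_pos (by exact_mod_cast (by omega : 1 < N))
    have hln1 : Real.log N / 2 ≤ Real.log n := by
      rw [← Real.log_sqrt hN0.le]
      exact Real.log_le_log (Real.sqrt_pos.2 hN0) hns
    have hln2 : Real.log n ≤ Real.log N := Real.log_le_log hn0 hnN'
    have hln0 : 0 < Real.log n := by
      refine lt_of_lt_of_le ?_ hln1
      rw [hlN]
      positivity
    have hv1 : Real.log (Real.log n) ≤ u := by
      rw [hudef]
      exact Real.log_le_log hln0 hln2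
    have hv2 : u - 1 ≤ Real.log (Real.log n) := by
      have h6 := Real.log_le_log (by rw [hlN]; positivity) hln1
      rw [Real.log_div (by rw [hlN]; exact (Real.exp_pos _).ne') (by norm_num), ← hudef] at h6
      have := Real.log_two_lt_d9
      linarith
    obtain ⟨v, hv⟩ : ∃ v, v = Real.log (Real.log n) := ⟨_, rfl⟩
    have hsubset : (PT θ N).filter (fun p => p ∣ n) ⊆ bigGood θ n := by
      intro p hp
      rw [mem_filter] at hp
      obtain ⟨hp1, hpn⟩ := hp
      obtain ⟨hpp, -, -, hp8, hpf, hpbig⟩ := hPP p hp1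
      obtain ⟨hg1, hg2⟩ := hG n p y hy2 hnpos hpp hpn
        ((by norm_num : (4 : ℕ) ∣ 8).trans hp8) (by
          have := Nat.le_of_dvd (Nat.succ_pos p) hp8
          omega) hpf h3'
      rw [mem_bigGood hnpos]
      refine ⟨hg1, lt_of_le_of_lt ?_ hpbig⟩
      refine mul_le_mul hv1 ?_ (Real.exp_pos _).le hu0.le
      rw [Real.exp_le_exp]
      exact Real.rpow_le_rpow hln0.le hln2 hθ
    have hcc : ((((PT θ N).filter (fun p => p ∣ n)).card : ℕ) : ℝ) ≤ ((bigGood θ n).card : ℝ) := by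
      exact_mod_cast card_le_card hsubset
    have h7 : v / Real.log v ≤ u / Real.log u := by
      apply div_log_mono
      · have := Real.exp_one_lt_d9
        rw [← hv] at hv2
        linarith
      · rw [hv]; exact hv1
    rw [← hv]
    have h8 : c0 / 2 * (v / Real.log v) ≤ c0 / 2 * (u / Real.log u) :=
      mul_le_mul_of_nonneg_left h7 (by positivity)
    linarith
  -- the count
  have hcnt : (((range N).filter (fun n => n ∈ Exc θ (c0 / 2))).card : ℝ) ≤
      (Real.sqrt N + 1) + (12 * N / E + C * (N * u ^ 2 / y)) := by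
    have h1 := (card_le_card hsub).trans ((card_union_le _ _).trans
      (Nat.add_le_add_left (card_union_le _ _) _))
    have h2 : (((range N).filter (fun n => n ∈ Exc θ (c0 / 2))).card : ℝ) ≤
        ((range (⌊Real.sqrt N⌋₊ + 1)).card : ℝ) +
        ((((Icc 1 N).filter (fun n => ((((PT θ N).filter (fun p => p ∣ n)).card : ℕ) : ℝ) < E / 2)).card : ℝ) +
          (((Icc 1 N).filter (fun n => Coll y n)).card : ℝ)) := by exact_mod_cast h1
    have h3 : ((range (⌊Real.sqrt N⌋₊ + 1)).card : ℝ) ≤ Real.sqrt N + 1 := by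
      rw [card_range]
      push_cast
      have := Nat.floor_le (Real.sqrt_nonneg N)
      linarith
    have h4 : (((Icc 1 N).filter (fun n => ((((PT θ N).filter (fun p => p ∣ n)).card : ℕ) : ℝ) < E / 2)).card : ℝ) ≤
        12 * N / E := by
      rw [le_div_iff₀ hE0]
      exact hTu
    linarith
  have h5 : (((range N).filter (fun n => n ∈ Exc θ (c0 / 2))).card : ℝ) / N ≤
      ((Real.sqrt N + 1) + (12 * N / E + C * (N * u ^ 2 / y))) / N :=
    div_le_div_of_nonneg_right hcnt hN0.le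
  refine h5.trans ?_
  have h6 : ((Real.sqrt N + 1) + (12 * N / E + C * (N * u ^ 2 / y))) / N =
      (Real.sqrt N + 1) / N + (12 / E + C * (u ^ 2 / y)) := by
    field_simp
  rw [h6]
  have h7 : (Real.sqrt N + 1) / N ≤ 2 / Real.sqrt N := by
    have hs1 : 1 ≤ Real.sqrt N := by
      rw [Real.one_le_sqrt]
      exact_mod_cast (by omega : 1 ≤ N)
    have hs2 : Real.sqrt N * Real.sqrt N = N := Real.mul_self_sqrt hN0.le
    rw [div_le_div_iff₀ hN0 (by linarith)]
    nlinarith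
  have h8 : 12 / E ≤ 12 / c0 * (Real.log u / u) := by
    have h9 : 12 / E ≤ 12 / (c0 * (u / Real.log u)) :=
      div_le_div_of_nonneg_left (by norm_num) (by positivity) hlow
    refine h9.trans (le_of_eq ?_)
    field_simp
  have h10 : u ^ 2 / y = u ^ (-(1 / 5) : ℝ) := by
    rw [hy, ← Real.rpow_natCast, ← Real.rpow_sub hu0]
    norm_num
  rw [h10]
  linarith

open Classical in
/-- **Few exceptional lengths.** -/
theorem dens3 (hL : S_LOW3) (hT : S_TUR) (hCo : S_COL) (hG : S_GOOD2) (θ : ℝ) (hθ : 1 / 2 ≤ θ)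
    (hθ1 : θ < 1) : ∃ c C : ℝ, 0 < c ∧ ∃ N0 : ℕ, ∀ N : ℕ, N0 ≤ N →
      (((range N).filter (fun n => n ∈ Exc θ c)).card : ℝ) ≤
        C * (N / Real.log (Real.log N) ^ (1 / 5 : ℝ)) := by
  obtain ⟨c0, hc0, N0, hN0⟩ := hL θ hθ hθ1
  obtain ⟨C, hC, hCol⟩ := hCo
  refine ⟨c0 / 2, 2 + 15 / c0 + C, by positivity, ?_⟩
  obtain ⟨N1, hN1⟩ := (tendsto_loglog.eventually_ge_atTop (Real.exp 2)).exists_forall_of_atTop
  refine ⟨max (max N0 N1) 16, ?_⟩
  intro N hN
  have h1 : N0 ≤ N := (le_max_left _ _).trans ((le_max_left _ _).trans hN)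
  have h2 : N1 ≤ N := (le_max_right _ _).trans ((le_max_left _ _).trans hN)
  have h3 : 16 ≤ N := (le_max_right _ _).trans hN
  have h4 := hN1 N h2
  have h5 := count3 hT hG θ (by linarith) C c0 hC hc0 hCol N h3 h4 (hN0 N h1)
  obtain ⟨u, hu⟩ : ∃ u, u = Real.log (Real.log N) := ⟨_, rfl⟩
  rw [← hu] at h4 h5 ⊢
  have hNpos : (0 : ℝ) < N := by exact_mod_cast (by omega : 0 < N)
  have hu1 : 1 < u := by
    have := Real.add_one_le_exp (2 : ℝ)
    linarith
  have hu0 : 0 < u := by linarith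
  rw [div_le_iff₀ hNpos] at h5
  refine h5.trans ?_
  have e1 : u ^ (-(1 / 5) : ℝ) = 1 / u ^ (1 / 5 : ℝ) := by
    rw [Real.rpow_neg hu0.le]
    exact (one_div _).symm
  have e2 : 2 / Real.sqrt N ≤ 2 * (1 / u ^ (1 / 5 : ℝ)) := by
    have k1 : u ^ (1 / 5 : ℝ) ≤ Real.sqrt N := by
      have k2 : u ^ (1 / 5 : ℝ) ≤ u ^ (1 / 2 : ℝ) :=
        Real.rpow_le_rpow_of_exponent_le hu1.le (by norm_num)
      refine k2.trans ?_
      rw [← Real.sqrt_eq_rpow]
      apply Real.sqrt_le_sqrt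
      have hlN : 0 < Real.log N := Real.log_pos (by exact_mod_cast (by omega : 1 < N))
      have k3 : u ≤ Real.log N - 1 := by rw [hu]; exact Real.log_le_sub_one_of_pos hlN
      have k4 : Real.log N ≤ N - 1 := Real.log_le_sub_one_of_pos hNpos
      linarith
    rw [mul_one_div]
    exact div_le_div_of_nonneg_left (by norm_num) (by positivity) k1
  have e3 : Real.log u / u ≤ 5 / 4 * (1 / u ^ (1 / 5 : ℝ)) := by
    have k1 := Real.log_le_rpow_div hu0.le (show (0 : ℝ) < 4 / 5 by norm_num)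
    rw [div_le_iff₀ hu0]
    have k2 : 5 / 4 * (1 / u ^ (1 / 5 : ℝ)) * u = u ^ (4 / 5 : ℝ) / (4 / 5) := by
      have k3 : u = u ^ (1 / 5 : ℝ) * u ^ (4 / 5 : ℝ) := by
        rw [← Real.rpow_add hu0]
        norm_num
      have k4 : 0 < u ^ (1 / 5 : ℝ) := by positivity
      calc 5 / 4 * (1 / u ^ (1 / 5 : ℝ)) * u
          = 5 / 4 * (1 / u ^ (1 / 5 : ℝ)) * (u ^ (1 / 5 : ℝ) * u ^ (4 / 5 : ℝ)) := by rw [← k3]
        _ = u ^ (4 / 5 : ℝ) / (4 / 5) := by
            field_simp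
    rw [k2]
    exact k1
  have e4 : 12 / c0 * (Real.log u / u) ≤ 12 / c0 * (5 / 4 * (1 / u ^ (1 / 5 : ℝ))) :=
    mul_le_mul_of_nonneg_left e3 (by positivity)
  rw [e1]
  calc (2 / Real.sqrt N + 12 / c0 * (Real.log u / u) + C * (1 / u ^ (1 / 5 : ℝ))) * N
      ≤ (2 * (1 / u ^ (1 / 5 : ℝ)) + 12 / c0 * (5 / 4 * (1 / u ^ (1 / 5 : ℝ))) +
        C * (1 / u ^ (1 / 5 : ℝ))) * N := by
          apply mul_le_mul_of_nonneg_right _ hNpos.le
          linarith
    _ = (2 + 15 / c0 + C) * (N / u ^ (1 / 5 : ℝ)) := by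
        ring

end Pool.Agent.H633.CY
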