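import Pool.Agent.H633.CY.Stm2

set_option autoImplicit false

/-! # Passing to the quadratic extension -/

namespace Pool.Agent.H633.CY

open Finset

section ext
variable {F K G : Type} [Field F] [Field K] [Algebra F K] [AddCommGroup G]

/-- extension of scalars of a code -/
def extC (F K : Type) {G : Type} [Field F] [Field K] [Algebra F K] (C : Submodule F (G → F)) :
    Submodule K (G → K) :=
  Submodule.span K ((fun c : G → F => fun x => algebraMap F K (c x)) '' (C : Set (G → F)))

lemma extC_trans (C : Submodule F (G → F)) (hC : TransInv C) : TransInv (extC F K C) := by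
  intro g
  have h : extC F K C ≤ (extC F K C).comap (LinearMap.funLeft K K (fun x : G => x + g)) := by
    unfold extC
    rw [Submodule.span_le]
    rintro _ ⟨c, hc, rfl⟩
    rw [SetLike.mem_coe, Submodule.mem_comap]
    refine Submodule.subset_span ⟨fun x => c (x + g), hC g c hc, ?_⟩
    rfl
  intro c hc
  exact h hc

omit [AddCommGroup G] in
lemma extC_proj (C : Submodule F (G → F)) (c : G → K) (hc : c ∈ extC F K C) :
    ∀ φ : K →ₗ[F] F, (fun x => φ (c x)) ∈ C := by
  unfold extC at hc
  induction hc using Submodule.span_induction with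
  | mem c hc =>
    intro φ
    obtain ⟨c0, hc0, rfl⟩ := hc
    have h1 : (fun x => φ (algebraMap F K (c0 x))) = φ 1 • c0 := by
      funext x
      rw [Algebra.algebraMap_eq_smul_one, map_smul, Pi.smul_apply, smul_eq_mul, smul_eq_mul, mul_comm]
    simp only [h1]
    exact C.smul_mem _ hc0
  | zero =>
    intro φ
    have h1 : (fun x : G => φ ((0 : G → K) x)) = 0 := by
      funext x
      simp
    rw [h1]
    exact C.zero_mem
  | add c d _ _ hc hd =>
    intro φ
    have h1 : (fun x : G => φ ((c + d) x)) = (fun x => φ (c x)) + fun x => φ (d x) := by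
      funext x
      simp
    rw [h1]
    exact C.add_mem (hc φ) (hd φ)
  | smul a c _ hc =>
    intro φ
    exact hc (φ.comp (LinearMap.mulLeft F a))

omit [AddCommGroup G] in
lemma extC_finrank [Fintype G] (C : Submodule F (G → F)) :
    Module.finrank F C ≤ Module.finrank K (extC F K C) := by
  classical
  obtain ⟨b, hb⟩ : ∃ b : Module.Basis (Fin (Module.finrank F C)) F C, b = Module.finBasis F C :=
    ⟨_, rfl⟩
  have hmem : ∀ i, (fun x => algebraMap F K ((b i : G → F) x)) ∈ extC F K C := by
    intro i
    exact Submodule.subset_span ⟨b i, (b i).2, rfl⟩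
  have hlin : LinearIndependent K (fun i : Fin (Module.finrank F C) =>
      (⟨fun x => algebraMap F K ((b i : G → F) x), hmem i⟩ : extC F K C)) := by
    rw [Fintype.linearIndependent_iff]
    intro κ hκ i
    rw [← Module.forall_dual_apply_eq_zero_iff F]
    intro φ
    have h1 : ∑ i, φ (κ i) • b i = 0 := by
      apply Subtype.ext
      funext x
      have h2 := congrArg (fun z : extC F K C => φ ((z : G → K) x)) hκ
      simp only [Submodule.coe_sum, Submodule.coe_smul, Finset.sum_apply, Pi.smul_apply,
        smul_eq_mul, map_sum, Submodule.coe_zero, Pi.zero_apply, map_zero] at h2 ⊢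
      rw [← h2]
      apply sum_congr rfl
      intro j _
      rw [Algebra.algebraMap_eq_smul_one, mul_smul_one, map_smul, smul_eq_mul, mul_comm]
    have h3 := Fintype.linearIndependent_iff.1 b.linearIndependent (fun i => φ (κ i)) h1 i
    exact h3
  have := hlin.fintype_card_le_finrank
  simpa using this

end ext

/-- ALG2. -/
theorem t_alg2 (hA : S_ALG) (hK : S_GOODK) : S_ALG2 := by
  intro F _ _ _ S G _ _ hgood C hC hdim
  classical
  obtain ⟨n0, hl, hn0⟩ := FiniteField.card F (ringChar F)
  have : Fact (ringChar F).Prime := ⟨hl⟩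
  obtain ⟨K, _, _, _, _, hcard⟩ : ∃ (K : Type) (_ : Field K) (_ : Fintype K) (_ : DecidableEq K)
      (_ : Algebra F K), Fintype.card K = Fintype.card F ^ 2 := by
    obtain ⟨inst⟩ := nonempty_fintype (FiniteField.Extension F (ringChar F) 2)
    refine ⟨FiniteField.Extension F (ringChar F) 2, inferInstance, inst,
      Classical.decEq _, inferInstance, ?_⟩
    have h1 := FiniteField.natCard_extension F (ringChar F) 2
    rw [Nat.card_eq_fintype_card, Nat.card_eq_fintype_card] at h1
    exact h1
  have hq2 : 2 ≤ Fintype.card F := Fintype.one_lt_card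
  obtain ⟨c, hc, hc0, hcw⟩ := hA K S G (by
    intro p hp
    rw [hcard]
    exact hK _ _ p hq2 (hgood p hp).2 (hgood p hp).1) (extC F K C) (extC_trans C hC)
    (hdim.trans_le (extC_finrank C))
  rw [hcard] at hcw
  obtain ⟨x0, hx0⟩ : ∃ x0, c x0 ≠ 0 := by
    by_contra h
    push Not at h
    exact hc0 (funext h)
  obtain ⟨φ, hφ⟩ : ∃ φ : K →ₗ[F] F, φ (c x0) ≠ 0 := by
    by_contra h
    push Not at h
    exact hx0 ((Module.forall_dual_apply_eq_zero_iff F (c x0)).1 h)
  refine ⟨fun x => φ (c x), extC_proj C c hc φ, ?_, ?_⟩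
  · intro h
    exact hφ (congrFun h x0)
  · refine le_trans (Nat.mul_le_mul_left _ ?_) hcw
    unfold hammingNorm
    apply card_le_card
    intro x hx
    simp only [mem_filter, mem_univ, true_and] at hx ⊢
    intro h
    exact hx (by rw [h, map_zero])

end Pool.Agent.H633.CY
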