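import Pool.Agent.H633.CY.Codes3

set_option autoImplicit false

/-! # Lengths of good cyclic codes -/

namespace Pool.Agent.H633.CY

open Finset Filter Topology

lemma tendsto_div_log : Tendsto (fun x : ℝ => x / Real.log x) atTop atTop := by
  have h : Tendsto (fun x : ℝ => Real.sqrt x / 2) atTop atTop :=
    Real.tendsto_sqrt_atTop.atTop_div_const (by norm_num)
  refine tendsto_atTop_mono' _ ?_ h
  filter_upwards [eventually_gt_atTop 1] with x hx
  have h1 : 0 < Real.log x := Real.log_pos hx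
  rw [le_div_iff₀ h1]
  have h2 : Real.log x ≤ 2 * Real.sqrt x := by
    have h3 := Real.log_le_sub_one_of_pos (Real.sqrt_pos.2 (by linarith : 0 < x))
    rw [Real.log_sqrt (by linarith)] at h3
    linarith
  have h4 := Real.mul_self_sqrt (by linarith : 0 ≤ x)
  have h5 := Real.sqrt_nonneg x
  nlinarith

lemma exc_of_bounded (θ c : ℝ) (hc : 0 < c) (B : ℕ) :
    ∃ n1 : ℕ, ∀ n : ℕ, n1 ≤ n → (goodPrimes n).card ≤ B → n ∈ Exc θ c := by
  have h : Tendsto (fun n : ℕ => c * (Real.log (Real.log n) / Real.log (Real.log (Real.log n))))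
      atTop atTop := (tendsto_div_log.comp tendsto_loglog).const_mul_atTop hc
  obtain ⟨n1, hn1⟩ := (h.eventually_gt_atTop (B : ℝ)).exists_forall_of_atTop
  refine ⟨n1, ?_⟩
  intro n hn hB
  have h1 := hn1 n hn
  unfold Exc
  rw [Set.mem_ofPred_eq]
  refine lt_of_le_of_lt ?_ h1
  have h2 : bigGood θ n ⊆ goodPrimes n := by
    intro p hp
    unfold bigGood at hp
    unfold goodPrimes
    rw [mem_filter] at hp ⊢
    exact ⟨hp.1, hp.2.1, hp.2.2.1⟩
  exact_mod_cast (card_le_card h2).trans hB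

/-- the cyclic version of `bounded` -/
lemma bounded_fin (hA : S_ALG2) (F : Type) [Field F] [Fintype F] [DecidableEq F] (R δ : ℝ)
    (hR : 0 < R) (hδ : 0 < δ) :
    ∃ B : ℕ, ∀ n : ℕ, 0 < n → ∀ C : Submodule F (Fin n → F),
      (∀ c ∈ C, (fun j => c (finRotate n j)) ∈ C) →
      R * n ≤ Module.finrank F C →
      (∀ w ∈ C, w ≠ 0 → δ * n ≤ hammingNorm w) → (goodPrimes n).card ≤ B := by
  obtain ⟨B, hB⟩ := bounded hA F R δ hR hδ
  refine ⟨B, ?_⟩
  intro n hn C hC hdim hdist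
  rcases n with _ | m
  · omega
  · have h := hB (Fin (m + 1)) C (cyclic_trans C hC) (by rw [Fintype.card_fin]; exact hdim)
      (by rw [Fintype.card_fin]; exact hdist)
    rwa [Fintype.card_fin] at h

/-- good sequences of cyclic codes -/
theorem good_seq (hA : S_ALG2) (F : Type) [Field F] [Fintype F] [DecidableEq F]
    (n : ℕ → ℕ) (C : ∀ i, Submodule F (Fin (n i) → F)) (d : ℕ → ℕ) (R δ : ℝ)
    (hC : ∀ i, ∀ c ∈ C i, (fun j => c (finRotate (n i) j)) ∈ C i)
    (hd : ∀ i, (∃ c ∈ C i, c ≠ 0 ∧ hammingNorm c = d i) ∧ ∀ c ∈ C i, c ≠ 0 → d i ≤ hammingNorm c)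
    (hn : Tendsto n atTop atTop) (hR : 0 < R) (hδ : 0 < δ)
    (hRt : Tendsto (fun i => (Module.finrank F (C i) : ℝ) / (n i : ℝ)) atTop (𝓝 R))
    (hδt : Tendsto (fun i => (d i : ℝ) / (n i : ℝ)) atTop (𝓝 δ)) :
    (∃ B : ℕ, ∀ i, (goodPrimes (n i)).card ≤ B) ∧
      ∀ θ c : ℝ, 0 < c → ∀ᶠ i in atTop, n i ∈ Exc θ c := by
  obtain ⟨B, hB⟩ := bounded_fin hA F (R / 2) (δ / 2) (by linarith) (by linarith)
  have h1 : ∀ᶠ i in atTop, (goodPrimes (n i)).card ≤ B := by
    filter_upwards [hn.eventually_ge_atTop 1, hRt.eventually (eventually_ge_nhds (show R / 2 < R by linarith)),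
      hδt.eventually (eventually_ge_nhds (show δ / 2 < δ by linarith))] with i e1 e2 e3
    have hpos : (0 : ℝ) < n i := by exact_mod_cast e1
    rw [le_div_iff₀ hpos] at e2 e3
    refine hB (n i) e1 (C i) (hC i) e2 ?_
    intro w hw hw0
    have h2 : (d i : ℝ) ≤ hammingNorm w := by exact_mod_cast (hd i).2 w hw hw0
    linarith
  refine ⟨?_, ?_⟩
  · obtain ⟨i0, hi0⟩ := h1.exists_forall_of_atTop
    refine ⟨B + ∑ i ∈ range i0, (goodPrimes (n i)).card, ?_⟩
    intro i
    rcases le_or_gt i0 i with h | h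
    · exact (hi0 i h).trans (Nat.le_add_right _ _)
    · refine le_trans ?_ (Nat.le_add_left _ _)
      exact single_le_sum (f := fun i => (goodPrimes (n i)).card) (fun _ _ => Nat.zero_le _)
        (mem_range.2 h)
  · intro θ c hc
    obtain ⟨n1, hn1⟩ := exc_of_bounded θ c hc B
    filter_upwards [h1, hn.eventually_ge_atTop n1] with i e1 e2
    exact hn1 (n i) e2 e1

open Classical in
/-- few lengths with a bounded number of good prime factors -/
theorem count_bounded (c K0 : ℝ) (hc : 0 < c) (N0 : ℕ) (h : ∀ N : ℕ, N0 ≤ N →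
      (((range N).filter (fun n => n ∈ Exc (1 / 2) c)).card : ℝ) ≤
        K0 * (N / Real.log (Real.log N) ^ (1 / 5 : ℝ))) (B : ℕ) (A : Set ℕ)
    (hA : ∀ n ∈ A, (goodPrimes n).card ≤ B) :
    ∃ N1 : ℕ, ∀ N : ℕ, N1 ≤ N → (((range N).filter (fun n => n ∈ A)).card : ℝ) ≤
      (K0 + 1) * (N / Real.log (Real.log N) ^ (1 / 5 : ℝ)) := by
  obtain ⟨n1, hn1⟩ := exc_of_bounded (1 / 2) c hc B
  have h1 : Tendsto (fun N : ℕ => (N : ℝ) / Real.log N) atTop atTop :=
    tendsto_div_log.comp tendsto_natCast_atTop_atTop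
  obtain ⟨N1, hN1⟩ := ((eventually_ge_atTop N0).and ((eventually_gt_atTop 1).and
    ((tendsto_loglog.eventually_ge_atTop 1).and
    (h1.eventually_ge_atTop (n1 : ℝ))))).exists_forall_of_atTop
  refine ⟨N1, ?_⟩
  intro N hN
  obtain ⟨e0, e1, e2, e3⟩ := hN1 N hN
  have hsub : (range N).filter (fun n => n ∈ A) ⊆
      range n1 ∪ (range N).filter (fun n => n ∈ Exc (1 / 2) c) := by
    intro n hn
    rw [mem_filter] at hn
    rw [mem_union, mem_range, mem_filter]
    rcases lt_or_ge n n1 with h2 | h2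
    · exact Or.inl h2
    · exact Or.inr ⟨hn.1, hn1 n h2 (hA n hn.2)⟩
  have h2 := (card_le_card hsub).trans (card_union_le _ _)
  rw [card_range] at h2
  have h3 : (((range N).filter (fun n => n ∈ A)).card : ℝ) ≤
      n1 + (((range N).filter (fun n => n ∈ Exc (1 / 2) c)).card : ℝ) := by exact_mod_cast h2
  have h4 := h N e0
  have hNpos : (0 : ℝ) < N := by exact_mod_cast (by omega : 0 < N)
  have hlN : 0 < Real.log N := Real.log_pos (by exact_mod_cast e1)
  have h5 : (N : ℝ) / Real.log N ≤ N / Real.log (Real.log N) ^ (1 / 5 : ℝ) := by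
    apply div_le_div_of_nonneg_left hNpos.le (by positivity)
    calc Real.log (Real.log N) ^ (1 / 5 : ℝ) ≤ Real.log (Real.log N) ^ (1 : ℝ) :=
          Real.rpow_le_rpow_of_exponent_le e2 (by norm_num)
      _ = Real.log (Real.log N) := Real.rpow_one _
      _ ≤ Real.log N - 1 := Real.log_le_sub_one_of_pos hlN
      _ ≤ Real.log N := by linarith
  linarith

end Pool.Agent.H633.CY
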