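import Pool.Agent.H633.CY.Stm

/-! Part GOOD of the project CY, written by helper97. -/

/-!
# Primes without collisions are good (GOOD; written by helper97)
-/

set_option autoImplicit false

namespace Pool.Agent.H633.CY.GOOD

open Finset Pool.Agent.H633.CY

/-- `l` is a square modulo `p` -/
lemma sq_mod {l p : ℕ} (hl : l.Prime) (hp : p.Prime) (h : 4 * l ∣ p + 1) :
    IsSquare ((l : ℕ) : ZMod p) := by
  have : Fact l.Prime := ⟨hl⟩
  have : Fact p.Prime := ⟨hp⟩
  have h4 : 4 ∣ p + 1 := (Dvd.intro _ rfl).trans h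
  have hp3 : p % 4 = 3 := by omega
  rcases hl.eq_two_or_odd with h2 | h2
  · subst h2
    have h8 : 8 ∣ p + 1 := by simpa using h
    have h5 : p ≠ 2 := by omega
    have h6 : p % 8 = 7 := by omega
    have h7 := (ZMod.exists_sq_eq_two_iff h5).2 (Or.inr h6)
    simpa using h7
  · have hl2 : l ≠ 2 := by omega
    have hpl : ((p : ℕ) : ZMod l) = -1 := by
      have h5 : ((p + 1 : ℕ) : ZMod l) = 0 :=
        (ZMod.natCast_eq_zero_iff _ _).2 ((Dvd.intro_left 4 rfl).trans h)
      push_cast at h5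
      exact eq_neg_of_add_eq_zero_left h5
    have h13 : l % 4 = 1 ∨ l % 4 = 3 := by omega
    rcases h13 with h1 | h3
    · have h5 : p ≠ 2 := by omega
      rw [← ZMod.exists_sq_eq_prime_iff_of_mod_four_eq_one h1 h5, hpl, ZMod.exists_sq_eq_neg_one_iff]
      omega
    · have hne : p ≠ l := by
        intro he
        subst he
        have h5 : p ∣ p + 1 := (Dvd.intro_left 4 rfl).trans h
        have h6 : p ∣ 1 := (Nat.dvd_add_right dvd_rfl).1 h5
        exact hp.one_lt.ne' (Nat.dvd_one.1 h6)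
      rw [ZMod.exists_sq_eq_prime_iff_of_mod_four_eq_three hp3 h3 hne, hpl,
        ZMod.exists_sq_eq_neg_one_iff]
      omega

/-- a prime factor of the totient -/
lemma prime_dvd_totient {r m : ℕ} (hr : r.Prime) (hm : m ≠ 0) (h : r ∣ m.totient) :
    r ^ 2 ∣ m ∨ ∃ q : ℕ, q.Prime ∧ q ∣ m ∧ r ∣ q - 1 := by
  rw [Nat.totient_eq_prod_factorization hm] at h
  unfold Finsupp.prod at h
  obtain ⟨q, hq, h1⟩ := (hr.prime.dvd_finsetProd_iff _).1 h
  rw [Nat.support_factorization, Nat.mem_primeFactors] at hq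
  rcases hr.dvd_mul.1 h1 with h2 | h2
  · left
    have h3 : m.factorization q - 1 ≠ 0 := by
      intro h4
      rw [h4, pow_zero] at h2
      exact hr.one_lt.ne' (Nat.dvd_one.1 h2)
    have h5 : r ∣ q := hr.dvd_of_dvd_pow h2
    have h6 : r = q := (Nat.prime_dvd_prime_iff_eq hr hq.1).1 h5
    rw [h6]
    exact (pow_dvd_pow q (by omega : 2 ≤ m.factorization q)).trans (Nat.ordProj_dvd m q)
  · right
    exact ⟨q, hq.1, hq.2.1, h2⟩

/-- **Primes without collisions are good.** -/
theorem t_good : S_GOOD := by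
  intro l f n p y hl hf hy hn hp hpn h4 hfree hcoll
  have : Fact p.Prime := ⟨hp⟩
  have h44 : 4 ∣ p + 1 := (Dvd.intro _ rfl).trans h4
  have hp7 : 7 ≤ p := by
    have h1 := Nat.le_of_dvd (Nat.succ_pos p) h4
    have h2 := hl.two_le
    omega
  have hq2 : 2 ≤ l ^ f := hl.two_le.trans (Nat.le_self_pow (by omega) l)
  obtain ⟨h, hh⟩ : ∃ h, h = (p - 1) / 2 := ⟨_, rfl⟩
  have hph : p - 1 = 2 * h := by omega
  have hodd : h % 2 = 1 := by omega
  have h3 : 3 ≤ h := by omega
  -- prime factors of `h` are large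
  have hbig : ∀ r : ℕ, r.Prime → r ∣ h → y < r ∧ r ∣ p - 1 ∧ r ≤ h := by
    intro r hr hrh
    have h1 : r ∣ p - 1 := by
      rw [hph]
      exact Dvd.dvd.mul_left hrh 2
    have h2 : 3 ≤ r := by
      rcases hr.eq_two_or_odd with h2 | h2
      · subst h2
        omega
      · have := hr.two_le
        omega
    refine ⟨?_, h1, Nat.le_of_dvd (by omega) hrh⟩
    by_contra hlt
    exact hfree r hr h2 (not_lt.1 hlt) h1
  have hyp : y < p := by
    obtain ⟨r, hr, hrh⟩ := Nat.exists_prime_and_dvd (by omega : h ≠ 1)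
    obtain ⟨h1, -, h2⟩ := hbig r hr hrh
    have h5 : (r : ℝ) ≤ p := by exact_mod_cast (by omega : r ≤ p)
    linarith
  have hqp : l ^ f < p := by
    have h1 : ((l ^ f : ℕ) : ℝ) < p := lt_of_le_of_lt hy hyp
    exact_mod_cast h1
  have hp2 : ¬ p ^ 2 ∣ n := fun h1 => hcoll ⟨p, hp, hyp, Or.inl h1⟩
  have hpn' : p * (n / p) = n := Nat.mul_div_cancel' hpn
  have hnp0 : n / p ≠ 0 := by
    intro h1
    rw [h1] at hpn'
    omega
  have hcop : h.Coprime (n / p).totient := by
    refine Nat.Coprime.symm (Nat.coprime_of_dvd fun r hr h1 h2 => ?_)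
    obtain ⟨h5, h6, -⟩ := hbig r hr h2
    rcases prime_dvd_totient hr hnp0 h1 with h7 | ⟨p', h7, h8, h9⟩
    · exact hcoll ⟨r, hr, h5, Or.inl (h7.trans (Nat.div_dvd_of_dvd hpn))⟩
    · refine hcoll ⟨r, hr, h5, Or.inr ⟨p, p', hp, h7, ?_, h6, h9, ?_⟩⟩
      · intro he
        subst he
        refine hp2 ?_
        rw [pow_two]
        conv_rhs => rw [← hpn']
        exact mul_dvd_mul_left _ h8
      · conv_rhs => rw [← hpn']
        exact mul_dvd_mul_left _ h8
  refine ⟨hp, hpn, hp2, ?_, ?_⟩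
  · intro h1
    rcases hp.dvd_mul.1 h1 with h2 | h2
    · exact absurd (Nat.le_of_dvd (by omega) h2) (by omega)
    · exact absurd (Nat.le_of_dvd (by omega) h2) (by omega)
  · obtain ⟨s, hs1, hs2⟩ := Nat.chineseRemainder hcop 1 0
    refine ⟨s, ?_, ?_⟩
    · have h5 : s % h = 1 := by
        have h6 : s % h = 1 % h := hs1
        rw [h6]
        exact Nat.mod_eq_of_lt (by omega)
      have h6 : s = h * (s / h) + 1 := by
        have h7 := Nat.div_add_mod s h
        omega
      have h8 : (((l ^ f : ℕ) : ZMod p)) ^ h = 1 := by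
        obtain ⟨b, hb⟩ := sq_mod hl hp h4
        have hb0 : b ≠ 0 := by
          intro hb0
          rw [hb0, mul_zero, ZMod.natCast_eq_zero_iff] at hb
          have h9 := Nat.le_of_dvd hl.pos hb
          have h10 := Nat.le_of_dvd (Nat.succ_pos p) h4
          omega
        push_cast
        rw [hb, ← pow_two, ← pow_mul, ← pow_mul, show 2 * (f * h) = (2 * h) * f by ring, ← hph,
          pow_mul, ZMod.pow_card_sub_one_eq_one hb0, one_pow]
      rw [← ZMod.natCast_eq_natCast_iff]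
      rw [Nat.cast_pow, h6, pow_succ, pow_mul, h8, one_pow, one_mul]
    · intro m hm hmq
      have h5 : m.totient ∣ s :=
        (Nat.totient_dvd_of_dvd hm).trans ((Nat.modEq_zero_iff_dvd).1 hs2)
      obtain ⟨t, ht⟩ := h5
      rw [ht, pow_mul]
      have h6 := (Nat.ModEq.pow_totient hmq.symm).pow t
      rwa [one_pow] at h6

end Pool.Agent.H633.CY.GOOD
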