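import Pool.Agent.H633.CY.Stm2
import Pool.Agent.H633.CY.P_GOOD

set_option autoImplicit false

/-!
# Good primes, independently of the field

Adapted from the part GOOD by helper97.
-/

namespace Pool.Agent.H633.CY

open Finset

/-- GOOD2. -/
theorem t_good2 : S_GOOD2 := by
  intro n p y hy hn hp hpn h44 hp7 hfree hcoll
  have : Fact p.Prime := ⟨hp⟩
  obtain ⟨h, hh⟩ : ∃ h, h = (p - 1) / 2 := ⟨_, rfl⟩
  have hph : p - 1 = 2 * h := by omega
  have hodd : h % 2 = 1 := by omega
  have h3 : 3 ≤ h := by omega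
  -- prime factors of `h` are large
  have hbig : ∀ r : ℕ, r.Prime → r ∣ h → y < r ∧ r ∣ p - 1 ∧ r ≤ h := by
    intro r hr hrh
    have h1 : r ∣ p - 1 := by
      rw [hph]
      exact Dvd.dvd.mul_left hrh 2
    have h2 : 3 ≤ r := by
      rcases hr.eq_two_or_odd with h2 | h2
      · subst h2
        omega
      · have := hr.two_le
        omega
    refine ⟨?_, h1, Nat.le_of_dvd (by omega) hrh⟩
    by_contra hlt
    exact hfree r hr h2 (not_lt.1 hlt) h1
  have hyp : y < p := by
    obtain ⟨r, hr, hrh⟩ := Nat.exists_prime_and_dvd (by omega : h ≠ 1)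
    obtain ⟨h1, -, h2⟩ := hbig r hr hrh
    have h5 : (r : ℝ) ≤ p := by exact_mod_cast (by omega : r ≤ p)
    linarith
  have hp2 : ¬ p ^ 2 ∣ n := fun h1 => hcoll ⟨p, hp, hyp, Or.inl h1⟩
  have hpn' : p * (n / p) = n := Nat.mul_div_cancel' hpn
  have hnp0 : n / p ≠ 0 := by
    intro h1
    rw [h1] at hpn'
    omega
  have hcop : h.Coprime (n / p).totient := by
    refine Nat.Coprime.symm (Nat.coprime_of_dvd fun r hr h1 h2 => ?_)
    obtain ⟨h5, h6, -⟩ := hbig r hr h2
    rcases GOOD.prime_dvd_totient hr hnp0 h1 with h7 | ⟨p', h7, h8, h9⟩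
    · exact hcoll ⟨r, hr, h5, Or.inl (h7.trans (Nat.div_dvd_of_dvd hpn))⟩
    · refine hcoll ⟨r, hr, h5, Or.inr ⟨p, p', hp, h7, ?_, h6, h9, ?_⟩⟩
      · intro he
        subst he
        refine hp2 ?_
        rw [pow_two]
        conv_rhs => rw [← hpn']
        exact mul_dvd_mul_left _ h8
      · conv_rhs => rw [← hpn']
        exact mul_dvd_mul_left _ h8
  rw [hh] at hcop
  exact ⟨⟨hp, hpn, hp2, hcop⟩, hyp⟩

/-- GOODK. -/
theorem t_goodk : S_GOODK := by
  intro q n p hq hqp hgood
  obtain ⟨hp, hpn, hp2, hcop⟩ := hgood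
  have : Fact p.Prime := ⟨hp⟩
  have hp3 : 3 < p := by omega
  have hpodd : p % 2 = 1 := by
    rcases hp.eq_two_or_odd with h2 | h2
    · omega
    · exact h2
  obtain ⟨h, hh⟩ : ∃ h, h = (p - 1) / 2 := ⟨_, rfl⟩
  have hph : p - 1 = 2 * h := by omega
  rw [← hh] at hcop
  refine ⟨hp, hpn, hp2, ?_, ?_⟩
  · intro h1
    have e1 : q ^ 2 - 1 = (q + 1) * (q - 1) := by
      have := Nat.sq_sub_sq q 1
      simpa using this
    rw [e1] at h1
    rcases hp.dvd_mul.1 h1 with h2 | h2
    · have h3 := hp.dvd_of_dvd_pow h2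
      exact absurd (Nat.le_of_dvd (by omega) h3) (by omega)
    · rcases hp.dvd_mul.1 h2 with h3 | h3
      · exact absurd (Nat.le_of_dvd (by omega) h3) (by omega)
      · exact absurd (Nat.le_of_dvd (by omega) h3) (by omega)
  · obtain ⟨s, hs1, hs2⟩ := Nat.chineseRemainder hcop 1 0
    refine ⟨s, ?_, ?_⟩
    · have hq0 : ((q : ℕ) : ZMod p) ≠ 0 := by
        rw [Ne, ZMod.natCast_eq_zero_iff]
        intro h1
        exact absurd (Nat.le_of_dvd (by omega) h1) (by omega)
      have h8 : (((q ^ 2 : ℕ) : ZMod p)) ^ h = 1 := by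
        push_cast
        rw [← pow_mul, ← hph]
        exact ZMod.pow_card_sub_one_eq_one hq0
      have hpos : 2 ≤ h := by omega
      have h5 : s % h = 1 := by
        have h6 : s % h = 1 % h := hs1
        rw [h6]
        exact Nat.mod_eq_of_lt (by omega)
      have h6 : s = h * (s / h) + 1 := by
        have h7 := Nat.div_add_mod s h
        omega
      rw [← ZMod.natCast_eq_natCast_iff]
      rw [Nat.cast_pow, h6, pow_succ, pow_mul, h8, one_pow, one_mul]
    · intro m hm hmq
      have h5 : m.totient ∣ s :=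
        (Nat.totient_dvd_of_dvd hm).trans ((Nat.modEq_zero_iff_dvd).1 hs2)
      obtain ⟨t, ht⟩ := h5
      rw [ht, pow_mul]
      have h6 := (Nat.ModEq.pow_totient hmq.symm).pow t
      rwa [one_pow] at h6

end Pool.Agent.H633.CY
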