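import Pool.Agent.H633.CY.Basic

set_option autoImplicit false

/-! # Splitting off a tensor factor -/

namespace Pool.Agent.H633.CY

open Finset

section conv
variable {F : Type} [Field F] {A : Type} [AddCommGroup A] [Fintype A]
  {M : Type} [AddCommGroup M] [Module F M]

/-- convolution of a function with values in `M` by an element of the group algebra -/
def conv (r : AddMonoidAlgebra F A) (c : A → M) : A → M := fun x => ∑ u, r.coeff u • c (x - u)

lemma conv_mem (C : Submodule F (A → M)) (hC : ∀ a : A, ∀ c ∈ C, (fun x => c (x + a)) ∈ C)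
    (r : AddMonoidAlgebra F A) (c : A → M) (hc : c ∈ C) : conv r c ∈ C := by
  have h : conv r c = ∑ u, r.coeff u • (fun x => c (x + -u)) := by
    funext x
    simp [conv, sub_eq_add_neg]
  rw [h]
  exact C.sum_mem fun u _ => C.smul_mem _ (hC (-u) c hc)

/-- functions as elements of the group algebra -/
noncomputable def toR (f : A → F) : AddMonoidAlgebra F A :=
  AddMonoidAlgebra.ofCoeff (Finsupp.equivFunOnFinite.symm f)

omit [AddCommGroup A] in
lemma toR_coeff (f : A → F) (a : A) : (toR f).coeff a = f a := rfl

lemma conv_apply (l : M →ₗ[F] F) (r : AddMonoidAlgebra F A) (c : A → M) (x : A) :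
    l (conv r c x) = (r * toR (fun y => l (c y))).coeff x := by
  rw [coeff_mul_sub]
  simp [conv, toR_coeff]

end conv

/-- ONE, from IDEM and AVG. -/
theorem t_one (hI : S_IDEM) (hA : S_AVG) : S_ONE := by
  intro F _ _ _ A _ _ M _ _ p hp hcard hpq C hC hCq l c hc hne
  classical
  obtain ⟨q, hq⟩ : ∃ q, q = Fintype.card F := ⟨_, rfl⟩
  rw [← hq] at hpq hCq ⊢
  haveI : Fact p.Prime := ⟨hp⟩
  have hq2 : 2 ≤ q := by rw [hq]; exact Fintype.one_lt_card
  obtain ⟨k, hk⟩ : ∃ k, k = orderOf ((q : ℕ) : ZMod p) := ⟨_, rfl⟩
  have hpq1 : ¬ p ∣ q := fun h => hpq (dvd_mul_of_dvd_left h _)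
  have hpq2 : ¬ p ∣ q - 1 := fun h => hpq (dvd_mul_of_dvd_right h _)
  have hunit : ((q : ℕ) : ZMod p) ≠ 0 := by
    rw [Ne, ZMod.natCast_eq_zero_iff]
    exact hpq1
  have hqk : ((q : ℕ) : ZMod p) ^ k = 1 := by rw [hk]; exact pow_orderOf_eq_one _
  have hqk' : q ^ k ≡ 1 [MOD p] := by
    rw [← ZMod.natCast_eq_natCast_iff]
    push_cast
    exact hqk
  -- elements of `A`
  have hpa : ∀ x : A, p • x = 0 := by
    intro x
    rw [← hcard]
    exact card_nsmul_eq_zero
  have hmod : ∀ (m n : ℕ) (x : A), m ≡ n [MOD p] → m • x = n • x := by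
    intro m n x h
    have h1 : ∀ m : ℕ, m • x = (m % p) • x := by
      intro m
      conv_lhs => rw [← Nat.div_add_mod m p]
      rw [add_nsmul, mul_comm p, mul_nsmul', hpa, nsmul_zero, zero_add]
    rw [h1 m, h1 n, h]
  have hki : ∀ (i : ℕ) (x : A), q ^ (k * i) • x = x := by
    intro i x
    rw [hmod (q ^ (k * i)) 1 x, one_nsmul]
    rw [pow_mul]
    simpa using hqk'.pow i
  have hkpos : 0 < k := by
    rw [hk, orderOf_pos_iff, isOfFinOrder_iff_pow_eq_one]
    refine ⟨p - 1, by have := hp.two_le; omega, ?_⟩
    exact ZMod.pow_card_sub_one_eq_one hunit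
  have hinj : ∀ i : ℕ, Function.Injective (fun u : A => Fintype.card F ^ i • u) := by
    intro i a b h
    rw [← hq] at h
    simp only at h
    have h1 : q ^ ((k - 1) * i) • (q ^ i • a) = q ^ ((k - 1) * i) • (q ^ i • b) := by rw [h]
    rw [← mul_nsmul', ← mul_nsmul', ← pow_add] at h1
    have h2 : (k - 1) * i + i = k * i := by
      obtain ⟨k', rfl⟩ : ∃ k', k = k' + 1 := ⟨k - 1, by omega⟩
      simp only [Nat.add_sub_cancel]
      ring
    rw [h2, hki, hki] at h1
    exact h1
  -- the ring theoretic core
  obtain ⟨e, x, lam, he, hes, hT, hlv⟩ := hI F A p k hp hcard (by rw [← hq]; exact hpq)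
    (by rw [← hq]; exact hk) (toR (fun y => l (c y))) hne
  rw [← hq] at hT
  -- powers as dilations
  have hpow : ∀ (z : AddMonoidAlgebra F A) (i : ℕ) (y : A),
      (z ^ (q ^ i)).coeff y = z.coeff (q ^ ((k - 1) * i) • y) := by
    intro z i y
    have h3 : y = q ^ i • (q ^ ((k - 1) * i) • y) := by
      rw [← mul_nsmul', ← pow_add]
      have h2 : i + (k - 1) * i = k * i := by
        obtain ⟨k', rfl⟩ : ∃ k', k = k' + 1 := ⟨k - 1, by omega⟩
        simp only [Nat.add_sub_cancel]
        ring
      rw [h2, hki]
    conv_lhs => rw [h3]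
    rw [hq]
    exact coeff_pow_card z i (hinj i) _
  -- the word `c2`
  obtain ⟨c2, hc2⟩ : ∃ c2 : A → M, c2 = fun y => ∑ i ∈ range k, conv x c (q ^ ((k - 1) * i) • y) :=
    ⟨_, rfl⟩
  have hdil : ∀ (j : ℕ) (d : A → M), d ∈ C → (fun y => d (q ^ j • y)) ∈ C := by
    intro j
    induction j with
    | zero => intro d hd; simpa using hd
    | succ j ih =>
      intro d hd
      have h1 := hCq _ (ih d hd)
      have h2 : (fun y => d (q ^ (j + 1) • y)) = fun y => d (q ^ j • q • y) := by
        funext y
        rw [← mul_nsmul', pow_succ]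
      rw [h2]
      exact h1
  have hc2C : c2 ∈ C := by
    have h1 : c2 = ∑ i ∈ range k, (fun y => conv x c (q ^ ((k - 1) * i) • y)) := by
      rw [hc2]
      funext y
      simp
    rw [h1]
    exact C.sum_mem fun i _ => hdil _ _ (conv_mem C hC x c hc)
  have hl : ∀ (l' : M →ₗ[F] F) (y : A), l' (c2 y) = lam (toR (fun y => l' (c y))) * e.coeff y := by
    intro l' y
    have h1 := congrArg (fun z : AddMonoidAlgebra F A => z.coeff y) (hT (toR (fun y => l' (c y))))
    simp only [AddMonoidAlgebra.coeff_sum, Finsupp.finsetSum_apply, AddMonoidAlgebra.coeff_smul,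
      Finsupp.smul_apply, smul_eq_mul] at h1
    rw [← h1, hc2]
    simp only [map_sum]
    apply sum_congr rfl
    intro i _
    rw [hpow, conv_apply]
  -- a nonzero coefficient of `e`
  obtain ⟨a1, ha1⟩ : ∃ a1, e.coeff a1 ≠ 0 := by
    by_contra h
    push Not at h
    apply he
    ext a
    exact h a
  obtain ⟨m, hm⟩ : ∃ m, m = (e.coeff a1)⁻¹ • c2 a1 := ⟨_, rfl⟩
  have hc2m : ∀ y, c2 y = e.coeff y • m := by
    intro y
    rw [← sub_eq_zero]
    rw [← Module.forall_dual_apply_eq_zero_iff F]
    intro φ
    rw [map_sub, map_smul, hm, map_smul, hl φ, hl φ, smul_eq_mul, smul_eq_mul]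
    field_simp
    ring
  have hlm : l m ≠ 0 := by
    rw [hm, map_smul, hl l, smul_eq_mul]
    have : (e.coeff a1)⁻¹ * (lam (toR fun y => l (c y)) * e.coeff a1) = lam (toR fun y => l (c y)) := by
      field_simp
    rw [this]
    exact hlv
  -- two independent shifts of `e`
  obtain ⟨b, hb⟩ : ∃ b : A, b ≠ 0 := by
    haveI : Nontrivial A := by
      rw [← Fintype.one_lt_card_iff_nontrivial, hcard]
      exact hp.one_lt
    exact exists_ne 0
  obtain ⟨f0, hf0⟩ : ∃ f0 : A → F, f0 = fun y => e.coeff y := ⟨_, rfl⟩
  obtain ⟨f1, hf1⟩ : ∃ f1 : A → F, f1 = fun y => e.coeff (y + b) := ⟨_, rfl⟩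
  have hpF : (p : F) ≠ 0 := by
    intro h
    obtain ⟨n, hp', hn⟩ := FiniteField.card F (ringChar F)
    have h1 : ringChar F ∣ p := (ringChar.spec F p).1 h
    have h2 : ringChar F = p := (Nat.prime_dvd_prime_iff_eq hp' hp).1 h1
    apply hpq1
    rw [hq, hn, h2]
    exact dvd_pow_self p n.ne_zero
  have hsum : ∑ u : A, e.coeff u = 0 := by
    have h1 := congrArg (fun z : AddMonoidAlgebra F A => z.coeff 0) hes
    rw [coeff_mul_sub] at h1
    have h2 : ∀ g : A, (∑ a : A, AddMonoidAlgebra.single a (1 : F)).coeff g = 1 := by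
      intro g
      rw [AddMonoidAlgebra.coeff_sum, Finsupp.finsetSum_apply]
      simp [AddMonoidAlgebra.coeff_single, Finsupp.single_apply]
    simp only [h2, mul_one] at h1
    simpa using h1
  have hlin : LinearIndependent F ![f0, f1] := by
    rw [LinearIndependent.pair_iff]
    intro s t hst
    have hst' : ∀ y, s * e.coeff y + t * e.coeff (y + b) = 0 := by
      intro y
      have := congrFun hst y
      simpa [hf0, hf1] using this
    by_cases ht : t = 0
    · refine ⟨?_, ht⟩
      have := hst' a1
      rw [ht, zero_mul, add_zero] at this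
      rcases mul_eq_zero.1 this with h | h
      · exact h
      · exact absurd h ha1
    · exfalso
      obtain ⟨r, hr⟩ : ∃ r, r = -(s / t) := ⟨_, rfl⟩
      have h1 : ∀ y, e.coeff (y + b) = r * e.coeff y := by
        intro y
        have := hst' y
        rw [hr]
        field_simp
        linear_combination this
      have h2 : ∀ (n : ℕ) (y : A), e.coeff (y + n • b) = r ^ n * e.coeff y := by
        intro n
        induction n with
        | zero => intro y; simp
        | succ n ih =>
          intro y
          rw [succ_nsmul, ← add_assoc, h1, ih]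
          ring
      have h3 : r ^ p = 1 := by
        have := h2 p a1
        rw [hpa, add_zero] at this
        have h4 : (r ^ p - 1) * e.coeff a1 = 0 := by linear_combination -this
        rcases mul_eq_zero.1 h4 with h | h
        · linear_combination h
        · exact absurd h ha1
      have hr0 : r ≠ 0 := by
        intro h
        rw [h, zero_pow hp.ne_zero] at h3
        exact zero_ne_one h3
      have h5 : r ^ (q - 1) = 1 := by rw [hq]; exact FiniteField.pow_card_sub_one_eq_one r hr0
      have h6 : r = 1 := by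
        have h7 : orderOf r ∣ p := orderOf_dvd_of_pow_eq_one h3
        have h8 : orderOf r ∣ q - 1 := orderOf_dvd_of_pow_eq_one h5
        rcases (Nat.dvd_prime hp).1 h7 with h | h
        · exact orderOf_eq_one_iff.1 h
        · exact absurd (h ▸ h8) hpq2
      -- `e` is constant
      have h9 : ∀ y, e.coeff y = e.coeff a1 := by
        intro y
        have hgen : y - a1 ∈ AddSubgroup.zmultiples b := by
          have h10 : Nat.card (AddSubgroup.zmultiples b) = p := by
            rw [Nat.card_zmultiples]
            exact addOrderOf_eq_prime (hpa b) hb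
          have h11 : AddSubgroup.zmultiples b = ⊤ := by
            apply AddSubgroup.eq_top_of_card_eq
            rw [h10, Nat.card_eq_fintype_card, hcard]
          rw [h11]
          exact AddSubgroup.mem_top _
        rw [← mem_multiples_iff_mem_zmultiples, AddSubmonoid.mem_multiples_iff] at hgen
        obtain ⟨n, hn⟩ := hgen
        have := h2 n a1
        rw [hn, h6, one_pow, one_mul, add_sub_cancel] at this
        exact this
      have h12 : (p : F) * e.coeff a1 = 0 := by
        rw [← hsum]
        rw [sum_congr rfl (fun y _ => h9 y), sum_const, card_univ, hcard, nsmul_eq_mul]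
      rcases mul_eq_zero.1 h12 with h | h
      · exact hpF h
      · exact ha1 h
  obtain ⟨f, hfD, hf0', hfw⟩ := hA F A (Submodule.span F (Set.range ![f0, f1]))
    (by rw [finrank_span_eq_card hlin]; simp)
  refine ⟨f, hf0', by rw [← hcard, hq]; exact hfw, m, hlm, ?_⟩
  have hspan : Submodule.span F (Set.range ![f0, f1]) ≤
      C.comap (LinearMap.pi (fun x : A => (LinearMap.toSpanSingleton F M m).comp (LinearMap.proj x))) := by
    rw [Submodule.span_le]
    rintro _ ⟨i, rfl⟩
    rw [SetLike.mem_coe, Submodule.mem_comap]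
    fin_cases i
    · have : (LinearMap.pi (fun x : A => (LinearMap.toSpanSingleton F M m).comp (LinearMap.proj x)))
          f0 = c2 := by
        funext y
        simp [hf0, hc2m y]
      simpa [this] using hc2C
    · have : (LinearMap.pi (fun x : A => (LinearMap.toSpanSingleton F M m).comp (LinearMap.proj x)))
          f1 = fun y => c2 (y + b) := by
        funext y
        simp [hf1, hc2m (y + b)]
      have h2 := hC b c2 hc2C
      simpa [this] using h2
  have h1 := hspan hfD
  rw [Submodule.mem_comap] at h1
  have h2 : (LinearMap.pi (fun x : A => (LinearMap.toSpanSingleton F M m).comp (LinearMap.proj x)))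
      f = fun x => f x • m := by
    funext y
    simp
  rw [h2] at h1
  exact h1

end Pool.Agent.H633.CY
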