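import Pool.Agent.H633.CY.Stm
import Pool.Graph.R_seed8.Helper602.MK.J3

/-! Part BTS of the project CY, written by helper286. -/

/-!
# The sum of the reciprocals of the primes congruent to one modulo a prime
-/

set_option autoImplicit false

namespace Pool.Agent.H633.CY.BTS

open Finset Pool.Agent.H633.CY

theorem bts_one_le {N : ℕ} (hN : 16 ≤ N) : 1 ≤ Real.log (Real.log N) := by
  have h1 : (16 : ℝ) ≤ N := by exact_mod_cast hN
  have h2 : Real.log 16 ≤ Real.log N := Real.log_le_log (by norm_num) h1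
  have h3 : Real.log 16 = 4 * Real.log 2 := by
    rw [show (16 : ℝ) = 2 ^ 4 by norm_num, Real.log_pow]
    norm_num
  have h4 := Real.log_two_gt_d9
  have h5 := Real.exp_one_lt_d9
  rw [Real.le_log_iff_exp_le (by linarith)]
  linarith

theorem bts_harm {N : ℕ} (hN : 16 ≤ N) :
    ∑ i ∈ range (Nat.log 2 N + 1), (1 : ℝ) / ((i : ℝ) + 1) ≤ 3 * Real.log (Real.log N) := by
  have h1 := bts_one_le hN
  have h16 : (16 : ℝ) ≤ N := by exact_mod_cast hN
  have hN0 : (0 : ℝ) < N := by linarith
  have hl2 := Real.log_two_gt_d9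
  have hlog : 4 * Real.log 2 ≤ Real.log N := by
    have h3 : Real.log 16 = 4 * Real.log 2 := by
      rw [show (16 : ℝ) = 2 ^ 4 by norm_num, Real.log_pow]
      norm_num
    rw [← h3]
    exact Real.log_le_log (by norm_num) h16
  have hL : (Nat.log 2 N : ℝ) * Real.log 2 ≤ Real.log N := by
    have h2 : 2 ^ Nat.log 2 N ≤ N := Nat.pow_log_le_self 2 (by omega)
    have h3 : ((2 : ℝ) ^ Nat.log 2 N) ≤ N := by exact_mod_cast h2
    have h4 := Real.log_le_log (by positivity) h3
    rwa [Real.log_pow] at h4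
  have hH : ∑ i ∈ range (Nat.log 2 N + 1), (1 : ℝ) / ((i : ℝ) + 1) ≤
      1 + Real.log ((Nat.log 2 N + 1 : ℕ) : ℝ) := by
    refine le_trans (le_of_eq ?_) (harmonic_le_one_add_log (Nat.log 2 N + 1))
    unfold harmonic
    push_cast
    exact sum_congr rfl fun i _ => one_div _
  have h5 : ((Nat.log 2 N + 1 : ℕ) : ℝ) ≤ Real.exp 1 * Real.log N := by
    push_cast
    have h6 := Real.exp_one_gt_d9
    have h7 : (Nat.log 2 N : ℝ) ≤ 3 / 2 * Real.log N := by
      have h8 : 0 ≤ (Nat.log 2 N : ℝ) := by positivity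
      nlinarith
    nlinarith
  have h6 : Real.log ((Nat.log 2 N + 1 : ℕ) : ℝ) ≤ 1 + Real.log (Real.log N) := by
    have h7 := Real.log_le_log (by positivity) h5
    rwa [Real.log_mul (Real.exp_ne_zero 1) (by linarith), Real.log_exp] at h7
  linarith

theorem bts_block {C : ℝ} (hC : ∀ (a q N : ℕ), 1 ≤ q → 2 ≤ N →
    (((Finset.range N).filter (fun k => (a + k * q).Prime)).card : ℝ) ≤
      C * ((q : ℝ) / (Nat.totient q : ℝ)) * N / Real.log N) (hC1 : 1 ≤ C) (N : ℕ) {r : ℕ}
    (hr : r.Prime) (i : ℕ) :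
    ∑ p ∈ ((Icc 1 N).filter (fun p : ℕ => p.Prime ∧ r ∣ p - 1)).filter
      (fun p => Nat.log 2 ((p - 1) / r) = i), (1 : ℝ) / p ≤
    4 * C / (Real.log 2 * r) * (1 / ((i : ℝ) + 1)) := by
  have hr0 : (0 : ℝ) < r := by exact_mod_cast hr.pos
  have hr2 : (2 : ℝ) ≤ r := by exact_mod_cast hr.two_le
  have hl2 : 0 < Real.log 2 := Real.log_pos (by norm_num)
  set S := ((Icc 1 N).filter (fun p : ℕ => p.Prime ∧ r ∣ p - 1)).filter
      (fun p => Nat.log 2 ((p - 1) / r) = i) with hS
  have hmem : ∀ p ∈ S, p.Prime ∧ ∃ j, p = 1 + j * r ∧ 2 ^ i ≤ j ∧ j < 2 ^ (i + 1) := by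
    intro p hp
    rw [hS, mem_filter, mem_filter, mem_Icc] at hp
    obtain ⟨⟨_, hpp, hdvd⟩, hlog⟩ := hp
    refine ⟨hpp, (p - 1) / r, ?_, ?_, ?_⟩
    · rw [Nat.div_mul_cancel hdvd]
      have := hpp.two_le
      omega
    · have h1 : (p - 1) / r ≠ 0 := by
        intro h0
        have h2 := Nat.div_mul_cancel hdvd
        rw [h0, zero_mul] at h2
        have := hpp.two_le
        omega
      rw [← hlog]
      exact Nat.pow_log_le_self 2 h1
    · rw [← hlog]
      exact Nat.lt_pow_succ_log_self (by norm_num) _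
  have hcard : (S.card : ℝ) ≤ 2 * C * 2 ^ (i + 1) / (((i : ℝ) + 1) * Real.log 2) := by
    have h1 : S.card ≤ ((Finset.range (2 ^ (i + 1))).filter (fun k => (1 + k * r).Prime)).card := by
      refine card_le_card_of_injOn (fun p => (p - 1) / r) ?_ ?_
      · intro p hp
        obtain ⟨hpp, j, hj, _, hj2⟩ := hmem p hp
        have e : (p - 1) / r = j := by
          rw [hj, Nat.add_sub_cancel_left]
          exact Nat.mul_div_cancel j hr.pos
        show (p - 1) / r ∈ _
        rw [e]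
        exact mem_filter.2 ⟨mem_range.2 hj2, hj ▸ hpp⟩
      · intro p hp p' hp' h
        obtain ⟨_, j, hj, _⟩ := hmem p hp
        obtain ⟨_, j', hj', _⟩ := hmem p' hp'
        have e : (p - 1) / r = j := by
          rw [hj, Nat.add_sub_cancel_left]
          exact Nat.mul_div_cancel j hr.pos
        have e' : (p' - 1) / r = j' := by
          rw [hj', Nat.add_sub_cancel_left]
          exact Nat.mul_div_cancel j' hr.pos
        have h2 : (p - 1) / r = (p' - 1) / r := h
        rw [e, e'] at h2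
        rw [hj, hj', h2]
    have h2 := hC 1 r (2 ^ (i + 1)) hr.one_le (by
      rw [pow_succ]
      have := Nat.one_le_two_pow (n := i)
      omega)
    have h3 : (S.card : ℝ) ≤
        ((Finset.range (2 ^ (i + 1))).filter (fun k => (1 + k * r).Prime)).card := by
      exact_mod_cast h1
    refine h3.trans (h2.trans ?_)
    have hphi : (Nat.totient r : ℝ) = r - 1 := by
      rw [Nat.totient_prime hr, Nat.cast_sub hr.one_le, Nat.cast_one]
    have h4 : (r : ℝ) / (Nat.totient r : ℝ) ≤ 2 := by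
      rw [hphi, div_le_iff₀ (by linarith)]
      linarith
    have h5 : Real.log ((2 ^ (i + 1) : ℕ) : ℝ) = ((i : ℝ) + 1) * Real.log 2 := by
      push_cast
      rw [Real.log_pow]
      push_cast
      ring
    rw [h5]
    push_cast
    refine div_le_div_of_nonneg_right ?_ (by positivity)
    have h6 : C * ((r : ℝ) / (Nat.totient r : ℝ)) ≤ 2 * C := by nlinarith
    exact mul_le_mul_of_nonneg_right h6 (by positivity)
  have hterm : ∀ p ∈ S, (1 : ℝ) / p ≤ 1 / (2 ^ i * r) := by
    intro p hp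
    obtain ⟨_, j, hj, hj1, _⟩ := hmem p hp
    refine one_div_le_one_div_of_le (by positivity) ?_
    have h1 : 2 ^ i * r ≤ p := by
      rw [hj]
      have := Nat.mul_le_mul_right r hj1
      omega
    exact_mod_cast h1
  calc ∑ p ∈ S, (1 : ℝ) / p ≤ S.card • (1 / (2 ^ i * (r : ℝ))) := sum_le_card_nsmul S _ _ hterm
    _ = (S.card : ℝ) * (1 / (2 ^ i * (r : ℝ))) := nsmul_eq_mul _ _
    _ ≤ 2 * C * 2 ^ (i + 1) / (((i : ℝ) + 1) * Real.log 2) * (1 / (2 ^ i * (r : ℝ))) :=
        mul_le_mul_of_nonneg_right hcard (by positivity)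
    _ = 4 * C / (Real.log 2 * r) * (1 / ((i : ℝ) + 1)) := by
        rw [pow_succ]
        field_simp
        ring

theorem t_bts : S_BTS := by
  obtain ⟨C, hC1, hC⟩ := Pool.Agent.Helper602.MK.BTLib.brun_titchmarsh
  have hl2 : 0 < Real.log 2 := Real.log_pos (by norm_num)
  refine ⟨12 * C / Real.log 2, by positivity, fun N hN r hr => ?_⟩
  have hr0 : (0 : ℝ) < r := by exact_mod_cast hr.pos
  rw [← sum_fiberwise_of_maps_to (t := range (Nat.log 2 N + 1))
    (g := fun p => Nat.log 2 ((p - 1) / r)) (fun p hp => by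
      rw [mem_filter, mem_Icc] at hp
      rw [mem_range, Nat.lt_succ_iff]
      refine Nat.log_mono_right ?_
      exact (Nat.div_le_self _ _).trans ((Nat.sub_le _ _).trans hp.1.2))]
  calc _ ≤ ∑ i ∈ range (Nat.log 2 N + 1), 4 * C / (Real.log 2 * r) * (1 / ((i : ℝ) + 1)) :=
        sum_le_sum fun i _ => bts_block hC hC1 N hr i
    _ = 4 * C / (Real.log 2 * r) * ∑ i ∈ range (Nat.log 2 N + 1), (1 : ℝ) / ((i : ℝ) + 1) := by
        rw [← mul_sum]
    _ ≤ 4 * C / (Real.log 2 * r) * (3 * Real.log (Real.log N)) :=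
        mul_le_mul_of_nonneg_left (bts_harm hN) (by positivity)
    _ = 12 * C / Real.log 2 * Real.log (Real.log N) / r := by
        field_simp
        ring

end Pool.Agent.H633.CY.BTS
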