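import Pool.Agent.H633.CY.Stm

/-! Part DEC of the project CY, written by helper282. -/

set_option autoImplicit false

/-!
The step DEC of project CY (helper633): a finite abelian group of order `p m`, `p` a prime not
dividing `m`, is the product of a group of order `p` and a group of order `m`.
-/

namespace Pool.Agent.H633.CY.DEC

open Pool.Agent.H633.CY

theorem t_dec : S_DEC := by
  classical
  intro G _ _ p m hp hcard hpm
  have hcop : Nat.Coprime p m := (Nat.Prime.coprime_iff_not_dvd hp).2 hpm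
  have hm0 : m ≠ 0 := by
    rintro rfl
    exact hpm (dvd_zero p)
  let A : AddSubgroup G := (nsmulAddMonoidHom p : G →+ G).ker
  let B : AddSubgroup G := (nsmulAddMonoidHom m : G →+ G).ker
  have memA : ∀ x : G, x ∈ A ↔ p • x = 0 := fun x => Iff.rfl
  have memB : ∀ x : G, x ∈ B ↔ m • x = 0 := fun x => Iff.rfl
  have hG : ∀ g : G, (p * m) • g = 0 := by
    intro g
    rw [← hcard]
    exact card_nsmul_eq_zero
  let f : A × B →+ G := A.subtype.coprod B.subtype
  have fapp : ∀ x : A × B, f x = (x.1 : G) + (x.2 : G) := fun x => rfl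
  have hinj : Function.Injective f := by
    rw [injective_iff_map_eq_zero]
    rintro ⟨⟨a, ha⟩, ⟨b, hb⟩⟩ h
    rw [fapp] at h
    rw [memA] at ha
    rw [memB] at hb
    have h1 : a = -b := eq_neg_of_add_eq_zero_left h
    have h2 : m • a = 0 := by rw [h1, smul_neg, hb, neg_zero]
    have h3 : addOrderOf a ∣ 1 := by
      rw [← Nat.Coprime.gcd_eq_one hcop]
      exact Nat.dvd_gcd (addOrderOf_dvd_of_nsmul_eq_zero ha) (addOrderOf_dvd_of_nsmul_eq_zero h2)
    have h4 : a = 0 := by
      rw [Nat.dvd_one, AddMonoid.addOrderOf_eq_one_iff] at h3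
      exact h3
    have h5 : b = 0 := by rw [h4, zero_eq_neg] at h1; exact h1
    subst h4 h5
    rfl
  have hsurj : Function.Surjective f := by
    intro g
    have hb := Nat.gcd_eq_gcd_ab p m
    rw [Nat.Coprime.gcd_eq_one hcop] at hb
    have hg : g = ((m : ℤ) * Nat.gcdB p m) • g + ((p : ℤ) * Nat.gcdA p m) • g := by
      rw [← add_smul, add_comm, ← hb]
      simp
    have hA : ((m : ℤ) * Nat.gcdB p m) • g ∈ A := by
      rw [memA, ← natCast_zsmul, ← mul_smul]
      have : (p : ℤ) * ((m : ℤ) * Nat.gcdB p m) = Nat.gcdB p m * ((p * m : ℕ) : ℤ) := by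
        push_cast
        ring
      rw [this, mul_smul, natCast_zsmul, hG, smul_zero]
    have hB : ((p : ℤ) * Nat.gcdA p m) • g ∈ B := by
      rw [memB, ← natCast_zsmul, ← mul_smul]
      have : (m : ℤ) * ((p : ℤ) * Nat.gcdA p m) = Nat.gcdA p m * ((p * m : ℕ) : ℤ) := by
        push_cast
        ring
      rw [this, mul_smul, natCast_zsmul, hG, smul_zero]
    exact ⟨(⟨_, hA⟩, ⟨_, hB⟩), hg.symm⟩
  let e : (A × B) ≃+ G := AddEquiv.ofBijective f ⟨hinj, hsurj⟩
  have hAB : Fintype.card A * Fintype.card B = p * m := by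
    rw [← Fintype.card_prod, ← hcard]
    exact Fintype.card_congr e.toEquiv
  have hfp : Fact p.Prime := ⟨hp⟩
  -- `p` divides the order of `A`
  have hpA : p ∣ Fintype.card A := by
    obtain ⟨x, hx⟩ := exists_prime_addOrderOf_dvd_card (G := G) p
      (hcard ▸ Dvd.intro m rfl : p ∣ Fintype.card G)
    have hxA : x ∈ A := by
      rw [memA, ← hx]
      exact addOrderOf_nsmul_eq_zero x
    have h1 : addOrderOf (⟨x, hxA⟩ : A) = p := by
      rw [← hx]
      exact AddSubgroup.addOrderOf_mk x hxA
    have h2 : addOrderOf (⟨x, hxA⟩ : A) ∣ Fintype.card A := addOrderOf_dvd_card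
    exact (dvd_of_eq h1.symm).trans h2
  -- the order of `A` is prime to `m`
  have hAm : Nat.Coprime (Fintype.card A) m := by
    refine Nat.Coprime.symm (Nat.coprime_of_dvd ?_)
    intro q hq hqm hqA
    have hfq : Fact q.Prime := ⟨hq⟩
    obtain ⟨x, hx⟩ := exists_prime_addOrderOf_dvd_card (G := A) q hqA
    have h1 : p • x = 0 := Subtype.ext ((memA (x : G)).1 x.2)
    have h2 : q ∣ p := by
      rw [← hx]
      exact addOrderOf_dvd_of_nsmul_eq_zero h1
    rw [Nat.prime_dvd_prime_iff_eq hq hp] at h2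
    exact hpm (h2 ▸ hqm)
  have hAp : Fintype.card A = p := by
    refine Nat.dvd_antisymm ?_ hpA
    exact hAm.dvd_of_dvd_mul_right (hAB ▸ Dvd.intro _ rfl)
  have hBm : Fintype.card B = m := by
    rw [hAp] at hAB
    exact Nat.eq_of_mul_eq_mul_left hp.pos hAB
  exact ⟨A, B, inferInstance, inferInstance, inferInstance, inferInstance, e, hAp, hBm⟩

end Pool.Agent.H633.CY.DEC
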