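import Pool.Agent.H633.CY.Stm

/-! Part DIM of the project CY, written by helper52. -/

/-! DIM: dimension of the sum of the spaces `Inv p`. -/

set_option autoImplicit false

namespace Pool.Agent.H633.CY.DIM

open Pool.Agent.H633.CY

/-- the pull back of functions along a map -/
def pb (F : Type) [Field F] {G Q : Type} (φ : G → Q) : (Q → F) →ₗ[F] (G → F) where
  toFun c := fun x => c (φ x)
  map_add' _ _ := rfl
  map_smul' _ _ := rfl

theorem finrank_Inv_le (F : Type) [Field F] (G : Type) [AddCommGroup G] [Fintype G] (p : ℕ)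
    (hp : p.Prime) (hd : p ∣ Fintype.card G) :
    Module.finrank F (Inv F G p) ≤ Fintype.card G / p := by
  classical
  have hpf : Fact p.Prime := ⟨hp⟩
  obtain ⟨u, hu⟩ := exists_prime_addOrderOf_dvd_card p hd
  have hfin : Fintype (G ⧸ AddSubgroup.zmultiples u) := Fintype.ofFinite _
  let φ : G → G ⧸ AddSubgroup.zmultiples u := fun x => (x : G ⧸ AddSubgroup.zmultiples u)
  have hle : Inv F G p ≤ LinearMap.range (pb F φ) := by
    intro c hc
    have hc' : ∀ a : G, p • a = 0 → ∀ x, c (x + a) = c x := hc
    have hinv : ∀ x y : G, φ x = φ y → c x = c y := by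
      intro x y hxy
      have h1 : -x + y ∈ AddSubgroup.zmultiples u := QuotientAddGroup.eq.1 hxy
      obtain ⟨k, hk⟩ := AddSubgroup.mem_zmultiples_iff.1 h1
      have h2 : p • (-x + y) = 0 := by
        rw [← hk, smul_comm, ← hu, addOrderOf_nsmul_eq_zero, smul_zero]
      have h3 := hc' _ h2 x
      rw [add_neg_cancel_left] at h3
      exact h3.symm
    refine ⟨fun z => c (Quotient.out z), ?_⟩
    funext x
    apply hinv
    exact Quotient.out_eq (φ x)
  have h1 : Module.finrank F (Inv F G p) ≤ Module.finrank F (LinearMap.range (pb F φ)) :=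
    Submodule.finrank_mono hle
  have h2 : Module.finrank F (LinearMap.range (pb F φ)) ≤
      Module.finrank F (G ⧸ AddSubgroup.zmultiples u → F) := LinearMap.finrank_range_le _
  rw [Module.finrank_fintype_fun_eq_card] at h2
  have h3 : Fintype.card (G ⧸ AddSubgroup.zmultiples u) = Fintype.card G / p := by
    have h4 := AddSubgroup.card_eq_card_quotient_mul_card_addSubgroup (AddSubgroup.zmultiples u)
    rw [Nat.card_zmultiples, hu] at h4
    rw [Nat.card_eq_fintype_card, Nat.card_eq_fintype_card] at h4
    rw [h4, Nat.mul_div_cancel _ hp.pos]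
  rw [← h3]
  exact h1.trans h2

theorem t_dim : S_DIM := by
  intro F _ G _ _ S
  classical
  induction S using Finset.induction_on with
  | empty =>
    intro _
    simp
  | insert p S hpS ih =>
    intro h
    have h1 := ih (fun r hr => h r (Finset.mem_insert_of_mem hr))
    have h2 := h p (Finset.mem_insert_self _ _)
    have h3 := finrank_Inv_le F G p h2.1 h2.2
    rw [Finset.iSup_insert, Finset.sum_insert hpS]
    exact (Submodule.finrank_add_le_finrank_add_finrank _ _).trans (add_le_add h3 h1)

end Pool.Agent.H633.CY.DIM
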