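import Pool.Agent.H633.CY.Stm2
import Pool.Graph.R_seed8.Y829.SB4

/-! Lower bound for the number of the good primes in `(U, 2 U]` (task DYA of helper633; written by helper734, exponent one). -/

set_option autoImplicit false

open Finset Filter

namespace Pool.Agent.H633.CY

namespace DYA1

open Classical in
/-- the combinatorial part -/
theorem comb (U l y0 y : ℕ) (V : ℝ) (hl : l.Prime) (_hly : l ≤ y0)
    (hy : ∀ r : ℕ, (r : ℝ) ≤ V → r ≤ y) (T R : Finset ℕ)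
    (hT : ∀ t : ℕ, t.Prime → 3 ≤ t → t ≤ y0 → t ≠ l → t ∈ T)
    (hR : ∀ r : ℕ, r.Prime → y0 < r → r ≤ y → r ∈ R) (a : ℕ → ℕ)
    (ha : ∀ r ∈ R, ∀ p : ℕ, p.Prime → p ≡ 4 * l - 1 [MOD 4 * l] → r ∣ p - 1 →
      p ≡ a r [MOD 4 * l * r]) :
    ((Ioc U (2 * U)).filter (fun p : ℕ => p.Prime ∧ p ≡ 4 * l - 1 [MOD 4 * l] ∧
      ∀ t ∈ T, ¬ t ∣ p - 1)).card ≤
    ((Ioc U (2 * U)).filter (fun p : ℕ => p.Prime ∧ 4 * l ∣ p + 1 ∧
      ∀ r : ℕ, r.Prime → 3 ≤ r → (r : ℝ) ≤ V → ¬ r ∣ p - 1)).card +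
    ∑ r ∈ R, ((Ioc U (2 * U)).filter (fun p : ℕ => p.Prime ∧ p ≡ a r [MOD 4 * l * r] ∧
      ∀ t ∈ T, ¬ t ∣ p - 1)).card := by
  have hl2 := hl.two_le
  have hsub : ((Ioc U (2 * U)).filter (fun p : ℕ => p.Prime ∧ p ≡ 4 * l - 1 [MOD 4 * l] ∧
      ∀ t ∈ T, ¬ t ∣ p - 1)) ⊆
      ((Ioc U (2 * U)).filter (fun p : ℕ => p.Prime ∧ 4 * l ∣ p + 1 ∧
        ∀ r : ℕ, r.Prime → 3 ≤ r → (r : ℝ) ≤ V → ¬ r ∣ p - 1)) ∪
      R.biUnion (fun r => (Ioc U (2 * U)).filter (fun p : ℕ => p.Prime ∧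
        p ≡ a r [MOD 4 * l * r] ∧ ∀ t ∈ T, ¬ t ∣ p - 1)) := by
    intro p hp
    rw [mem_filter] at hp
    obtain ⟨hpU, hpp, hpm, hpT⟩ := hp
    rw [mem_union, mem_biUnion]
    by_cases hr : ∃ r ∈ R, r ∣ p - 1
    · right
      obtain ⟨r, hrR, hrp⟩ := hr
      refine ⟨r, hrR, ?_⟩
      rw [mem_filter]
      exact ⟨hpU, hpp, ha r hrR p hpp hpm hrp, hpT⟩
    · left
      push Not at hr
      rw [mem_filter]
      have h4l : 4 * l ∣ p + 1 := by
        have h1 : p + 1 ≡ 4 * l - 1 + 1 [MOD 4 * l] := hpm.add_right 1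
        have h2 : 4 * l - 1 + 1 = 4 * l := by omega
        rw [h2] at h1
        exact (Nat.modEq_zero_iff_dvd).1 (h1.trans ((Nat.modEq_zero_iff_dvd).2 dvd_rfl))
      refine ⟨hpU, hpp, h4l, fun r hrp hr3 hrV hrd => ?_⟩
      have hry := hy r hrV
      rcases le_or_gt r y0 with h1 | h1
      · by_cases h2 : r = l
        · have h3 : l ∣ p + 1 := (dvd_mul_left l 4).trans h4l
          rw [h2] at hrd hr3
          have h4 : l ∣ (p + 1) - (p - 1) := Nat.dvd_sub h3 hrd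
          have h5 : (p + 1) - (p - 1) = 2 := by
            have := hpp.two_le
            omega
          rw [h5] at h4
          have := Nat.le_of_dvd (by norm_num) h4
          omega
        · exact hpT r (hT r hrp hr3 h1 h2) hrd
      · exact hr r (hR r hrp h1 hry) hrd
  exact (card_le_card hsub).trans ((card_union_le _ _).trans
    (Nat.add_le_add_left card_biUnion_le _))

/-- the analytic inequalities -/
theorem growth (l φ : ℕ) (c : ℝ) (hc : 0 < c) (x0 : ℕ) : ∃ v0 : ℝ, ∀ v : ℝ, v0 ≤ v →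
    2 ≤ v ∧ (l : ℝ) + 1 ≤ v ^ (9 / 10 : ℝ) ∧
    4 * l * v ^ (11 / 5 : ℝ) * Real.exp (Real.log 4 * v ^ (9 / 10 : ℝ)) ≤ Real.exp (v / 3) ∧
    (1 + v ^ (11 / 5 : ℝ)) * Real.exp (Real.log 4 * v ^ (9 / 10 : ℝ)) ≤ Real.exp (v / 3) ∧
    80 * φ * Real.log v ^ 1 ≤ c * Real.exp v ∧ (x0 : ℝ) ≤ Real.exp (Real.exp (v / 3)) := by
  have h1 : ∀ᶠ v : ℝ in atTop, (2 : ℝ) ≤ v := eventually_ge_atTop 2
  have h2 : ∀ᶠ v : ℝ in atTop, (l : ℝ) + 1 ≤ v ^ (9 / 10 : ℝ) :=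
    (tendsto_rpow_atTop (by norm_num : (0 : ℝ) < 9 / 10)).eventually_ge_atTop _
  have h3 : ∀ᶠ v : ℝ in atTop, (12 : ℝ) ≤ v ^ (1 / 10 : ℝ) :=
    (tendsto_rpow_atTop (by norm_num : (0 : ℝ) < 1 / 10)).eventually_ge_atTop _
  have h4 := (isLittleO_rpow_exp_pos_mul_atTop (11 / 5) (by norm_num : (0 : ℝ) < 1 / 6)).def
    (show (0 : ℝ) < 1 / (4 * l + 2) by positivity)
  have h5 := (Real.isLittleO_pow_exp_atTop (n := 3)).def
    (show (0 : ℝ) < c / (80 * φ + 1) by positivity)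
  have h6 : ∀ᶠ v : ℝ in atTop, (x0 : ℝ) ≤ Real.exp (Real.exp (v / 3)) := by
    have : Tendsto (fun v : ℝ => Real.exp (Real.exp (v / 3))) atTop atTop :=
      Real.tendsto_exp_atTop.comp (Real.tendsto_exp_atTop.comp
        (tendsto_id.atTop_div_const (by norm_num)))
    exact this.eventually_ge_atTop _
  obtain ⟨v0, hv0⟩ := (h1.and (h2.and (h3.and (h4.and (h5.and h6))))).exists_forall_of_atTop
  refine ⟨v0, fun v hv => ?_⟩
  obtain ⟨e1, e2, e3, e4, e5, e6⟩ := hv0 v hv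
  have hv0' : 0 < v := by linarith
  have hlog4 : Real.log 4 ≤ 2 := by
    have h7 : Real.log 4 = 2 * Real.log 2 := by
      rw [show (4 : ℝ) = 2 ^ 2 by norm_num, Real.log_pow]
      norm_num
    have := Real.log_two_lt_d9
    rw [h7]
    linarith
  have hvv : v ^ (9 / 10 : ℝ) * v ^ (1 / 10 : ℝ) = v := by
    rw [← Real.rpow_add hv0']
    norm_num
  have h9 : (0 : ℝ) ≤ v ^ (9 / 10 : ℝ) := by positivity
  have hexp : Real.exp (Real.log 4 * v ^ (9 / 10 : ℝ)) ≤ Real.exp (v / 6) := by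
    rw [Real.exp_le_exp]
    have i1 := mul_le_mul_of_nonneg_left e3 h9
    have i2 := mul_le_mul_of_nonneg_right hlog4 h9
    rw [hvv] at i1
    linarith
  have h11 : (4 * l + 2) * v ^ (11 / 5 : ℝ) ≤ Real.exp (v / 6) := by
    rw [Real.norm_of_nonneg (by positivity), Real.norm_of_nonneg (by positivity),
      one_div, inv_mul_eq_div, le_div_iff₀ (by positivity)] at e4
    have e : (1 / 6 : ℝ) * v = v / 6 := by ring
    rw [e] at e4
    linarith
  have h12 : (1 : ℝ) ≤ v ^ (11 / 5 : ℝ) := Real.one_le_rpow (by linarith) (by norm_num)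
  have hsum : Real.exp (v / 6) * Real.exp (v / 6) = Real.exp (v / 3) := by
    rw [← Real.exp_add]
    congr 1
    ring
  have hl0 : (0 : ℝ) ≤ l := Nat.cast_nonneg l
  refine ⟨e1, e2, ?_, ?_, ?_, e6⟩
  · rw [← hsum]
    refine mul_le_mul ?_ hexp (Real.exp_pos _).le (Real.exp_pos _).le
    nlinarith
  · rw [← hsum]
    refine mul_le_mul ?_ hexp (Real.exp_pos _).le (Real.exp_pos _).le
    nlinarith
  · have hlv : Real.log v ≤ v := (Real.log_le_sub_one_of_pos hv0').trans (by linarith)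
    have hlv0 : 0 ≤ Real.log v := Real.log_nonneg (by linarith)
    have i1 : Real.log v ^ 1 ≤ v ^ 3 := by
      rw [pow_one]
      refine hlv.trans ?_
      nlinarith [mul_pos hv0' hv0', mul_nonneg (sub_nonneg.2 (by linarith : (1 : ℝ) ≤ v)) hv0'.le, mul_nonneg (sub_nonneg.2 (by linarith : (1 : ℝ) ≤ v)) (mul_pos hv0' hv0').le]
    rw [Real.norm_of_nonneg (by positivity), Real.norm_of_nonneg (Real.exp_pos _).le,
      div_mul_eq_mul_div, le_div_iff₀ (by positivity)] at e5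
    have i2 : (0 : ℝ) ≤ v ^ 3 := by positivity
    have i3 : (80 * φ : ℝ) * Real.log v ^ 1 ≤ 80 * φ * v ^ 3 :=
      mul_le_mul_of_nonneg_left i1 (by positivity)
    linarith

end DYA1

open DYA1 in
theorem t_dya1 (h1 : S_LEG) (h2 : S_MER1) : S_DYA1 := by
  intro l hl
  have hl2 := hl.two_le
  obtain ⟨x1, hLEG⟩ := h1 2 5
  obtain ⟨c1, v1, hc1, hMER⟩ := h2
  obtain ⟨x2, hx23, hHP⟩ := Pool.Agent.Y829.SB.HP_low
  obtain ⟨φ, hφ⟩ : ∃ φ : ℕ, φ = (4 * l).totient := ⟨_, rfl⟩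
  have hφ0 : 0 < φ := by
    rw [hφ]
    exact Nat.totient_pos.2 (by omega)
  have hφr : (0 : ℝ) < φ := by exact_mod_cast hφ0
  obtain ⟨v2, hgr⟩ := growth l φ c1 hc1 (max x1 x2)
  refine ⟨c1 / (80 * φ), max v1 v2, by positivity, ?_⟩
  intro v U hv hvU
  obtain ⟨m1, m2⟩ := hMER v ((le_max_left _ _).trans hv)
  obtain ⟨g1, g2, g3, g4, g5, g6⟩ := hgr v ((le_max_right _ _).trans hv)
  have hv0 : 0 < v := by linarith
  -- `L = log U`
  obtain ⟨L, hL⟩ : ∃ L : ℝ, L = Real.log U := ⟨_, rfl⟩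
  rw [← hL] at hvU
  have hL0 : 0 ≤ L := by rw [hL]; exact Real.log_natCast_nonneg U
  have hLpos : 0 < L := by
    rcases hL0.lt_or_eq with h | h
    · exact h
    · exfalso
      rw [← h, Real.log_zero] at hvU
      linarith
  have hLexp : Real.exp (v / 3) ≤ L := by
    rw [← Real.le_log_iff_exp_le hLpos]
    linarith
  have hU0 : (0 : ℝ) < U := by
    rcases Nat.eq_zero_or_pos U with h | h
    · exfalso
      rw [h, Nat.cast_zero, Real.log_zero] at hL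
      linarith
    · exact_mod_cast h
  have hUx : ((max x1 x2 : ℕ) : ℝ) ≤ U := by
    refine g6.trans ?_
    rw [← Real.exp_log hU0, ← hL]
    exact Real.exp_le_exp.2 hLexp
  have hUx' : max x1 x2 ≤ U := by exact_mod_cast hUx
  obtain ⟨k1, -⟩ := hHP U ((le_max_right _ _).trans hUx')
  have hLEG' := hLEG U ((le_max_left _ _).trans hUx')
  rw [← hL] at k1 hLEG'
  -- the sets
  obtain ⟨y0, hy0⟩ : ∃ y0 : ℕ, y0 = ⌊v ^ (9 / 10 : ℝ)⌋₊ := ⟨_, rfl⟩
  obtain ⟨y, hy⟩ : ∃ y : ℕ, y = ⌊v ^ (11 / 5 : ℝ)⌋₊ := ⟨_, rfl⟩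
  rw [← hy0, ← hy] at m1
  rw [← hy0] at m2
  have h9 : (0 : ℝ) ≤ v ^ (9 / 10 : ℝ) := by positivity
  have h11 : (0 : ℝ) ≤ v ^ (11 / 5 : ℝ) := by positivity
  have hy0le : (y0 : ℝ) ≤ v ^ (9 / 10 : ℝ) := by rw [hy0]; exact Nat.floor_le h9
  have hyle : (y : ℝ) ≤ v ^ (11 / 5 : ℝ) := by rw [hy]; exact Nat.floor_le h11
  have hly : l ≤ y0 := by
    rw [hy0]
    exact Nat.le_floor (by linarith)
  obtain ⟨T, hT⟩ : ∃ T : Finset ℕ, T = ((Icc 3 y0).filter Nat.Prime).erase l := ⟨_, rfl⟩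
  obtain ⟨R, hR⟩ : ∃ R : Finset ℕ, R = (Ioc y0 y).filter Nat.Prime := ⟨_, rfl⟩
  rw [← hR] at m1
  have hTm : ∀ t, t ∈ T ↔ t.Prime ∧ 3 ≤ t ∧ t ≤ y0 ∧ t ≠ l := by
    intro t
    rw [hT, mem_erase, mem_filter, mem_Icc]
    tauto
  have hRm : ∀ r, r ∈ R ↔ r.Prime ∧ y0 < r ∧ r ≤ y := by
    intro r
    rw [hR, mem_filter, mem_Ioc]
    tauto
  have hTp : ∀ t ∈ T, t.Prime ∧ ¬ t ∣ 4 * l := by
    intro t ht
    obtain ⟨a1, a2, a3, a4⟩ := (hTm t).1 ht
    refine ⟨a1, fun hd => ?_⟩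
    rcases (Nat.Prime.dvd_mul a1).1 hd with h | h
    · have h5 : t ∣ 2 ^ 2 := by norm_num; exact h
      have h6 := (Nat.prime_dvd_prime_iff_eq a1 Nat.prime_two).1 (a1.dvd_of_dvd_pow h5)
      omega
    · exact a4 ((Nat.prime_dvd_prime_iff_eq a1 hl).1 h)
  have hTp2 : ∀ r ∈ R, ∀ t ∈ T, t.Prime ∧ ¬ t ∣ 4 * l * r := by
    intro r hr t ht
    obtain ⟨b1, b2, b3⟩ := (hRm r).1 hr
    obtain ⟨a1, a2, a3, a4⟩ := (hTm t).1 ht
    refine ⟨a1, fun hd => ?_⟩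
    rcases (Nat.Prime.dvd_mul a1).1 hd with h | h
    · exact (hTp t ht).2 h
    · have := (Nat.prime_dvd_prime_iff_eq a1 b1).1 h
      omega
  have hcop : ∀ r ∈ R, (4 * l).Coprime r := by
    intro r hr
    obtain ⟨b1, b2, b3⟩ := (hRm r).1 hr
    rw [Nat.coprime_comm, Nat.Prime.coprime_iff_not_dvd b1]
    intro hd
    rcases (Nat.Prime.dvd_mul b1).1 hd with h | h
    · have h5 : r ∣ 2 ^ 2 := by norm_num; exact h
      have h6 := (Nat.prime_dvd_prime_iff_eq b1 Nat.prime_two).1 (b1.dvd_of_dvd_pow h5)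
      omega
    · have := (Nat.prime_dvd_prime_iff_eq b1 hl).1 h
      omega
  -- residue classes
  have hcop1 : (4 * l - 1).Coprime (4 * l) := by
    have h3 : 4 * l = (4 * l - 1) + 1 := by omega
    rw [h3, Nat.add_sub_cancel]
    exact Nat.coprime_self_add_right.2 (Nat.coprime_one_right _)
  have hex : ∀ r : ℕ, ∃ k : ℕ, r ∈ R → k ≡ 4 * l - 1 [MOD 4 * l] ∧ k ≡ 1 [MOD r] := by
    intro r
    by_cases hr : r ∈ R
    · obtain ⟨k, hk1, hk2⟩ := Nat.chineseRemainder (hcop r hr) (4 * l - 1) 1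
      exact ⟨k, fun _ => ⟨hk1, hk2⟩⟩
    · exact ⟨0, fun h => absurd h hr⟩
  choose a ha using hex
  have hacop : ∀ r ∈ R, (a r).Coprime (4 * l * r) := by
    intro r hr
    obtain ⟨a1, a2⟩ := ha r hr
    refine Nat.Coprime.mul_right ?_ ?_
    · have : Nat.gcd (a r) (4 * l) = Nat.gcd (4 * l - 1) (4 * l) := a1.gcd_eq
      rw [Nat.Coprime, this]
      exact hcop1
    · have : Nat.gcd (a r) r = Nat.gcd 1 r := a2.gcd_eq
      rw [Nat.Coprime, this]
      exact Nat.gcd_one_left r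
  -- the product of the primes
  have hprod : ((∏ t ∈ T, t : ℕ) : ℝ) ≤ Real.exp (Real.log 4 * v ^ (9 / 10 : ℝ)) := by
    have i1 : ∏ t ∈ T, t ≤ primorial y0 := by
      unfold primorial
      refine Finset.prod_le_prod_of_subset_of_one_le' ?_ fun t ht _ => ?_
      · intro t ht
        obtain ⟨a1, a2, a3, a4⟩ := (hTm t).1 ht
        rw [mem_filter, mem_range]
        exact ⟨by omega, a1⟩
      · exact (mem_filter.1 ht).2.one_lt.le
    have i2 : ∏ t ∈ T, t ≤ 4 ^ y0 := i1.trans (primorial_le_four_pow y0)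
    have i3 : ((∏ t ∈ T, t : ℕ) : ℝ) ≤ (4 : ℝ) ^ y0 := by exact_mod_cast i2
    refine i3.trans ?_
    have i4 : (4 : ℝ) ^ y0 = Real.exp (Real.log 4 * y0) := by
      rw [Real.exp_mul, Real.exp_log (by norm_num), Real.rpow_natCast]
    rw [i4, Real.exp_le_exp]
    exact mul_le_mul_of_nonneg_left hy0le (Real.log_nonneg (by norm_num))
  have hL1 : 1 ≤ L := (Real.one_le_exp (by linarith)).trans hLexp
  have hLL : L ≤ L ^ 2 := by nlinarith
  have hw1 : ((4 * l * ∏ t ∈ T, t : ℕ) : ℝ) ≤ L ^ 2 := by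
    refine le_trans ?_ (hLexp.trans hLL)
    refine le_trans ?_ g3
    rw [Nat.cast_mul (4 * l)]
    refine mul_le_mul ?_ hprod (Nat.cast_nonneg _) (by positivity)
    push_cast
    have : (1 : ℝ) ≤ v ^ (11 / 5 : ℝ) := Real.one_le_rpow (by linarith) (by norm_num)
    have hl0 : (0 : ℝ) ≤ 4 * l := by positivity
    nlinarith
  have hw2 : ∀ r ∈ R, ((4 * l * r * ∏ t ∈ T, t : ℕ) : ℝ) ≤ L ^ 2 := by
    intro r hr
    obtain ⟨b1, b2, b3⟩ := (hRm r).1 hr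
    have hry : (r : ℝ) ≤ v ^ (11 / 5 : ℝ) := le_trans (by exact_mod_cast b3) hyle
    refine le_trans ?_ (hLexp.trans hLL)
    refine le_trans ?_ g3
    rw [Nat.cast_mul (4 * l * r)]
    refine mul_le_mul ?_ hprod (Nat.cast_nonneg _) (by positivity)
    push_cast
    exact mul_le_mul_of_nonneg_left hry (by positivity)
  -- the counts
  have hA := hLEG' (4 * l) (4 * l - 1) T (by omega) hcop1 hTp hw1
  have hAr := fun r (hr : r ∈ R) => hLEG' (4 * l * r) (a r) T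
    (Nat.mul_pos (by omega) ((hRm r).1 hr).1.pos) (hacop r hr) (hTp2 r hr) (hw2 r hr)
  have hcomb := comb U l y0 y (v ^ (11 / 5 : ℝ)) hl hly
    (fun r hr => by rw [hy]; exact Nat.le_floor hr) T R
    (fun t a1 a2 a3 a4 => (hTm t).2 ⟨a1, a2, a3, a4⟩) (fun r b1 b2 b3 => (hRm r).2 ⟨b1, b2, b3⟩) a
    (fun r hr p hp hpm hrp => by
      obtain ⟨a1, a2⟩ := ha r hr
      rw [← Nat.modEq_and_modEq_iff_modEq_mul (hcop r hr)]
      refine ⟨hpm.trans a1.symm, ?_⟩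
      have i1 : p ≡ 1 [MOD r] := by
        have := (Nat.modEq_iff_dvd' hp.one_lt.le).2 hrp
        exact this.symm
      exact i1.trans a2.symm)
  obtain ⟨X, hX⟩ : ∃ X : ℝ, X = ((((Ioc U (2 * U)).filter Nat.Prime).card : ℕ) : ℝ) := ⟨_, rfl⟩
  have hX1 : U / (2 * L) ≤ X := by rw [hX]; exact k1
  rw [← hX] at hA
  obtain ⟨Q, hQ⟩ : ∃ Q : ℝ, Q = ∏ t ∈ T, (1 - 1 / ((t : ℝ) - 1)) := ⟨_, rfl⟩
  rw [← hQ, ← hφ] at hA
  obtain ⟨E, hE⟩ : ∃ E : ℝ, E = 2 ^ T.card * (U / L ^ 5) := ⟨_, rfl⟩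
  rw [← hE] at hA
  have hAr' : ∀ r ∈ R, ((((Ioc U (2 * U)).filter (fun p : ℕ => p.Prime ∧
      p ≡ a r [MOD 4 * l * r] ∧ ∀ t ∈ T, ¬ t ∣ p - 1)).card : ℕ) : ℝ) ≤
      X / φ * Q * (1 / ((r : ℝ) - 1)) + E := by
    intro r hr
    have h := hAr r hr
    obtain ⟨b1, b2, b3⟩ := (hRm r).1 hr
    rw [← hX, ← hQ, ← hE] at h
    have h3 := (abs_le.1 h).2
    have h4 : ((4 * l * r).totient : ℝ) = φ * ((r : ℝ) - 1) := by
      rw [Nat.totient_mul (hcop r hr), Nat.totient_prime b1, ← hφ, Nat.cast_mul,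
        Nat.cast_sub b1.one_lt.le, Nat.cast_one]
    rw [h4] at h3
    have h5 : X / (φ * ((r : ℝ) - 1)) * Q = X / φ * Q * (1 / ((r : ℝ) - 1)) := by
      rw [div_mul_eq_div_div]
      ring
    rw [h5] at h3
    linarith
  -- the product
  have hfac : ∀ t : ℕ, 3 ≤ t → 0 ≤ 1 - 1 / ((t : ℝ) - 1) ∧ 1 - 1 / ((t : ℝ) - 1) ≤ 1 := by
    intro t ht
    have h3 : (3 : ℝ) ≤ t := by exact_mod_cast ht
    have h4 : (0 : ℝ) < (t : ℝ) - 1 := by linarith
    have h5 : 1 / ((t : ℝ) - 1) ≤ 1 := by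
      rw [div_le_one h4]
      linarith
    have h6 : 0 ≤ 1 / ((t : ℝ) - 1) := by positivity
    exact ⟨by linarith, by linarith⟩
  have hQ0 : 0 ≤ Q := by
    rw [hQ]
    exact Finset.prod_nonneg fun t ht => (hfac t ((hTm t).1 ht).2.1).1
  have hQ1 : c1 / Real.log v ^ 1 ≤ Q := by
    refine m2.trans ?_
    by_cases hlm : l ∈ (Icc 3 y0).filter Nat.Prime
    · rw [← Finset.mul_prod_erase _ _ hlm, ← hT, ← hQ]
      have := (hfac l (mem_Icc.1 (mem_filter.1 hlm).1).1).2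
      exact mul_le_of_le_one_left hQ0 this
    · rw [hQ, hT, Finset.erase_eq_of_notMem hlm]
  -- cardinalities
  have hTc : T.card ≤ y0 := by
    rw [hT]
    refine (card_erase_le).trans ((card_filter_le _ _).trans ?_)
    rw [Nat.card_Icc]
    omega
  have hRc : R.card ≤ y := by
    rw [hR]
    refine (card_filter_le _ _).trans ?_
    rw [Nat.card_Ioc]
    omega
  have hE1 : (1 + (R.card : ℝ)) * E ≤ U / L ^ 4 := by
    have i1 : (2 : ℝ) ^ T.card ≤ Real.exp (Real.log 4 * v ^ (9 / 10 : ℝ)) := by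
      have i2 : (2 : ℝ) ^ T.card ≤ (4 : ℝ) ^ y0 :=
        (pow_le_pow_left₀ (by norm_num) (by norm_num) _).trans
          (pow_le_pow_right₀ (by norm_num) hTc)
      refine i2.trans ?_
      have i4 : (4 : ℝ) ^ y0 = Real.exp (Real.log 4 * y0) := by
        rw [Real.exp_mul, Real.exp_log (by norm_num), Real.rpow_natCast]
      rw [i4, Real.exp_le_exp]
      exact mul_le_mul_of_nonneg_left hy0le (Real.log_nonneg (by norm_num))
    have i3 : 1 + (R.card : ℝ) ≤ 1 + v ^ (11 / 5 : ℝ) := by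
      have : (R.card : ℝ) ≤ y := by exact_mod_cast hRc
      linarith
    have i4 : (1 + (R.card : ℝ)) * 2 ^ T.card ≤ L := by
      refine le_trans ?_ (g4.trans hLexp)
      exact mul_le_mul i3 i1 (by positivity) (by positivity)
    rw [hE, ← mul_assoc]
    calc (1 + (R.card : ℝ)) * 2 ^ T.card * (U / L ^ 5) ≤ L * (U / L ^ 5) :=
          mul_le_mul_of_nonneg_right i4 (by positivity)
      _ = U / L ^ 4 := by
          field_simp
  -- the conclusion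
  have hcomb' : ((((Ioc U (2 * U)).filter (fun p : ℕ => p.Prime ∧ p ≡ 4 * l - 1 [MOD 4 * l] ∧
      ∀ t ∈ T, ¬ t ∣ p - 1)).card : ℕ) : ℝ) ≤ _ := Nat.cast_le.2 hcomb
  rw [Nat.cast_add, Nat.cast_sum] at hcomb'
  have hsum := Finset.sum_le_sum hAr'
  rw [Finset.sum_add_distrib, ← Finset.mul_sum, Finset.sum_const, nsmul_eq_mul] at hsum
  have hA1 := (abs_le.1 hA).1
  have hmain : X / φ * Q * (∑ r ∈ R, 1 / ((r : ℝ) - 1)) ≤ X / φ * Q * (19 / 20) := by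
    refine mul_le_mul_of_nonneg_left m1 (mul_nonneg (div_nonneg ?_ hφr.le) hQ0)
    rw [hX]
    exact Nat.cast_nonneg _
  have hlogv : 0 < Real.log v := Real.log_pos (by linarith)
  have hfin1 : U / (2 * L) / φ * (c1 / Real.log v ^ 1) ≤ X / φ * Q := by
    refine mul_le_mul (div_le_div_of_nonneg_right hX1 hφr.le) hQ1 (by positivity) ?_
    exact div_nonneg ((by positivity : (0 : ℝ) ≤ U / (2 * L)).trans hX1) hφr.le
  have hfin2 : U / L ^ 4 ≤ c1 / (80 * φ) * (U / (L * Real.log v ^ 1)) := by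
    have i1 : 80 * φ * Real.log v ^ 1 ≤ c1 * L ^ 3 := by
      refine g5.trans (mul_le_mul_of_nonneg_left ?_ hc1.le)
      have i2 : Real.exp v = Real.exp (v / 3) ^ 3 := by
        rw [← Real.exp_nat_mul]
        congr 1
        push_cast
        ring
      rw [i2]
      exact pow_le_pow_left₀ (Real.exp_pos _).le hLexp 3
    have e1 : c1 / (80 * φ) * (U / (L * Real.log v ^ 1)) = c1 * U / (80 * φ * Real.log v ^ 1 * L) := by
      field_simp
    rw [e1, div_le_div_iff₀ (by positivity) (by positivity)]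
    calc (U : ℝ) * (80 * φ * Real.log v ^ 1 * L) = (80 * φ * Real.log v ^ 1) * (U * L) := by ring
      _ ≤ (c1 * L ^ 3) * (U * L) := mul_le_mul_of_nonneg_right i1 (by positivity)
      _ = c1 * U * L ^ 4 := by ring
  have hfin3 : U / (2 * L) / φ * (c1 / Real.log v ^ 1) =
      40 * (c1 / (80 * φ) * (U / (L * Real.log v ^ 1))) := by
    field_simp
    norm_num
  rw [← hL]
  linarith

end Pool.Agent.H633.CY
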