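import Pool.Agent.H633.CY.Stm

/-! Part ELL of the project CY, written by helper803. -/

/-!
# ELL: removing the part of the order of the group which is a power of the characteristic
-/

set_option autoImplicit false

namespace Pool.Agent.H633.CY.ELL

open Finset Pool.Agent.H633.CY

section lin

variable {F V : Type} [Field F] [AddCommGroup V] [Module F V] [FiniteDimensional F V]

theorem finrank_step (T : V →ₗ[F] V) (C W : Submodule F V) (hW : W ≤ C) :
    Module.finrank F W ≤ Module.finrank F (W.map T) +
      Module.finrank F (LinearMap.ker T ⊓ C : Submodule F V) := by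
  have h1 := LinearMap.finrank_range_add_finrank_ker (T.domRestrict W)
  have h2 : LinearMap.range (T.domRestrict W) = W.map T := by
    ext x
    constructor
    · rintro ⟨y, rfl⟩
      exact ⟨y.1, y.2, rfl⟩
    · rintro ⟨y, hy, rfl⟩
      exact ⟨⟨y, hy⟩, rfl⟩
  have h3 : (LinearMap.ker (T.domRestrict W)).map W.subtype ≤ LinearMap.ker T ⊓ C := by
    rintro x ⟨y, hy, rfl⟩
    refine ⟨?_, hW y.2⟩
    have : T.domRestrict W y = 0 := hy
    exact this
  have h4 : Module.finrank F (LinearMap.ker (T.domRestrict W)) ≤
      Module.finrank F (LinearMap.ker T ⊓ C : Submodule F V) := by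
    rw [← Submodule.finrank_map_subtype_eq W (LinearMap.ker (T.domRestrict W))]
    exact Submodule.finrank_mono h3
  rw [h2] at h1
  omega

theorem finrank_pow (T : V →ₗ[F] V) (C : Submodule F V) (hT : ∀ c ∈ C, T c ∈ C) (i : ℕ) :
    Module.finrank F C ≤ Module.finrank F (C.map (T ^ i)) +
      i * Module.finrank F (LinearMap.ker T ⊓ C : Submodule F V) := by
  induction i with
  | zero =>
    have h : C.map (T ^ 0) = C := by
      rw [pow_zero]
      exact Submodule.map_id C
    rw [h]
    omega
  | succ i ih =>
    have h0 : ∀ (i : ℕ) (c : V), c ∈ C → (T ^ i) c ∈ C := by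
      intro i
      induction i with
      | zero => intro c hc; exact hc
      | succ i ih =>
        intro c hc
        rw [pow_succ', Module.End.mul_apply]
        exact hT _ (ih c hc)
    have h1 : C.map (T ^ i) ≤ C := by
      rintro x ⟨y, hy, rfl⟩
      exact h0 i y hy
    have h2 := finrank_step T C (C.map (T ^ i)) h1
    have h3 : (C.map (T ^ i)).map T = C.map (T ^ (i + 1)) := by
      rw [← Submodule.map_comp, pow_succ']
      rfl
    rw [h3] at h2
    rw [Nat.succ_mul]
    omega

end lin

section grp

variable {F : Type} [Field F] {G : Type} [AddCommGroup G]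

/-- The translation by `u`. -/
def shift (u : G) : (G → F) →ₗ[F] (G → F) := LinearMap.funLeft F F (fun x => x + u)

theorem shift_apply (u : G) (c : G → F) (x : G) : shift (F := F) u c x = c (x + u) := rfl

theorem shift_pow (u : G) (i : ℕ) (c : G → F) (x : G) :
    ((shift (F := F) u) ^ i) c x = c (x + i • u) := by
  induction i generalizing x with
  | zero =>
    rw [zero_smul, add_zero]
    rfl
  | succ i ih =>
    rw [pow_succ', Module.End.mul_apply, shift_apply, ih, succ_nsmul]
    congr 1
    abel

theorem shift_sub_one_pow (ℓ : ℕ) [Fact ℓ.Prime] [CharP F ℓ] (u : G) (hu : ℓ • u = 0) :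
    (shift (F := F) u - 1) ^ ℓ = 0 := by
  have hinj : Function.Injective (algebraMap F (Module.End F (G → F))) :=
    (algebraMap F (Module.End F (G → F))).injective
  have : CharP (Module.End F (G → F)) ℓ := charP_of_injective_algebraMap hinj ℓ
  rw [sub_pow_char_of_commute ℓ (Commute.one_right _), one_pow, sub_eq_zero]
  ext1 c
  funext x
  rw [shift_pow, hu, add_zero]
  rfl

variable [Fintype G] [DecidableEq F]

theorem norm_mk (u : G) [Fintype (G ⧸ AddSubgroup.zmultiples u)]
    (d : (G ⧸ AddSubgroup.zmultiples u) → F) :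
    hammingNorm (fun x : G => d (QuotientAddGroup.mk x)) = addOrderOf u * hammingNorm d := by
  classical
  have h1 : ∀ {ι : Type} [Fintype ι] (c : ι → F), hammingNorm c = Nat.card {i : ι | c i ≠ 0} := by
    intro ι _ c
    unfold hammingNorm
    rw [Nat.card_eq_fintype_card, ← Set.toFinset_card]
    congr 1
    ext i
    simp
  rw [h1, h1]
  have e := QuotientAddGroup.preimageMkEquivAddSubgroupProdSet (AddSubgroup.zmultiples u)
    {i | d i ≠ 0}
  have h2 := Nat.card_congr e
  rw [Nat.card_prod, Nat.card_zmultiples] at h2
  exact h2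

theorem main (ℓ : ℕ) [Fact ℓ.Prime] [CharP F ℓ] : ∀ (n : ℕ) (G : Type) [AddCommGroup G]
    [Fintype G] (C : Submodule F (G → F)), Fintype.card G = n → TransInv C →
    ∃ (H : Type) (_ : AddCommGroup H) (_ : Fintype H) (D : Submodule F (H → F)) (P : ℕ),
    Fintype.card G = P * Fintype.card H ∧ (∃ j : ℕ, P = ℓ ^ j) ∧
    (Fintype.card H).Coprime ℓ ∧ TransInv D ∧
    Module.finrank F C ≤ P * Module.finrank F D ∧
    ∀ d ∈ D, d ≠ 0 → ∃ c ∈ C, c ≠ 0 ∧ hammingNorm c = P * hammingNorm d := by
  intro n
  induction n using Nat.strong_induction_on with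
  | _ n ih =>
  intro G _ _ C hn hC
  have hℓ : ℓ.Prime := Fact.out
  by_cases hdvd : ℓ ∣ Fintype.card G
  swap
  · refine ⟨G, inferInstance, inferInstance, C, 1, by rw [one_mul], ⟨0, by rw [pow_zero]⟩,
      ((Nat.Prime.coprime_iff_not_dvd hℓ).2 hdvd).symm, hC, by rw [one_mul], ?_⟩
    intro d hd hd0
    exact ⟨d, hd, hd0, by rw [one_mul]⟩
  · obtain ⟨u, hu⟩ := exists_prime_addOrderOf_dvd_card ℓ hdvd
    have hu0 : ℓ • u = 0 := by
      rw [← hu]
      exact addOrderOf_nsmul_eq_zero u
    have : Fintype (G ⧸ AddSubgroup.zmultiples u) := Fintype.ofFinite _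
    have hcard : Fintype.card G = ℓ * Fintype.card (G ⧸ AddSubgroup.zmultiples u) := by
      have h := AddSubgroup.card_eq_card_quotient_mul_card_addSubgroup (AddSubgroup.zmultiples u)
      rw [Nat.card_zmultiples, hu, Nat.card_eq_fintype_card, Nat.card_eq_fintype_card] at h
      rw [h, mul_comm]
    have hpos : 0 < Fintype.card (G ⧸ AddSubgroup.zmultiples u) := Fintype.card_pos
    have hlt : Fintype.card (G ⧸ AddSubgroup.zmultiples u) < n := by
      rw [← hn, hcard]
      have := hℓ.two_le
      nlinarith
    let π : ((G ⧸ AddSubgroup.zmultiples u) → F) →ₗ[F] (G → F) :=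
      LinearMap.funLeft F F (fun x : G => (QuotientAddGroup.mk x : G ⧸ AddSubgroup.zmultiples u))
    have hπ : ∀ d x, π d x = d (QuotientAddGroup.mk x) := fun d x => rfl
    have hD1 : TransInv (C.comap π) := by
      intro g
      obtain ⟨g, rfl⟩ := QuotientAddGroup.mk_surjective g
      intro c hc
      have h1 : π c ∈ C := hc
      have h2 := hC g _ h1
      exact h2
    obtain ⟨H, i1, i2, D, P, k1, ⟨j, k2⟩, k3, k4, k5, k6⟩ :=
      ih _ hlt (G ⧸ AddSubgroup.zmultiples u) (C.comap π) rfl hD1
    refine ⟨H, i1, i2, D, ℓ * P, ?_, ⟨j + 1, ?_⟩, k3, k4, ?_, ?_⟩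
    · rw [hcard, k1, mul_assoc]
    · rw [k2, pow_succ']
    · have f1 := finrank_pow (shift (F := F) u - 1) C (by
        intro c hc
        exact C.sub_mem (hC u c hc) hc) ℓ
      rw [shift_sub_one_pow ℓ u hu0] at f1
      have f2 : Module.finrank F (C.map (0 : (G → F) →ₗ[F] (G → F))) = 0 := by
        rw [Submodule.map_zero]
        exact finrank_bot F _
      have f3 : (LinearMap.ker (shift (F := F) u - 1) ⊓ C : Submodule F (G → F)) ≤
          (C.comap π).map π := by
        rintro c ⟨hc1, hc2⟩
        have hc3 : (shift (F := F) u - 1) c = 0 := hc1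
        have hper : ∀ x, c (x + u) = c x := by
          intro x
          have := congrFun hc3 x
          have h4 : c (x + u) - c x = 0 := this
          exact sub_eq_zero.1 h4
        have hper2 : ∀ (k : ℕ) x, c (x + k • u) = c x := by
          intro k
          induction k with
          | zero => intro x; rw [zero_smul, add_zero]
          | succ k ihk =>
            intro x
            rw [succ_nsmul, ← add_assoc, hper, ihk]
        have hfac : ∀ x y : G, (QuotientAddGroup.mk x : G ⧸ AddSubgroup.zmultiples u) =
            QuotientAddGroup.mk y → c x = c y := by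
          intro x y hxy
          rw [QuotientAddGroup.eq] at hxy
          obtain ⟨k, hk⟩ := (mem_multiples_iff_mem_zmultiples (x := u) (y := -x + y)).2 hxy
          have hk' : k • u = -x + y := hk
          have : y = x + k • u := by rw [hk']; abel
          rw [this, hper2]
        refine ⟨fun q => c (Quotient.out q), ?_, ?_⟩
        · have : π (fun q => c (Quotient.out q)) = c := by
            funext x
            rw [hπ]
            apply hfac
            exact Quotient.out_eq _
          show π (fun q => c (Quotient.out q)) ∈ C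
          rw [this]
          exact hc2
        · funext x
          rw [hπ]
          apply hfac
          exact Quotient.out_eq _
      have f4 := Submodule.finrank_mono f3
      have f5 := Submodule.finrank_map_le π (C.comap π)
      have f6 : Module.finrank F (LinearMap.ker (shift (F := F) u - 1) ⊓ C : Submodule F (G → F)) ≤
          P * Module.finrank F D := f4.trans (f5.trans k5)
      have f7 := Nat.mul_le_mul_left ℓ f6
      rw [f2] at f1
      rw [mul_assoc]
      omega
    · intro d hd hd0
      obtain ⟨c1, hc1, hc10, hc1n⟩ := k6 d hd hd0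
      refine ⟨π c1, hc1, ?_, ?_⟩
      · intro h0
        apply hc10
        funext q
        obtain ⟨x, rfl⟩ := QuotientAddGroup.mk_surjective q
        exact congrFun h0 x
      · have h5 := norm_mk u c1
        rw [hu, hc1n] at h5
        rw [mul_assoc]
        exact h5

end grp

theorem t_ell : S_ELL := by
  intro F _ _ _ G _ _ C hC
  have : Fact (ringChar F).Prime := ⟨CharP.char_is_prime F (ringChar F)⟩
  obtain ⟨H, i1, i2, D, P, h1, h2, h3, h4, h5, h6⟩ := main (F := F) (ringChar F) _ G C rfl hC
  refine ⟨H, i1, i2, D, P, h1, h2, ?_, h4, h5, h6⟩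
  obtain ⟨n, _, hn⟩ := FiniteField.card F (ringChar F)
  rw [hn]
  exact Nat.Coprime.pow_right _ h3

end Pool.Agent.H633.CY.ELL
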