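import Pool.Agent.H633.CY.Stm

/-! Part IDEM of the project CY, written by helper738. -/

/-!
# CY IDEM: primitive idempotents and traces in the group ring of a group of prime order (helper738)
-/

set_option autoImplicit false

namespace Pool.Agent.H633.CY.IDEM

open Finset Pool.Agent.H633.CY

variable {F : Type} [Field F] [Fintype F]

/-- the powers `q ^ j` are additive -/
lemma sum_pow_card {S : Type} [CommRing S] [Nontrivial S] (ι : F →+* S) {κ : Type}
    (s : Finset κ) (f : κ → S) (j : ℕ) :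
    (∑ i ∈ s, f i) ^ (Fintype.card F ^ j) = ∑ i ∈ s, f i ^ (Fintype.card F ^ j) := by
  obtain ⟨ℓ, hℓ⟩ := CharP.exists F
  obtain ⟨n, hp, hn⟩ := FiniteField.card F ℓ
  have : Fact ℓ.Prime := ⟨hp⟩
  have : CharP S ℓ := charP_of_injective_ringHom ι.injective ℓ
  rw [hn, ← pow_mul]
  exact sum_pow_char_pow ℓ (n * j) s f

/-- the elements with `t ^ q = t` of a field extension -/
lemma fixed_mem {K : Type} [Field K] (ι : F →+* K) {t : K} (ht : t ^ Fintype.card F = t) :
    ∃ c, ι c = t := by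
  classical
  have hq : 1 < Fintype.card F := Fintype.one_lt_card
  have h1 : ((univ.val : Multiset F).map fun a => Polynomial.X - Polynomial.C a).prod =
      Polynomial.X ^ Fintype.card F - Polynomial.X := by
    have h2 := FiniteField.roots_X_pow_card_sub_X F
    have h3 := FiniteField.X_pow_card_sub_X_natDegree_eq F hq
    rw [← h2]
    apply Polynomial.prod_multiset_X_sub_C_of_monic_of_roots_card_eq
    · refine Polynomial.monic_X_pow_sub ?_
      rw [Polynomial.degree_X]
      exact_mod_cast hq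
    · rw [h2, h3]
      rfl
  have h2 := congrArg (fun P => Polynomial.eval₂RingHom ι t P) h1
  simp only [map_multiset_prod, Multiset.map_map, Function.comp_def, map_sub,
    Polynomial.coe_eval₂RingHom, Polynomial.eval₂_X, map_pow] at h2
  rw [ht, sub_self] at h2
  have h3 := Multiset.prod_eq_zero_iff.1 h2
  obtain ⟨c, -, hc⟩ := Multiset.mem_map.1 h3
  rw [Polynomial.eval₂_sub, Polynomial.eval₂_X, Polynomial.eval₂_C] at hc
  exact ⟨c, (sub_eq_zero.1 hc).symm⟩

variable {A : Type} [AddCommGroup A] [Fintype A]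

lemma eq_sum (z : AddMonoidAlgebra F A) : z = ∑ a, AddMonoidAlgebra.single a (z.coeff a) := by
  conv_lhs => rw [← AddMonoidAlgebra.sum_coeff_single z]
  exact Finsupp.sum_fintype _ _ (fun a => AddMonoidAlgebra.single_zero a)

lemma pow_card_pow (z : AddMonoidAlgebra F A) (j : ℕ) :
    z ^ (Fintype.card F ^ j) =
      ∑ a, AddMonoidAlgebra.single (Fintype.card F ^ j • a) (z.coeff a) := by
  conv_lhs => rw [eq_sum z]
  rw [sum_pow_card (algebraMap F (AddMonoidAlgebra F A))]
  refine sum_congr rfl fun a _ => ?_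
  rw [AddMonoidAlgebra.single_pow, FiniteField.pow_card_pow]

lemma nsmul_p {p : ℕ} (hA : Fintype.card A = p) (a : A) : p • a = 0 := by
  rw [← hA]
  exact card_nsmul_eq_zero

lemma pow_Q {p k : ℕ} (hA : Fintype.card A = p)
    (hk : k = orderOf ((Fintype.card F : ℕ) : ZMod p)) (z : AddMonoidAlgebra F A) :
    z ^ (Fintype.card F ^ k) = z := by
  rw [pow_card_pow]
  conv_rhs => rw [eq_sum z]
  refine sum_congr rfl fun a _ => ?_
  have h1 : ((Fintype.card F ^ k : ℕ) : ZMod p) = ((1 : ℕ) : ZMod p) := by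
    push_cast
    rw [hk]
    exact pow_orderOf_eq_one _
  have h2 : 1 ≡ Fintype.card F ^ k [MOD p] := ((ZMod.natCast_eq_natCast_iff _ _ _).1 h1).symm
  have h3 : 1 ≤ Fintype.card F ^ k := Nat.one_le_pow _ _ Fintype.card_pos
  obtain ⟨t, ht⟩ := (Nat.modEq_iff_dvd' h3).1 h2
  have h4 : Fintype.card F ^ k = 1 + t * p := by
    rw [mul_comm]
    omega
  rw [h4, add_smul, one_smul, mul_smul, nsmul_p hA, smul_zero, add_zero]

/-- the sum of the group elements -/
noncomputable def NN (F A : Type) [Field F] [AddCommGroup A] [Fintype A] : AddMonoidAlgebra F A :=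
  ∑ a : A, AddMonoidAlgebra.single a (1 : F)

lemma single_mul_N (a : A) : AddMonoidAlgebra.single a (1 : F) * NN F A = NN F A := by
  unfold NN
  rw [mul_sum]
  simp only [AddMonoidAlgebra.single_mul_single, mul_one]
  exact Fintype.sum_equiv (Equiv.addLeft a) _ _ fun x => rfl

lemma N_mul_N {p : ℕ} (hA : Fintype.card A = p) : NN F A * NN F A = (p : AddMonoidAlgebra F A) * NN F A := by
  conv_lhs => lhs; unfold NN
  rw [sum_mul]
  simp only [single_mul_N]
  rw [sum_const, card_univ, hA, nsmul_eq_mul]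

/-- a nonconstant function is not killed by `p - N` -/
lemma w_ne {p : ℕ} (hpF : (p : F) ≠ 0) (v : AddMonoidAlgebra F A)
    (hv : ∃ a a', v.coeff a ≠ v.coeff a') : v * ((p : AddMonoidAlgebra F A) - NN F A) ≠ 0 := by
  obtain ⟨a, a', haa⟩ := hv
  intro h
  rw [mul_sub, sub_eq_zero] at h
  have h1 : ∀ x y : A, (v * NN F A).coeff x = (v * NN F A).coeff y := by
    intro x y
    have h2 : AddMonoidAlgebra.single (x - y) (1 : F) * (v * NN F A) = v * NN F A := by
      rw [mul_left_comm, single_mul_N]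
    have h3 := AddMonoidAlgebra.coeff_single_mul_apply (v * NN F A) (1 : F) (x - y) x
    rw [h2, one_mul] at h3
    rw [h3]
    congr 1
    abel
  have h4 : ∀ x : A, (v * (p : AddMonoidAlgebra F A)).coeff x = p * v.coeff x := by
    intro x
    rw [mul_comm, ← nsmul_eq_mul, AddMonoidAlgebra.coeff_smul_apply, nsmul_eq_mul]
  apply haa
  have h5 := h1 a a'
  rw [← h, h4, h4] at h5
  exact mul_left_cancel₀ hpF h5

/-- the core of the proof -/
theorem core {p k : ℕ} (hp : p.Prime) (hA : Fintype.card A = p) (hpF : (p : F) ≠ 0)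
    (hk : k = orderOf ((Fintype.card F : ℕ) : ZMod p)) (hk0 : 0 < k)
    (v : AddMonoidAlgebra F A) {K : Type} [Field K] (φ : AddMonoidAlgebra F A →+* K)
    (hφ : Function.Surjective φ) (hN : φ (NN F A) = 0) (hv : φ v ≠ 0) :
    ∃ (e x : AddMonoidAlgebra F A) (lam : AddMonoidAlgebra F A → F), e ≠ 0 ∧
    e * NN F A = 0 ∧
    (∀ z, ∑ i ∈ range k, (x * z) ^ (Fintype.card F ^ i) = lam z • e) ∧ lam v ≠ 0 := by
  classical
  have hpf : Fact p.Prime := ⟨hp⟩
  obtain ⟨q, hq⟩ : ∃ q, q = Fintype.card F := ⟨_, rfl⟩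
  rw [← hq] at hk ⊢
  have hq1 : 1 < q := by
    rw [hq]
    exact Fintype.one_lt_card
  have hQ1 : 1 < q ^ k := Nat.one_lt_pow hk0.ne' hq1
  have hpQ : ∀ z : AddMonoidAlgebra F A, z ^ (q ^ k) = z := by
    intro z
    have h := pow_Q (F := F) (k := k) hA (by rw [← hq]; exact hk) z
    rw [← hq] at h
    exact h
  have hfin : Finite (AddMonoidAlgebra F A) :=
    Finite.of_injective (fun z : AddMonoidAlgebra F A => (z.coeff : A → F)) fun z z' h =>
      AddMonoidAlgebra.coeff_injective (DFunLike.coe_injective h)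
  let _ : Fintype (AddMonoidAlgebra F A) := Fintype.ofFinite _
  obtain ⟨e, he1, he0⟩ : ∃ e : AddMonoidAlgebra F A, φ e = 1 ∧ ∀ z, φ z = 0 → e * z = 0 := by
    refine ⟨∏ z ∈ univ.filter (fun z => φ z = 0), (1 - z ^ (q ^ k - 1)), ?_, fun z hz => ?_⟩
    · rw [map_prod]
      refine prod_eq_one fun z hz => ?_
      rw [map_sub, map_one, map_pow, (mem_filter.1 hz).2, zero_pow (by omega), sub_zero]
    · have hz' : z ∈ univ.filter (fun z => φ z = 0) := mem_filter.2 ⟨mem_univ _, hz⟩
      rw [← mul_prod_erase _ _ hz', mul_right_comm, sub_mul, one_mul, ← pow_succ,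
        Nat.sub_add_cancel hQ1.le, hpQ, sub_self, zero_mul]
  have hee : e * e = e := by
    have h := he0 (e - 1) (by rw [map_sub, he1, map_one, sub_self])
    rw [mul_sub, mul_one, sub_eq_zero] at h
    exact h
  have hepow : ∀ m, 0 < m → e ^ m = e := by
    intro m hm
    induction m with
    | zero => omega
    | succ m ih =>
      rcases Nat.eq_zero_or_pos m with h | h
      · rw [h, zero_add, pow_one]
      · rw [pow_succ, ih h, hee]
  -- characters
  obtain ⟨χ, hχ⟩ : ∃ χ : Multiplicative A →* K, ∀ a : A,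
      χ (Multiplicative.ofAdd a) = φ (AddMonoidAlgebra.single a 1) :=
    ⟨(φ : AddMonoidAlgebra F A →* K).comp (AddMonoidAlgebra.of F A), fun a => rfl⟩
  have hpK : (p : K) ≠ 0 := by
    have h : (p : K) = (φ.comp (algebraMap F (AddMonoidAlgebra F A))) p := (map_natCast _ p).symm
    rw [h]
    exact (map_ne_zero _).2 hpF
  obtain ⟨a0, ha0⟩ : ∃ a0, χ a0 ≠ 1 := by
    by_contra hc
    push Not at hc
    apply hpK
    rw [← hN, NN, map_sum, sum_congr rfl fun a _ => (hχ a).symm,
      sum_congr rfl fun a _ => hc (Multiplicative.ofAdd a), sum_const, card_univ, hA,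
      nsmul_eq_mul, mul_one]
  have hord : orderOf (χ a0) = p := by
    refine orderOf_eq_prime ?_ ha0
    rw [← map_pow]
    have h : a0 ^ p = 1 := nsmul_p hA (Multiplicative.toAdd a0)
    rw [h, map_one]
  have hinj : Function.Injective (fun i : Fin k => χ ^ (q ^ (i : ℕ))) := by
    intro i j hij
    have h1 := DFunLike.congr_fun hij a0
    simp only [MonoidHom.pow_apply] at h1
    have h2 : (χ a0) ^ (q ^ (i : ℕ) % p) = (χ a0) ^ (q ^ (j : ℕ) % p) := by
      rw [← hord, pow_mod_orderOf, pow_mod_orderOf]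
      exact h1
    have h3 : q ^ (i : ℕ) % p = q ^ (j : ℕ) % p :=
      pow_injOn_Iio_orderOf (x := χ a0) (by rw [hord]; exact Nat.mod_lt _ hp.pos)
        (by rw [hord]; exact Nat.mod_lt _ hp.pos) h2
    have h4 := (ZMod.natCast_eq_natCast_iff' _ _ p).2 h3
    push_cast at h4
    have h5 : (i : ℕ) = j := pow_injOn_Iio_orderOf (x := (q : ZMod p))
      (by rw [← hk]; exact i.2) (by rw [← hk]; exact j.2) h4
    exact Fin.ext h5
  obtain ⟨a, ha⟩ : ∃ a : Multiplicative A, ∑ i ∈ range k, χ a ^ (q ^ i) ≠ 0 := by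
    by_contra hc
    push Not at hc
    have h1 := (linearIndependent_monoidHom (Multiplicative A) K).comp _ hinj
    have h2 := Fintype.linearIndependent_iff.1 h1 (fun _ => 1) (by
      funext a
      simp only [Function.comp_apply, one_smul, Finset.sum_apply, MonoidHom.pow_apply,
        Pi.zero_apply]
      rw [Fin.sum_univ_eq_sum_range (fun i => χ a ^ (q ^ i)) k]
      exact hc a) ⟨0, hk0⟩
    exact one_ne_zero h2
  obtain ⟨x', hx'⟩ := hφ (χ a / φ v)
  -- the trace
  have hT : ∀ y : AddMonoidAlgebra F A, ∃ c : F, e * ∑ i ∈ range k, y ^ (q ^ i) = c • e ∧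
      φ (∑ i ∈ range k, y ^ (q ^ i)) = φ (algebraMap F (AddMonoidAlgebra F A) c) := by
    intro y
    obtain ⟨T, hT⟩ : ∃ T, T = ∑ i ∈ range k, y ^ (q ^ i) := ⟨_, rfl⟩
    have h1 : T ^ q = T := by
      have h2 := sum_pow_card (algebraMap F (AddMonoidAlgebra F A)) (range k)
        (fun i => y ^ (q ^ i)) 1
      rw [← hq, pow_one] at h2
      have h3 := sum_range_succ (fun i => y ^ (q ^ i)) k
      have h4 := sum_range_succ' (fun i => y ^ (q ^ i)) k
      rw [h3, hpQ, pow_zero, pow_one, ← hT] at h4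
      have h5 := add_right_cancel h4
      rw [hT, h2, ← hT, h5]
      refine sum_congr rfl fun i _ => ?_
      rw [← pow_mul, pow_succ]
    obtain ⟨c, hc⟩ := fixed_mem (φ.comp (algebraMap F (AddMonoidAlgebra F A))) (t := φ T)
      (by rw [← hq, ← map_pow, h1])
    rw [← hT]
    refine ⟨c, ?_, hc.symm⟩
    have h5 := he0 (T - algebraMap F (AddMonoidAlgebra F A) c)
      (by rw [map_sub, sub_eq_zero]; exact hc.symm)
    rw [mul_sub, sub_eq_zero] at h5
    rw [h5, Algebra.smul_def, mul_comm]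
  choose c hc1 hc2 using hT
  refine ⟨e, x' * e, fun z => c (x' * z), ?_, he0 _ hN, fun z => ?_, ?_⟩
  · intro h
    rw [h, map_zero] at he1
    exact zero_ne_one he1
  · rw [← hc1 (x' * z), mul_sum]
    refine sum_congr rfl fun i _ => ?_
    rw [mul_right_comm x' e z, mul_pow, hepow _ (pow_pos (by omega) _), mul_comm]
  · intro h
    have h6 := hc2 (x' * v)
    beta_reduce at h
    rw [h, map_zero, map_zero, map_sum] at h6
    apply ha
    rw [← h6]
    refine sum_congr rfl fun i _ => ?_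
    rw [map_pow, map_mul, hx', div_mul_cancel₀ _ hv]

/-- **IDEM** -/
theorem t_idem : S_IDEM := by
  intro F _ _ A _ _ p k hp hA hpq hk v hv
  have hpf : Fact p.Prime := ⟨hp⟩
  have hpq1 : ¬ p ∣ Fintype.card F := fun h => hpq (h.mul_right _)
  have hpF : (p : F) ≠ 0 := by
    obtain ⟨ℓ, hℓ⟩ := CharP.exists F
    obtain ⟨n, hl, hn⟩ := FiniteField.card F ℓ
    intro h
    have h1 := (CharP.cast_eq_zero_iff F ℓ p).1 h
    have h2 := (Nat.prime_dvd_prime_iff_eq hl hp).1 h1
    apply hpq1
    rw [hn, h2]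
    exact dvd_pow_self p n.pos.ne'
  have hk0 : 0 < k := by
    rw [hk, orderOf_pos_iff, isOfFinOrder_iff_pow_eq_one]
    refine ⟨p - 1, by have := hp.two_le; omega, ZMod.pow_card_sub_one_eq_one ?_⟩
    rw [Ne, ZMod.natCast_eq_zero_iff]
    exact hpq1
  obtain ⟨w, hw⟩ : ∃ w, w = v * ((p : AddMonoidAlgebra F A) - NN F A) := ⟨_, rfl⟩
  have hw0 : w ≠ 0 := by
    rw [hw]
    exact w_ne hpF v hv
  have hQ1 : 1 < Fintype.card F ^ k := Nat.one_lt_pow hk0.ne' Fintype.one_lt_card
  have hnu : 1 - w ^ (Fintype.card F ^ k - 1) ∈ nonunits (AddMonoidAlgebra F A) := by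
    rw [mem_nonunits_iff]
    intro hu
    apply hw0
    refine (hu.mul_right_eq_zero).1 ?_
    rw [sub_mul, one_mul, ← pow_succ, Nat.sub_add_cancel hQ1.le, pow_Q hA hk, sub_self]
  obtain ⟨I, hI, hwI⟩ := exists_max_ideal_of_mem_nonunits hnu
  have hwI' : w ∉ I := by
    intro h
    have h1 : w ^ (Fintype.card F ^ k - 1) ∈ I := by
      have h2 : Fintype.card F ^ k - 1 = (Fintype.card F ^ k - 2) + 1 := by omega
      rw [h2, pow_succ]
      exact I.mul_mem_left _ h
    have h3 := I.add_mem hwI h1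
    rw [sub_add_cancel] at h3
    exact hI.ne_top ((Ideal.eq_top_iff_one I).2 h3)
  have hNI : NN F A ∈ I := by
    have h1 : NN F A * w ∈ I := by
      have h2 : NN F A * w = 0 := by
        rw [hw, mul_left_comm, mul_sub, N_mul_N hA, mul_comm (NN F A) (p : AddMonoidAlgebra F A),
          sub_self, mul_zero]
      rw [h2]
      exact I.zero_mem
    exact (hI.isPrime.mem_or_mem h1).resolve_right hwI'
  have hvI : v ∉ I := by
    intro h
    apply hwI'
    rw [hw]
    exact I.mul_mem_right _ h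
  let _ := Ideal.Quotient.field I
  exact core hp hA hpF hk hk0 v (Ideal.Quotient.mk I) Ideal.Quotient.mk_surjective
    (Ideal.Quotient.eq_zero_iff_mem.2 hNI) (fun h => hvI (Ideal.Quotient.eq_zero_iff_mem.1 h))

end Pool.Agent.H633.CY.IDEM
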