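import Pool.Agent.H633.CY.Stm2
import Pool.Graph.R_seed8.H305R2.MertensM
import Pool.Graph.R_seed8.H305R2.MertensE

/-! Part MER of the project CY, written by helper264. -/

set_option autoImplicit false

/-!
# Two Mertens estimates (`S_MER`), for helper633
-/

namespace Pool.Agent.H633.CY.MER1

open Finset Filter Topology
open Pool.Agent.H633.CY (S_MER1)

lemma Icc_eq_Ioc (N : ℕ) : Icc 1 N = Ioc 0 N := by
  ext n
  rw [mem_Icc, mem_Ioc]
  omega

/-- telescoping -/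
lemma tele (a : ℕ) (b : ℕ) (hb : a ≤ b) :
    ∑ r ∈ Ioc a b, (1 / ((r : ℝ) - 1) - 1 / (r : ℝ)) = 1 / (a : ℝ) - 1 / (b : ℝ) := by
  induction b, hb using Nat.le_induction with
  | base => simp
  | succ b hb ih =>
    rw [Finset.sum_Ioc_succ_top hb, ih]
    push_cast
    ring

lemma split_sum (a b : ℕ) (hab : a ≤ b) :
    ∑ r ∈ (Ioc a b).filter Nat.Prime, 1 / (r : ℝ) =
      ∑ r ∈ (Icc 1 b).filter Nat.Prime, 1 / (r : ℝ) -
        ∑ r ∈ (Icc 1 a).filter Nat.Prime, 1 / (r : ℝ) := by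
  rw [Icc_eq_Ioc, Icc_eq_Ioc, sum_filter, sum_filter, sum_filter]
  have := Finset.sum_Ioc_consecutive (fun r : ℕ => if r.Prime then 1 / (r : ℝ) else 0)
    (Nat.zero_le a) hab
  linarith

lemma sum_bound (a b : ℕ) (_ha : 1 ≤ a) (hab : a ≤ b) :
    ∑ r ∈ (Ioc a b).filter Nat.Prime, 1 / ((r : ℝ) - 1) ≤
      ∑ r ∈ (Ioc a b).filter Nat.Prime, 1 / (r : ℝ) + 1 / (a : ℝ) := by
  have h1 : ∑ r ∈ (Ioc a b).filter Nat.Prime, 1 / ((r : ℝ) - 1) =
      ∑ r ∈ (Ioc a b).filter Nat.Prime, 1 / (r : ℝ) +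
        ∑ r ∈ (Ioc a b).filter Nat.Prime, (1 / ((r : ℝ) - 1) - 1 / (r : ℝ)) := by
    rw [← sum_add_distrib]
    exact sum_congr rfl fun r _ => by ring
  have h2 : ∑ r ∈ (Ioc a b).filter Nat.Prime, (1 / ((r : ℝ) - 1) - 1 / (r : ℝ)) ≤
      ∑ r ∈ Ioc a b, (1 / ((r : ℝ) - 1) - 1 / (r : ℝ)) := by
    apply sum_le_sum_of_subset_of_nonneg (filter_subset _ _)
    intro r hr _
    have hr1 : a < r := (mem_Ioc.1 hr).1
    have ha := _ha
    have hr2 : (2 : ℝ) ≤ r := by exact_mod_cast (by omega : 2 ≤ r)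
    rw [sub_nonneg]
    exact one_div_le_one_div_of_le (by linarith) (by linarith)
  rw [tele a b hab] at h2
  have h3 : (0 : ℝ) ≤ 1 / (b : ℝ) := by positivity
  linarith

lemma exp_num : (5 / 2 : ℝ) ≤ Real.exp (92 / 100) := by
  have h1 : (1 + 23 / 5000 : ℝ) ≤ Real.exp (23 / 5000) := by
    have := Real.add_one_le_exp (23 / 5000 : ℝ)
    linarith
  have h2 : Real.exp (92 / 100) = Real.exp (23 / 5000) ^ 200 := by
    rw [← Real.exp_nat_mul]
    norm_num
  rw [h2]
  refine le_trans ?_ (pow_le_pow_left₀ (by norm_num) h1 200)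
  norm_num

lemma fl_tendsto (s : ℝ) (hs : 0 < s) : Tendsto (fun v : ℝ => ⌊v ^ s⌋₊) atTop atTop :=
  tendsto_nat_floor_atTop.comp (tendsto_rpow_atTop hs)

lemma tele3 (a : ℕ) (ha : 2 ≤ a) :
    (a : ℝ) / (2 * ((a : ℝ) - 1)) = ∏ t ∈ Ioc 2 a, (1 - 1 / ((t : ℝ) - 1) ^ 2) := by
  induction a, ha using Nat.le_induction with
  | base => norm_num
  | succ a ha ih =>
    rw [Finset.prod_Ioc_succ_top (by omega), ← ih]
    have ha2 : (2 : ℝ) ≤ a := by exact_mod_cast ha
    have h1 : (a : ℝ) - 1 ≠ 0 := by linarith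
    have h2 : (a : ℝ) ≠ 0 := by linarith
    push_cast
    have h3 : (a : ℝ) + 1 - 1 = a := by ring
    rw [h3]
    field_simp
    ring

lemma prod_bound (a : ℕ) : (∏ p ∈ (Icc 1 a).filter Nat.Prime, (1 - (p : ℝ)⁻¹)) / 2 ≤
    ∏ t ∈ (Icc 3 a).filter Nat.Prime, (1 - 1 / ((t : ℝ) - 1)) := by
  have h1 : ∏ p ∈ (Icc 1 a).filter Nat.Prime, (1 - (p : ℝ)⁻¹) ≤
      ∏ p ∈ (Icc 3 a).filter Nat.Prime, (1 - (p : ℝ)⁻¹) := by
    have hsub : (Icc 3 a).filter Nat.Prime ⊆ (Icc 1 a).filter Nat.Prime := by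
      intro p hp
      rw [mem_filter, mem_Icc] at hp ⊢
      exact ⟨⟨by omega, hp.1.2⟩, hp.2⟩
    have hnn : ∀ p : ℕ, p.Prime → 0 ≤ 1 - (p : ℝ)⁻¹ := by
      intro p hp
      have hp2 : (2 : ℝ) ≤ p := by exact_mod_cast hp.two_le
      have h3 : (p : ℝ)⁻¹ ≤ 1 := inv_le_one_of_one_le₀ (by linarith)
      linarith
    rw [← Finset.prod_sdiff hsub]
    refine mul_le_of_le_one_left (Finset.prod_nonneg fun p hp => hnn p (mem_filter.1 hp).2) ?_
    apply Finset.prod_le_one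
    · intro p hp
      rw [Finset.mem_sdiff, mem_filter] at hp
      exact hnn p hp.1.2
    · intro p hp
      rw [Finset.mem_sdiff, mem_filter] at hp
      have hp2 : (2 : ℝ) ≤ p := by exact_mod_cast hp.1.2.two_le
      have h4 : (0 : ℝ) < (p : ℝ)⁻¹ := by positivity
      linarith
  have h2 : (1 / 2 : ℝ) ≤ ∏ p ∈ (Icc 3 a).filter Nat.Prime, (1 - 1 / ((p : ℝ) - 1) ^ 2) := by
    have hfac : ∀ t ∈ Icc 3 a, 0 ≤ 1 - 1 / ((t : ℝ) - 1) ^ 2 ∧ 1 - 1 / ((t : ℝ) - 1) ^ 2 ≤ 1 := by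
      intro t ht
      rw [mem_Icc] at ht
      have ht3 : (3 : ℝ) ≤ t := by exact_mod_cast ht.1
      have h3 : 1 / ((t : ℝ) - 1) ^ 2 ≤ 1 := by
        rw [div_le_one (by nlinarith)]
        nlinarith
      have h4 : 0 ≤ 1 / ((t : ℝ) - 1) ^ 2 := by positivity
      exact ⟨by linarith, by linarith⟩
    by_cases ha : 2 ≤ a
    · have h5 := tele3 a ha
      have h6 : (1 / 2 : ℝ) ≤ (a : ℝ) / (2 * ((a : ℝ) - 1)) := by
        have ha2 : (2 : ℝ) ≤ a := by exact_mod_cast ha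
        rw [div_le_div_iff₀ (by norm_num) (by linarith)]
        linarith
      rw [h5] at h6
      refine h6.trans ?_
      have hsub : (Icc 3 a).filter Nat.Prime ⊆ Ioc 2 a := by
        intro p hp
        rw [mem_filter, mem_Icc] at hp
        rw [mem_Ioc]
        omega
      have hIcc : ∀ t ∈ Ioc 2 a, t ∈ Icc 3 a := by
        intro t ht
        rw [mem_Ioc] at ht
        rw [mem_Icc]
        omega
      rw [← Finset.prod_sdiff hsub]
      refine mul_le_of_le_one_left (Finset.prod_nonneg fun p hp => (hfac p (mem_filter.1 hp).1).1) ?_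
      apply Finset.prod_le_one
      · intro p hp
        exact (hfac p (hIcc p (Finset.mem_sdiff.1 hp).1)).1
      · intro p hp
        exact (hfac p (hIcc p (Finset.mem_sdiff.1 hp).1)).2
    · have h7 : (Icc 3 a).filter Nat.Prime = ∅ := by
        rw [filter_eq_empty_iff]
        intro p hp
        rw [mem_Icc] at hp
        omega
      rw [h7, Finset.prod_empty]
      norm_num
  have h3 : ∏ t ∈ (Icc 3 a).filter Nat.Prime, (1 - 1 / ((t : ℝ) - 1)) =
      (∏ p ∈ (Icc 3 a).filter Nat.Prime, (1 - (p : ℝ)⁻¹)) *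
        ∏ p ∈ (Icc 3 a).filter Nat.Prime, (1 - 1 / ((p : ℝ) - 1) ^ 2) := by
    rw [← Finset.prod_mul_distrib]
    apply Finset.prod_congr rfl
    intro p hp
    rw [mem_filter, mem_Icc] at hp
    have hp3 : (3 : ℝ) ≤ p := by exact_mod_cast hp.1.1
    have e1 : (p : ℝ) - 1 ≠ 0 := by linarith
    have e2 : (p : ℝ) ≠ 0 := by linarith
    field_simp
    ring
  rw [h3]
  have h4 : 0 ≤ ∏ p ∈ (Icc 3 a).filter Nat.Prime, (1 - (p : ℝ)⁻¹) := by
    apply Finset.prod_nonneg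
    intro p hp
    rw [mem_filter, mem_Icc] at hp
    have hp3 : (3 : ℝ) ≤ p := by exact_mod_cast hp.1.1
    have h5 : (p : ℝ)⁻¹ ≤ 1 := inv_le_one_of_one_le₀ (by linarith)
    linarith
  nlinarith

theorem t_mer : S_MER1 := by
  obtain ⟨M, hM⟩ := Pool.Agent.H305R2.mertens_inv_tendsto
  have h3 := Pool.Agent.H305R2.mertens_three
  obtain ⟨E, hE⟩ : ∃ E : ℝ, E = Real.exp Real.eulerMascheroniConstant + 1 := ⟨_, rfl⟩
  have hE1 : 0 < E := by rw [hE]; positivity
  have t1 := fl_tendsto (9 / 10) (by norm_num)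
  have t2 := fl_tendsto (11 / 5) (by norm_num)
  have m1 := (hM.comp t1).eventually (Metric.ball_mem_nhds M (by norm_num : (0 : ℝ) < 1 / 200))
  have m2 := (hM.comp t2).eventually (Metric.ball_mem_nhds M (by norm_num : (0 : ℝ) < 1 / 200))
  have m3 := (h3.comp t1).eventually (gt_mem_nhds (by rw [hE]; linarith :
    Real.exp Real.eulerMascheroniConstant < E))
  have m4 := t1.eventually_ge_atTop 100
  have m5 := Real.tendsto_log_atTop.eventually_ge_atTop (50 * Real.log 2 + 1)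
  have m6 := eventually_ge_atTop (1 : ℝ)
  have m7 := (tendsto_rpow_atTop (by norm_num : (0 : ℝ) < 9 / 10)).eventually_ge_atTop 2
  have hall := m1.and (m2.and (m3.and (m4.and (m5.and (m6.and m7)))))
  rw [eventually_atTop] at hall
  obtain ⟨v0, hv0⟩ := hall
  refine ⟨1 / (2 * E), v0, by positivity, fun v hv => ?_⟩
  obtain ⟨k1, k2, k3, k4, k5, k6, k7⟩ := hv0 v hv
  simp only [Function.comp_apply] at k1 k2 k3
  obtain ⟨a, ha⟩ : ∃ a : ℕ, a = ⌊v ^ (9 / 10 : ℝ)⌋₊ := ⟨_, rfl⟩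
  obtain ⟨b, hb⟩ : ∃ b : ℕ, b = ⌊v ^ (11 / 5 : ℝ)⌋₊ := ⟨_, rfl⟩
  rw [← ha] at k1 k3 k4 ⊢
  rw [← hb] at k2 ⊢
  have hv : 0 < v := by linarith
  have hlog2 : 0 < Real.log 2 := Real.log_pos (by norm_num)
  have hL : 1 ≤ Real.log v := by linarith
  have hab : a ≤ b := by
    rw [ha, hb]
    exact Nat.floor_mono (Real.rpow_le_rpow_of_exponent_le k6 (by norm_num))
  have ha100 : (100 : ℝ) ≤ a := by exact_mod_cast k4
  have hb100 : (100 : ℝ) ≤ b := ha100.trans (by exact_mod_cast hab)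
  have hav : (a : ℝ) ≤ v ^ (9 / 10 : ℝ) := by
    rw [ha]; exact Nat.floor_le (by positivity)
  have hbv : (b : ℝ) ≤ v ^ (11 / 5 : ℝ) := by
    rw [hb]; exact Nat.floor_le (by positivity)
  have hav2 : v ^ (9 / 10 : ℝ) / 2 ≤ a := by
    have := Nat.lt_floor_add_one (v ^ (9 / 10 : ℝ))
    rw [← ha] at this
    linarith
  have la : Real.log a ≤ 9 / 10 * Real.log v := by
    rw [← Real.log_rpow hv]
    exact Real.log_le_log (by linarith) hav
  have la2 : 22 / 25 * Real.log v ≤ Real.log a := by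
    have h4 := Real.log_le_log (by positivity) hav2
    rw [Real.log_div (by positivity) (by norm_num), Real.log_rpow hv] at h4
    linarith
  have lb : Real.log b ≤ 11 / 5 * Real.log v := by
    rw [← Real.log_rpow hv]
    exact Real.log_le_log (by linarith) hbv
  constructor
  · refine (sum_bound a b (by omega) hab).trans ?_
    rw [split_sum a b hab]
    rw [Real.dist_eq, abs_lt] at k1 k2
    have e1 : (1 : ℝ) / a ≤ 1 / 100 := one_div_le_one_div_of_le (by norm_num) ha100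
    have e2 : Real.log (Real.log b) - Real.log (Real.log a) ≤ 92 / 100 := by
      have hla : 0 < Real.log a := by nlinarith
      have hlb : 0 < Real.log b := Real.log_pos (by linarith)
      rw [← Real.log_div hlb.ne' hla.ne', Real.log_le_iff_le_exp (by positivity)]
      refine le_trans ?_ exp_num
      rw [div_le_iff₀ hla]
      linarith
    linarith [k1.1, k1.2, k2.1, k2.2]
  · refine le_trans ?_ (prod_bound a)
    have hla : 0 < Real.log a := by nlinarith
    obtain ⟨P, hP⟩ : ∃ P : ℝ, P = ∏ p ∈ (Icc 1 a).filter Nat.Prime, (1 - (p : ℝ)⁻¹) := ⟨_, rfl⟩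
    have hP0 : 0 < P := by
      rw [hP]
      apply Finset.prod_pos
      intro p hp
      rw [mem_filter] at hp
      have hp2 : (2 : ℝ) ≤ p := by exact_mod_cast hp.2.two_le
      have h4 : (p : ℝ)⁻¹ ≤ 2⁻¹ := inv_anti₀ (by norm_num) hp2
      have h5 : (2 : ℝ)⁻¹ < 1 := by norm_num
      linarith
    rw [Finset.prod_inv_distrib, ← hP, div_lt_iff₀ hla] at k3
    rw [← hP]
    have h6 : 1 / (E * Real.log v) ≤ P := by
      rw [div_le_iff₀ (by positivity)]
      have h7 : 1 < P * (E * Real.log a) := by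
        have h8 : P * P⁻¹ < P * (E * Real.log a) := mul_lt_mul_of_pos_left k3 hP0
        rwa [mul_inv_cancel₀ hP0.ne'] at h8
      have h9 : P * (E * Real.log a) ≤ P * (E * Real.log v) := by
        apply mul_le_mul_of_nonneg_left _ hP0.le
        apply mul_le_mul_of_nonneg_left _ hE1.le
        linarith
      linarith
    have hLpos : 0 < Real.log v := by linarith
    have e3 : 1 / (2 * E) / Real.log v ^ 1 = (1 / (E * Real.log v)) / 2 := by
      rw [pow_one]
      field_simp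
    rw [e3]
    linarith

end Pool.Agent.H633.CY.MER1
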