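import Pool.Agent.H633.CY.Stm

set_option autoImplicit false

/-!
# Cyclic and abelian codes of almost all lengths: statements of the parts, second version

The good primes are now independent of the field (remark of helper144), and the number of the good
primes has the order `log log n / log log log n`.
-/

namespace Pool.Agent.H633.CY

open Finset

/-- MER with the exponent one. -/
def S_MER1 : Prop := ∃ c v0 : ℝ, 0 < c ∧ ∀ v : ℝ, v0 ≤ v →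
  ∑ r ∈ (Ioc ⌊v ^ (9 / 10 : ℝ)⌋₊ ⌊v ^ (11 / 5 : ℝ)⌋₊).filter Nat.Prime, 1 / ((r : ℝ) - 1) ≤ 19 / 20 ∧
  c / Real.log v ^ 1 ≤ ∏ t ∈ (Icc 3 ⌊v ^ (9 / 10 : ℝ)⌋₊).filter Nat.Prime, (1 - 1 / ((t : ℝ) - 1))

open Classical in
/-- DYA with the exponent one. -/
def S_DYA1 : Prop := ∀ l : ℕ, l.Prime → ∃ c v0 : ℝ, 0 < c ∧ ∀ (v : ℝ) (U : ℕ), v0 ≤ v →
  v ≤ 3 * Real.log (Real.log U) →
  c * (U / (Real.log U * Real.log v ^ 1)) ≤
    ((((Ioc U (2 * U)).filter (fun p : ℕ => p.Prime ∧ 4 * l ∣ p + 1 ∧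
      ∀ r : ℕ, r.Prime → 3 ≤ r → (r : ℝ) ≤ v ^ (11 / 5 : ℝ) → ¬ r ∣ p - 1)).card : ℕ) : ℝ)

/-- LOW with the exponent one. -/
def S_LOW1 : Prop := ∀ l : ℕ, l.Prime → ∃ c : ℝ, 0 < c ∧ ∃ N0 : ℕ, ∀ N : ℕ, N0 ≤ N →
  c * (Real.log (Real.log N) / Real.log (Real.log (Real.log N))) ≤ ∑ p ∈ PP l N, (1 : ℝ) / p

/-- `p` is a good prime factor of `n` (no reference to a field): `p` divides `n` exactly once and
`(p - 1) / 2` is prime to `φ(n / p)`. -/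
def Good (n p : ℕ) : Prop :=
  p.Prime ∧ p ∣ n ∧ ¬ p ^ 2 ∣ n ∧ ((p - 1) / 2).Coprime (n / p).totient

/-- GOOD2. Primes of `PP` without collisions are good. -/
def S_GOOD2 : Prop := ∀ (n p : ℕ) (y : ℝ), 2 ≤ y → 0 < n →
  p.Prime → p ∣ n → 4 ∣ p + 1 → 7 ≤ p →
  (∀ r : ℕ, r.Prime → 3 ≤ r → (r : ℝ) ≤ y → ¬ r ∣ p - 1) → ¬ Coll y n → Good n p ∧ y < p

/-- GOODK. Good primes for the fields with `q ^ 2` elements. -/
def S_GOODK : Prop := ∀ q n p : ℕ, 2 ≤ q → q + 1 < p → Good n p → GoodP (q ^ 2) n p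

/-- ALG2. The algebraic main theorem for `F` from the one for the quadratic extension. -/
def S_ALG2 : Prop := ∀ (F : Type) [Field F] [Fintype F] [DecidableEq F] (S : Finset ℕ) (G : Type)
  [AddCommGroup G] [Fintype G],
  (∀ p ∈ S, Good (Fintype.card G) p ∧ Fintype.card F + 1 < p) →
  ∀ C : Submodule F (G → F), TransInv C →
  ∑ p ∈ S, Fintype.card G / p < Module.finrank F C →
  ∃ c ∈ C, c ≠ 0 ∧ (Fintype.card F ^ 2 + 1) ^ S.card * hammingNorm c ≤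
    (Fintype.card F ^ 2) ^ S.card * Fintype.card G

end Pool.Agent.H633.CY
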